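import Pool.Agent.H33.RD.Close

/-!
# Bounded geodesic image for the coned-off graph
-/

set_option autoImplicit false

namespace Pool.Agent.H33.RD

section

variable {V C : Type} (M : GM V) (Y : C → Set V) (hne : ∀ c, (Y c).Nonempty)
  {δ R : ℕ} (hyp : M.Hyp δ) (hQ : ∀ c, QC M (Y c) R)
  (hO : ∀ c c', c ≠ c' → ∀ y ∈ Y c', ∀ y' ∈ Y c', ∀ p p', IsNear M (Y c) y p →
    IsNear M (Y c) y' p' → M.d p p' ≤ R)
  {Dh : ℕ} (hDh : ∀ E : ℕ,
      (∀ j : ℕ, 6 * E + 2 ≤ 2 ^ j → E ≤ 2 * δ + j * δ + R + 2) → E ≤ Dh)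

/-- `p` is a projection of the vertex `z` of the coned-off graph to `Y c` -/
def Pr (c : C) (z : V ⊕ C) (p : V) : Prop := ∃ x, Rep Y z x ∧ IsNear M (Y c) x p

include hne in
theorem Pr_exists (c : C) (z : V ⊕ C) : ∃ p, Pr M Y c z p := by
  obtain ⟨x, hx⟩ := Rep_exists Y hne z
  obtain ⟨p, hp⟩ := exists_near M (hne c) x
  exact ⟨p, x, hx, hp⟩

theorem Pr_self {c : C} {p : V} (hp : p ∈ Y c) : Pr M Y c (Sum.inl p) p :=
  ⟨p, rfl, near_self M hp⟩

theorem Pr_mem {c : C} {z : V ⊕ C} {p : V} (h : Pr M Y c z p) : p ∈ Y c := by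
  obtain ⟨_, _, h⟩ := h
  exact h.1

include hyp hQ hO in
/-- coarse Lipschitz -/
theorem Pr_lip {c : C} {z z' : V ⊕ C} (hz : z ≠ Sum.inr c) (hz' : z' ≠ Sum.inr c)
    (h : (coneD M Y hne).d z z' ≤ 1) {p p' : V} (hp : Pr M Y c z p) (hp' : Pr M Y c z' p') :
    M.d p p' ≤ 2 * R + δ + 1 := by
  obtain ⟨x, hx, hxp⟩ := hp
  obtain ⟨y, hy, hyp'⟩ := hp'
  rcases coneD_le_one M Y hne h hx hy with ⟨c', h1, h2, h3⟩ | ⟨_, _, h3⟩
  · have hcc : c ≠ c' := by
      rintro rfl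
      rcases h3 with h3 | h3
      · exact hz h3
      · exact hz' h3
    have := hO c c' hcc x h1 y h2 p p' hxp hyp'
    omega
  · rcases proj_dich M hyp (hQ c) hxp hyp' with h4 | h4 <;> omega

include hyp hQ hDh in
/-- contraction -/
theorem Pr_con {c : C} {z z' : V ⊕ C} {p p' : V} (hp : Pr M Y c z p) (hp' : Pr M Y c z' p')
    (h : R + δ < M.d p p') :
    (coneD M Y hne).d z (Sum.inr c) ≤ (coneD M Y hne).d z z' + (Dh + 2 * R + 2 * δ + 1) := by
  obtain ⟨x, hx, hxp⟩ := hp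
  obtain ⟨y, hy, hyp'⟩ := hp'
  rcases proj_dich M hyp (hQ c) hxp hyp' with h4 | h4
  · omega
  · obtain ⟨γ, g0, gn, hγ⟩ := (coneD M Y hne).exists_geod z z'
    have t0 := M.tri p p' y
    obtain ⟨i, h1, h2⟩ := close_lemma' M Y hne hyp hQ hDh hγ (by rw [g0]; exact hx)
      (by rw [gn]; exact hy) (m := p) (κ := 2 * R + δ) (by omega)
    have a1 := hγ 0 i (by omega) h1
    rw [g0] at a1
    have t1 := (coneD M Y hne).tri z (γ i) (Sum.inr c)
    have t2 := (coneD M Y hne).tri (γ i) (Sum.inl p) (Sum.inr c)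
    rw [(coneD M Y hne).comm (γ i) (Sum.inl p), (coneD_adj M Y hne).2 hxp.1] at t2
    omega

/-- the constant in the bounded geodesic image property, for projections -/
def cB (δ R Dh : ℕ) : ℕ := 2 * (R + δ) + (2 * (Dh + 2 * R + 2 * δ + 1) + 4) * (2 * R + δ + 1)

include hyp hQ hO hDh in
theorem Pr_bgi {c : C} {z z' : V ⊕ C} (hz : z ≠ Sum.inr c) (hz' : z' ≠ Sum.inr c)
    (h : (coneD M Y hne).d z z' <
      (coneD M Y hne).d z (Sum.inr c) + (coneD M Y hne).d (Sum.inr c) z')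
    {p p' : V} (hp : Pr M Y c z p) (hp' : Pr M Y c z' p') : M.d p p' ≤ cB δ R Dh := by
  obtain ⟨γ, g0, gn, hγ⟩ := (coneD M Y hne).exists_geod z z'
  set L := (coneD M Y hne).d z z' with hL
  set A := (coneD M Y hne).d z (Sum.inr c) with hA
  set B := (coneD M Y hne).d (Sum.inr c) z' with hB
  set c₂ := Dh + 2 * R + 2 * δ + 1 with hc₂
  set CL := 2 * R + δ + 1 with hCL
  have hnc : ∀ i ≤ L, γ i ≠ Sum.inr c := by
    intro i hi heq
    have a1 := hγ 0 i (by omega) hi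
    have a2 := hγ i L hi le_rfl
    rw [g0, heq] at a1
    rw [gn, heq] at a2
    omega
  have hP : ∀ i, ∃ q, Pr M Y c (γ i) q := fun i => Pr_exists M Y hne c (γ i)
  choose P hP using hP
  -- steps
  have hstep : ∀ n i, i + n ≤ L → M.d (P i) (P (i + n)) ≤ n * CL := by
    intro n i
    induction n with
    | zero => intro _; rw [add_zero, M.self]; omega
    | succ n ih =>
      intro hn
      have h1 := ih (by omega)
      have h2 := Pr_lip M Y hne hyp hQ hO (hnc (i + n) (by omega)) (hnc (i + n + 1) (by omega))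
        (by rw [hγ (i + n) (i + n + 1) (by omega) (by omega)]; omega) (hP (i + n))
        (hP (i + n + 1))
      have h3 := M.tri (P i) (P (i + n)) (P (i + n + 1))
      have e : (n + 1) * CL = n * CL + CL := by ring
      rw [e, ← add_assoc]
      omega
  have hleft : ∀ i ≤ L, i + c₂ < A → M.d (P 0) (P i) ≤ R + δ := by
    intro i hi h1
    by_contra hcon
    have h2 := Pr_con M Y hne hyp hQ hDh (hP 0) (hP i) (by omega)
    rw [hγ 0 i (by omega) hi, g0] at h2
    omega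
  have hright : ∀ i ≤ L, (L - i) + c₂ < B → M.d (P i) (P L) ≤ R + δ := by
    intro i hi h1
    by_contra hcon
    have h2 := Pr_con M Y hne hyp hQ hDh (hP L) (hP i) (by rw [M.comm]; omega)
    rw [(coneD M Y hne).comm (γ L) (γ i), hγ i L hi le_rfl, gn,
      (coneD M Y hne).comm z' (Sum.inr c)] at h2
    omega
  have hend1 : M.d p (P 0) ≤ CL :=
    Pr_lip M Y hne hyp hQ hO hz (hnc 0 (by omega)) (by rw [g0, (coneD M Y hne).self]; omega) hp
      (hP 0)
  have hend2 : M.d (P L) p' ≤ CL :=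
    Pr_lip M Y hne hyp hQ hO (hnc L le_rfl) hz' (by rw [gn, (coneD M Y hne).self]; omega) (hP L)
      hp'
  have hmid : M.d (P 0) (P L) ≤ 2 * (R + δ) + (2 * c₂ + 2) * CL := by
    set i₁ := min L (A - (c₂ + 1)) with hi₁
    set j₁ := L - min L (B - (c₂ + 1)) with hj₁
    have hL1 : M.d (P 0) (P i₁) ≤ R + δ := by
      rcases Nat.eq_zero_or_pos i₁ with h0 | h0
      · rw [h0, M.self]; omega
      · exact hleft i₁ (by omega) (by omega)
    have hR1 : M.d (P j₁) (P L) ≤ R + δ := by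
      by_cases h0 : j₁ = L
      · rw [h0, M.self]; omega
      · exact hright j₁ (by omega) (by omega)
    have t2 := M.tri (P 0) (P j₁) (P L)
    rcases le_or_gt j₁ i₁ with hle | hlt
    · have hL2 : M.d (P 0) (P j₁) ≤ R + δ := by
        rcases Nat.eq_zero_or_pos j₁ with h0 | h0
        · rw [h0, M.self]; omega
        · exact hleft j₁ (by omega) (by omega)
      have : 0 ≤ (2 * c₂ + 2) * CL := Nat.zero_le _
      omega
    · have h1 := hstep (j₁ - i₁) i₁ (by omega)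
      rw [Nat.add_sub_cancel' hlt.le] at h1
      have h2 : (j₁ - i₁) * CL ≤ (2 * c₂ + 2) * CL := Nat.mul_le_mul_right _ (by omega)
      have t1 := M.tri (P 0) (P i₁) (P j₁)
      omega
  have t1 := M.tri p (P 0) p'
  have t2 := M.tri (P 0) (P L) p'
  unfold cB
  have e : (2 * (Dh + 2 * R + 2 * δ + 1) + 4) * (2 * R + δ + 1) = (2 * c₂ + 2) * CL + 2 * CL := by
    rw [hc₂, hCL]; ring
  rw [e]
  omega

/-- entry points -/
def Ent (c : C) (z : V ⊕ C) : Set V :=
  {p | p ∈ Y c ∧ (coneD M Y hne).d z (Sum.inl p) + 1 = (coneD M Y hne).d z (Sum.inr c)}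

include hyp hQ hO hDh in
theorem Ent_Pr {c : C} {z : V ⊕ C} {p p' : V} (hp : p ∈ Ent M Y hne c z) (hp' : Pr M Y c z p') :
    M.d p p' ≤ cB δ R Dh := by
  have hz : z ≠ Sum.inr c := by
    rintro rfl
    have := hp.2
    rw [(coneD M Y hne).self] at this
    omega
  rw [M.comm]
  refine Pr_bgi M Y hne hyp hQ hO hDh hz (by simp) ?_ hp' (Pr_self M Y hp.1)
  have := hp.2
  omega

include hyp hQ hO hDh in
/-- **Bounded geodesic image**, for entry points. -/
theorem Ent_bgi {c : C} {z z' : V ⊕ C} (hz : z ≠ Sum.inr c) (hz' : z' ≠ Sum.inr c)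
    (h : (coneD M Y hne).d z z' <
      (coneD M Y hne).d z (Sum.inr c) + (coneD M Y hne).d (Sum.inr c) z')
    {p p' : V} (hp : p ∈ Ent M Y hne c z) (hp' : p' ∈ Ent M Y hne c z') :
    M.d p p' ≤ 3 * cB δ R Dh := by
  obtain ⟨q, hq⟩ := Pr_exists M Y hne c z
  obtain ⟨q', hq'⟩ := Pr_exists M Y hne c z'
  have h1 := Ent_Pr M Y hne hyp hQ hO hDh hp hq
  have h2 := Ent_Pr M Y hne hyp hQ hO hDh hp' hq'
  have h3 := Pr_bgi M Y hne hyp hQ hO hDh hz hz' h hq hq'
  have t1 := M.tri p q p'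
  have t2 := M.tri q q' p'
  rw [M.comm q' p'] at t2
  omega

end

end Pool.Agent.H33.RD
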