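import Pool.Agent.H33.RD.Defs

/-!
# Rapid decay from centres (abstract lemma)
-/

set_option autoImplicit false

namespace Pool.Agent.H33.RD

section

variable {G : Type} [Group G]

open Finset

theorem rd_of_center (T : G → Finset G) (K : ℕ) (hcard : ∀ q, (T q).card ≤ K) (f g : G →₀ ℝ)
    (hcenter : ∀ x ∈ f.support, ∀ z : G, ∃ c, c ∈ T x ∧ c ∈ T z ∧ x⁻¹ * c ∈ T (x⁻¹ * z))
    (F : Finset G) :
    ∑ x ∈ F, (∑ y ∈ f.support, f y * g (y⁻¹ * x)) ^ 2 ≤
      (K : ℝ) ^ 3 * (∑ y ∈ f.support, f y ^ 2) * (∑ z ∈ g.support, g z ^ 2) := by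
  classical
  have hc' : ∀ x z : G, ∃ c, x ∈ f.support → c ∈ T x ∧ c ∈ T z ∧ x⁻¹ * c ∈ T (x⁻¹ * z) := by
    intro x z
    by_cases hx : x ∈ f.support
    · obtain ⟨c, hc⟩ := hcenter x hx z
      exact ⟨c, fun _ => hc⟩
    · exact ⟨1, fun h => absurd h hx⟩
  choose cc hcc using hc'
  -- all centres
  set CC : Finset G := f.support.biUnion T with hCC
  -- the two weights
  set a : G → ℝ := fun c => ∑ y ∈ f.support with c ∈ T y, f y ^ 2 with ha
  set b : G → G → ℝ := fun c z => ∑ y ∈ f.support with y⁻¹ * c ∈ T (y⁻¹ * z), g (y⁻¹ * z) ^ 2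
    with hb
  have ha0 : ∀ c, 0 ≤ a c := fun c => Finset.sum_nonneg fun _ _ => sq_nonneg _
  have hb0 : ∀ c z, 0 ≤ b c z := fun c z => Finset.sum_nonneg fun _ _ => sq_nonneg _
  have hz : ∀ z, (∑ y ∈ f.support, f y * g (y⁻¹ * z)) ^ 2 ≤ K * ∑ c ∈ CC, a c * b c z := by
    intro z
    have h1 : ∑ y ∈ f.support, f y * g (y⁻¹ * z) =
        ∑ c ∈ CC ∩ T z, ∑ y ∈ f.support with cc y z = c, f y * g (y⁻¹ * z) := by
      refine (Finset.sum_fiberwise_of_maps_to (g := fun y => cc y z) ?_ _).symm
      intro y hy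
      have := hcc y z hy
      rw [Finset.mem_inter, hCC, Finset.mem_biUnion]
      exact ⟨⟨y, hy, this.1⟩, this.2.1⟩
    rw [h1]
    have h2 : (∑ c ∈ CC ∩ T z, ∑ y ∈ f.support with cc y z = c, f y * g (y⁻¹ * z)) ^ 2 ≤
        ((CC ∩ T z).card : ℝ) * ∑ c ∈ CC ∩ T z,
          (∑ y ∈ f.support with cc y z = c, f y * g (y⁻¹ * z)) ^ 2 := sq_sum_le_card_mul_sum_sq
    have h3 : ∀ c ∈ CC ∩ T z, (∑ y ∈ f.support with cc y z = c, f y * g (y⁻¹ * z)) ^ 2 ≤
        a c * b c z := by
      intro c _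
      calc _ ≤ (∑ y ∈ f.support with cc y z = c, f y ^ 2) *
            (∑ y ∈ f.support with cc y z = c, g (y⁻¹ * z) ^ 2) :=
            Finset.sum_mul_sq_le_sq_mul_sq _ _ _
        _ ≤ a c * b c z := by
          apply mul_le_mul
          · apply Finset.sum_le_sum_of_subset_of_nonneg
            · intro y hy
              rw [Finset.mem_filter] at hy ⊢
              have := hcc y z hy.1
              rw [hy.2] at this
              exact ⟨hy.1, this.1⟩
            · exact fun _ _ _ => sq_nonneg _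
          · apply Finset.sum_le_sum_of_subset_of_nonneg
            · intro y hy
              rw [Finset.mem_filter] at hy ⊢
              have := hcc y z hy.1
              rw [hy.2] at this
              exact ⟨hy.1, this.2.2⟩
            · exact fun _ _ _ => sq_nonneg _
          · exact Finset.sum_nonneg fun _ _ => sq_nonneg _
          · exact ha0 c
    have h4 : ((CC ∩ T z).card : ℝ) ≤ K := by
      have : (CC ∩ T z).card ≤ (T z).card := Finset.card_le_card Finset.inter_subset_right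
      exact_mod_cast this.trans (hcard z)
    calc _ ≤ _ := h2
      _ ≤ (K : ℝ) * ∑ c ∈ CC ∩ T z, a c * b c z :=
        mul_le_mul h4 (Finset.sum_le_sum h3) (Finset.sum_nonneg fun _ _ => sq_nonneg _)
          (Nat.cast_nonneg _)
      _ ≤ (K : ℝ) * ∑ c ∈ CC, a c * b c z := by
        apply mul_le_mul_of_nonneg_left _ (Nat.cast_nonneg _)
        exact Finset.sum_le_sum_of_subset_of_nonneg Finset.inter_subset_left
          fun c _ _ => mul_nonneg (ha0 c) (hb0 c z)
  -- bound for the second weight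
  have hbs : ∀ c, ∑ z ∈ F, b c z ≤ K * ∑ w ∈ g.support, g w ^ 2 := by
    intro c
    have e1 : ∑ z ∈ F, b c z = ∑ y ∈ f.support, ∑ z ∈ F,
        (if y⁻¹ * c ∈ T (y⁻¹ * z) then g (y⁻¹ * z) ^ 2 else 0) := by
      rw [Finset.sum_comm]
      refine Finset.sum_congr rfl fun z _ => ?_
      simp only [hb, Finset.sum_filter]
    have e2 : ∀ y, ∑ z ∈ F, (if y⁻¹ * c ∈ T (y⁻¹ * z) then g (y⁻¹ * z) ^ 2 else 0) ≤
        ∑ w ∈ g.support, (if y⁻¹ * c ∈ T w then g w ^ 2 else 0) := by
      intro y
      have e3 : ∑ z ∈ F, (if y⁻¹ * c ∈ T (y⁻¹ * z) then g (y⁻¹ * z) ^ 2 else 0) =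
          ∑ w ∈ F.image (fun z => y⁻¹ * z), (if y⁻¹ * c ∈ T w then g w ^ 2 else 0) := by
        rw [Finset.sum_image]
        intro z _ z' _ h
        exact mul_left_cancel h
      rw [e3]
      have e4 : ∑ w ∈ F.image (fun z => y⁻¹ * z), (if y⁻¹ * c ∈ T w then g w ^ 2 else 0) =
          ∑ w ∈ (F.image (fun z => y⁻¹ * z)).filter (fun w => w ∈ g.support),
            (if y⁻¹ * c ∈ T w then g w ^ 2 else 0) := by
        rw [Finset.sum_filter]
        refine Finset.sum_congr rfl fun w _ => ?_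
        by_cases hw : w ∈ g.support
        · rw [if_pos hw]
        · rw [if_neg hw]
          have : g w = 0 := by simpa using hw
          rw [this]; simp
      rw [e4]
      apply Finset.sum_le_sum_of_subset_of_nonneg
      · intro w hw
        exact (Finset.mem_filter.1 hw).2
      · intro w _ _
        split_ifs
        · exact sq_nonneg _
        · exact le_rfl
    rw [e1]
    calc _ ≤ ∑ y ∈ f.support, ∑ w ∈ g.support, (if y⁻¹ * c ∈ T w then g w ^ 2 else 0) :=
          Finset.sum_le_sum fun y _ => e2 y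
      _ = ∑ w ∈ g.support, ∑ y ∈ f.support, (if y⁻¹ * c ∈ T w then g w ^ 2 else 0) :=
          Finset.sum_comm
      _ ≤ ∑ w ∈ g.support, K * g w ^ 2 := by
          refine Finset.sum_le_sum fun w _ => ?_
          rw [← Finset.sum_filter, Finset.sum_const, nsmul_eq_mul]
          apply mul_le_mul_of_nonneg_right _ (sq_nonneg _)
          have : (f.support.filter fun y => y⁻¹ * c ∈ T w).card ≤ (T w).card := by
            apply Finset.card_le_card_of_injOn (fun y => y⁻¹ * c)
            · intro y hy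
              exact (Finset.mem_filter.1 hy).2
            · intro y _ y' _ h
              exact inv_injective (mul_right_cancel h)
          exact_mod_cast this.trans (hcard w)
      _ = _ := by rw [Finset.mul_sum]
  have has : ∑ c ∈ CC, a c ≤ K * ∑ y ∈ f.support, f y ^ 2 := by
    have e1 : ∑ c ∈ CC, a c = ∑ y ∈ f.support, ∑ c ∈ CC, (if c ∈ T y then f y ^ 2 else 0) := by
      rw [Finset.sum_comm]
      refine Finset.sum_congr rfl fun c _ => ?_
      simp only [ha, Finset.sum_filter]
    rw [e1, Finset.mul_sum]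
    refine Finset.sum_le_sum fun y _ => ?_
    rw [← Finset.sum_filter, Finset.sum_const, nsmul_eq_mul]
    apply mul_le_mul_of_nonneg_right _ (sq_nonneg _)
    have : (CC.filter fun c => c ∈ T y).card ≤ (T y).card := by
      apply Finset.card_le_card
      intro c hc
      exact (Finset.mem_filter.1 hc).2
    exact_mod_cast this.trans (hcard y)
  calc _ ≤ ∑ z ∈ F, (K : ℝ) * ∑ c ∈ CC, a c * b c z := Finset.sum_le_sum fun z _ => hz z
    _ = K * ∑ c ∈ CC, a c * ∑ z ∈ F, b c z := by
      rw [← Finset.mul_sum, Finset.sum_comm]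
      congr 1
      refine Finset.sum_congr rfl fun c _ => ?_
      rw [Finset.mul_sum]
    _ ≤ K * ∑ c ∈ CC, a c * (K * ∑ w ∈ g.support, g w ^ 2) := by
      apply mul_le_mul_of_nonneg_left _ (Nat.cast_nonneg _)
      exact Finset.sum_le_sum fun c _ => mul_le_mul_of_nonneg_left (hbs c) (ha0 c)
    _ = K * (K * ∑ w ∈ g.support, g w ^ 2) * ∑ c ∈ CC, a c := by
      rw [← Finset.sum_mul]; ring
    _ ≤ K * (K * ∑ w ∈ g.support, g w ^ 2) * (K * ∑ y ∈ f.support, f y ^ 2) := by
      apply mul_le_mul_of_nonneg_left has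
      have : 0 ≤ ∑ w ∈ g.support, g w ^ 2 := Finset.sum_nonneg fun _ _ => sq_nonneg _
      positivity
    _ = _ := by ring

end

end Pool.Agent.H33.RD
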