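import Pool.Agent.H33.RD.Lip

/-!
# Centres of triangles in the quotient
-/

set_option autoImplicit false

namespace Pool.Agent.H33.RD

/-- centre of a triangle in a hyperbolic graph -/
theorem exists_center {V : Type} {M : GM V} {δ : ℕ} (hyp : M.Hyp δ) (x b e : V) :
    ∃ m, M.d x m + M.d m b ≤ M.d x b + (δ + 1) ∧ M.d x m + M.d m e ≤ M.d x e + (δ + 1) ∧
      M.d b m + M.d m e ≤ M.d b e + (δ + 1) := by
  have t1 := M.tri x b e
  have t2 := M.tri b x e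
  have t3 := M.tri x e b
  rw [M.comm b x] at t2
  rw [M.comm e b] at t3
  obtain ⟨m, h1, h2⟩ := M.geod x b ((M.d x b + M.d x e - M.d b e) / 2) (by omega)
  have h3 := hyp e m x b
  rw [M.comm e m, M.comm e x, M.comm m x, M.comm e b] at h3
  refine ⟨m, by omega, by omega, ?_⟩
  rw [M.comm b m]
  omega

namespace CD

variable {H V C : Type} [Group H] [MulAction H V] [MulAction H C] (P : CD H V C)

/-- membership in the candidate set along a geodesic -/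
def TP (x₀ : V) (r D' D₁ C₁ : ℕ) (γ : ℕ → V ⊕ C) (L : ℕ) (h : H) : Prop :=
  ∃ i, i ≤ L ∧ i ≤ r + D' ∧ ((∃ y, γ i = Sum.inl y ∧ P.X.d (h • x₀) y ≤ D₁) ∨
    (∃ c p₀ p, 1 ≤ i ∧ γ i = Sum.inr c ∧ γ (i - 1) = Sum.inl p₀ ∧ p₀ ∈ P.Y c ∧ p ∈ P.Y c ∧
      P.X.d p p₀ ≤ C₁ * (r + 1) ∧ P.X.d (h • x₀) p ≤ D₁))

/-- the same up to rotation -/
def TP' (x₀ : V) (r D' D₁ C₁ : ℕ) (γ : ℕ → V ⊕ C) (L : ℕ) (h : H) : Prop :=
  ∃ i, i ≤ L ∧ i ≤ r + D' ∧ ((∃ y, γ i = Sum.inl y ∧ P.X.d (h • x₀) y ≤ D₁) ∨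
    (∃ c p₀ p, 1 ≤ i ∧ γ i = Sum.inr c ∧ γ (i - 1) = Sum.inl p₀ ∧ p₀ ∈ P.Y c ∧ p ∈ P.Y c ∧
      (∃ s ∈ P.G c, P.X.d p (s • p₀) ≤ C₁ * (r + 1)) ∧ P.X.d (h • x₀) p ≤ D₁))

variable {P}

theorem TP_smul {x₀ : V} {r D' D₁ C₁ : ℕ} {γ : ℕ → V ⊕ C} {L : ℕ} {h : H} (g : H)
    (hT : P.TP x₀ r D' D₁ C₁ (fun i => g • γ i) L h) : P.TP x₀ r D' D₁ C₁ γ L (g⁻¹ * h) := by
  obtain ⟨i, h1, h2, h3⟩ := hT
  refine ⟨i, h1, h2, ?_⟩
  rcases h3 with ⟨y, hy, hd⟩ | ⟨c, p₀, p, a1, a2, a3, a4, a5, a6, a7⟩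
  · left
    refine ⟨g⁻¹ • y, ?_, ?_⟩
    · rw [← smul_inl, ← hy, inv_smul_smul]
    · rw [mul_smul, P.Xinv]; exact hd
  · right
    refine ⟨g⁻¹ • c, g⁻¹ • p₀, g⁻¹ • p, a1, ?_, ?_, P.Yinv _ _ _ a4, P.Yinv _ _ _ a5, ?_, ?_⟩
    · rw [← smul_inr, ← a2, inv_smul_smul]
    · rw [← smul_inl, ← a3, inv_smul_smul]
    · rw [P.Xinv]; exact a6
    · rw [mul_smul, P.Xinv]; exact a7

theorem TP_transfer {x₀ : V} {r D' D₁ C₁ : ℕ} {γ γ' : ℕ → V ⊕ C} {L : ℕ} {h : H}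
    (h1 : ∀ i ≤ L, ∃ κ ∈ P.N, γ' i = κ • γ i)
    (h2 : ∀ i < L, ∃ κ ∈ P.N, γ' i = κ • γ i ∧ γ' (i + 1) = κ • γ (i + 1))
    (hT : P.TP' x₀ r D' D₁ C₁ γ' L h) : ∃ κ ∈ P.N, P.TP x₀ r D' D₁ C₁ γ L (κ * h) := by
  obtain ⟨i, hi, hir, h3⟩ := hT
  rcases h3 with ⟨y, hy, hd⟩ | ⟨c, p₀, p, a1, a2, a3, a4, a5, ⟨s, hs, a6⟩, a7⟩
  · obtain ⟨κ, hκ, e⟩ := h1 i hi
    refine ⟨κ⁻¹, P.N.inv_mem hκ, i, hi, hir, Or.inl ⟨κ⁻¹ • y, ?_, ?_⟩⟩
    · rw [← smul_inl, ← hy, e, inv_smul_smul]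
    · rw [mul_smul, P.Xinv]; exact hd
  · obtain ⟨κ, hκ, e1, e2⟩ := h2 (i - 1) (by omega)
    rw [Nat.sub_add_cancel a1] at e2
    refine ⟨κ⁻¹ * s⁻¹, P.N.mul_mem (P.N.inv_mem hκ) (P.N.inv_mem (P.G_le_N hs)), i, hi, hir,
      Or.inr ⟨κ⁻¹ • c, κ⁻¹ • p₀, (κ⁻¹ * s⁻¹) • p, a1, ?_, ?_, P.Yinv _ _ _ a4, ?_, ?_, ?_⟩⟩
    · rw [← smul_inr, ← a2, e2, inv_smul_smul]
    · rw [← smul_inl, ← a3, e1, inv_smul_smul]
    · have := P.Yinv (κ⁻¹ * s⁻¹) p c a5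
      rwa [mul_smul κ⁻¹ s⁻¹ c, P.Gfix c s⁻¹ ((P.G c).inv_mem hs)] at this
    · rw [mul_smul, P.Xinv, ← P.Xinv s, smul_inv_smul]
      exact a6
    · rw [mul_smul (κ⁻¹ * s⁻¹) h x₀, P.Xinv]; exact a7

variable {B δ Dk ca cq K : ℕ}

/-- the threshold -/
def D3 (B δ Dk cq : ℕ) : ℕ := 2 * B + δ + 2 + 2 * (2 * DR B δ Dk cq + cq)

theorem center_geom (hR : P.RDH B δ Dk ca cq) (hK : 3 * (2 * B) ≤ K)
    (hred : ∀ a : V, ∀ ν ∈ P.N, P.Red K a ν) {x₀ : V} {D₀ : ℕ}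
    (cob : ∀ x : V, ∃ h : H, P.X.d x (h • x₀) ≤ D₀) {b e : V} {r : ℕ}
    {α β ζ : ℕ → V ⊕ C} {Lα Lβ Lζ : ℕ} (hα : IsGeod P.D α Lα) (hβ : IsGeod P.D β Lβ)
    (hζ : IsGeod P.D ζ Lζ) (α0 : α 0 = Sum.inl x₀) (α1 : α Lα = Sum.inl b)
    (β0 : β 0 = Sum.inl b) (β1 : β Lβ = Sum.inl e) (ζ0 : ζ 0 = Sum.inl x₀)
    (ζ1 : ζ Lζ = Sum.inl e) (hLr : Lα ≤ r)
    (hq : ∀ i j, i ≤ j → j ≤ Lα → qd P.D P.N (α i) (α j) = j - i)
    (hqX : qd P.X P.N x₀ b ≤ r) :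
    ∃ h : H, P.TP' x₀ r (ca + DR B δ Dk cq + 1) (D₀ + DR B δ Dk cq + D3 B δ Dk cq + B)
        (DR B δ Dk cq + D3 B δ Dk cq + 3 * B) α Lα h ∧
      P.TP' x₀ r (ca + DR B δ Dk cq + 1) (D₀ + DR B δ Dk cq + D3 B δ Dk cq + B)
        (DR B δ Dk cq + D3 B δ Dk cq + 3 * B) β Lβ h ∧
      P.TP' x₀ r (ca + DR B δ Dk cq + 1) (D₀ + DR B δ Dk cq + D3 B δ Dk cq + B)
        (DR B δ Dk cq + D3 B δ Dk cq + 3 * B) ζ Lζ h := by
  set DRc := DR B δ Dk cq with hDRc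
  set T3 := D3 B δ Dk cq with hT3
  have hT3' : T3 = 2 * B + δ + 2 + 2 * (2 * DRc + cq) := rfl
  set C₁ := DRc + T3 + 3 * B with hC₁
  obtain ⟨m, m1, m2, m3⟩ := exists_center hR.hypX x₀ b e
  -- the Lipschitz property
  have hlip : ∀ c p q, p ∈ P.E c (Sum.inl x₀) → q ∈ P.E c (Sum.inl b) →
      ∃ s ∈ P.G c, P.X.d p (s • q) ≤ (r + 1) * (2 * B) := by
    intro c p q hp hq'
    by_cases hc : ∃ i ≤ Lα, α i = Sum.inr c
    · obtain ⟨i, hi, hic⟩ := hc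
      have a1 := hq 0 i (by omega) hi
      have a2 := hq i Lα hi le_rfl
      have a3 := hα 0 i (by omega) hi
      have a4 := hα i Lα hi le_rfl
      rw [α0, hic] at a1 a3
      rw [α1, hic] at a2 a4
      obtain ⟨s, hs, h⟩ := lip hR.bgi hK hred hR.DleX (u := x₀) (p := p) (c := c)
        (by rw [a1, a3]) hp r b q (by
          rw [P.D.comm, qd_comm P.D P.N P.Dinv, a2, a4]) hqX hq'
      refine ⟨s, hs, h.trans ?_⟩
      exact Nat.mul_le_mul_left _ (by omega)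
    · push Not at hc
      refine ⟨1, (P.G c).one_mem, ?_⟩
      rw [one_smul]
      have := P.path_bgi hR.bgi hα hc (by rw [α0]; exact hp) (by rw [α1]; exact hq')
      have h2 : 2 * B ≤ (r + 1) * (2 * B) := Nat.le_mul_of_pos_left _ (by omega)
      omega
  have hC1a : C₁ ≤ C₁ * (r + 1) := Nat.le_mul_of_pos_right _ (by omega)
  have hC1b : DRc + T3 + (r + 1) * (2 * B) ≤ C₁ * (r + 1) := by
    have e1 : C₁ * (r + 1) = (DRc + T3 + B) * (r + 1) + (r + 1) * (2 * B) := by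
      rw [hC₁]; ring
    have e2 : DRc + T3 + B ≤ (DRc + T3 + B) * (r + 1) := Nat.le_mul_of_pos_right _ (by omega)
    omega
  by_cases hA : ∃ c y, y ∈ P.Y c ∧ P.X.d m y ≤ DRc ∧ (∀ p ∈ P.E c (Sum.inl x₀), T3 < P.X.d m p) ∧
      ∀ q ∈ P.E c (Sum.inl b), T3 < P.X.d m q
  · -- Case A
    obtain ⟨c, y, hy, hmy, hA1, hA2⟩ := hA
    obtain ⟨p₀, hp₀⟩ := P.E_nemp (c := c) (z := Sum.inl x₀) (inr_ne_inl _ _)
    obtain ⟨pb, hpb⟩ := P.E_nemp (c := c) (z := Sum.inl b) (inr_ne_inl _ _)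
    obtain ⟨pe, hpe⟩ := P.E_nemp (c := c) (z := Sum.inl e) (inr_ne_inl _ _)
    have g1 := hA1 p₀ hp₀
    have g2 := hA2 pb hpb
    have q1 := hR.qc c x₀ p₀ y hp₀ hy
    have q2 := hR.qc c b pb y hpb hy
    have q3 := hR.qc c e pe y hpe hy
    have u1 := P.X.tri x₀ m y
    have u2 := P.X.tri b m y
    have u3 := P.X.tri e m y
    have u4 := P.X.tri p₀ y m
    have u5 := P.X.tri pb y m
    have u6 := P.X.tri pe y m
    have u7 := P.X.tri x₀ p₀ b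
    have u8 := P.X.tri p₀ pb b
    have u9 := P.X.tri x₀ p₀ e
    have u10 := P.X.tri p₀ pe e
    have u11 := P.X.tri b pb e
    have u12 := P.X.tri pb pe e
    rw [P.X.comm y m] at u4 u5 u6
    rw [P.X.comm b m] at u2
    rw [P.X.comm e m] at u3
    rw [P.X.comm p₀ m] at u4
    rw [P.X.comm pb m] at u5
    rw [P.X.comm pe m] at u6
    rw [P.X.comm pb b] at u8
    rw [P.X.comm pe e] at u10 u12
    rw [P.X.comm b m] at m3
    have k1 : 2 * B < P.X.d p₀ pb := by omega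
    have k2 : 2 * B < P.X.d p₀ pe := by omega
    have k3 : 2 * B < P.X.d pb pe := by omega
    have pα : ∃ i ≤ Lα, α i = Sum.inr c := by
      by_contra hcon
      push Not at hcon
      have := P.path_bgi hR.bgi hα hcon (by rw [α0]; exact hp₀) (by rw [α1]; exact hpb)
      omega
    have pζ : ∃ i ≤ Lζ, ζ i = Sum.inr c := by
      by_contra hcon
      push Not at hcon
      have := P.path_bgi hR.bgi hζ hcon (by rw [ζ0]; exact hp₀) (by rw [ζ1]; exact hpe)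
      omega
    have pβ : ∃ i ≤ Lβ, β i = Sum.inr c := by
      by_contra hcon
      push Not at hcon
      have := P.path_bgi hR.bgi hβ hcon (by rw [β0]; exact hpb) (by rw [β1]; exact hpe)
      omega
    obtain ⟨i₀, hi₀, hi₀c⟩ := pα
    obtain ⟨i₁, hi₁, hi₁c⟩ := pβ
    obtain ⟨i₂, hi₂, hi₂c⟩ := pζ
    have n0 : 1 ≤ i₀ := by
      rcases Nat.eq_zero_or_pos i₀ with h0 | h0
      · rw [h0, α0] at hi₀c; exact absurd hi₀c (inr_ne_inl _ _)
      · exact h0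
    have n1 : 1 ≤ i₁ := by
      rcases Nat.eq_zero_or_pos i₁ with h0 | h0
      · rw [h0, β0] at hi₁c; exact absurd hi₁c (inr_ne_inl _ _)
      · exact h0
    have n2 : 1 ≤ i₂ := by
      rcases Nat.eq_zero_or_pos i₂ with h0 | h0
      · rw [h0, ζ0] at hi₂c; exact absurd hi₂c (inr_ne_inl _ _)
      · exact h0
    obtain ⟨pa, ea1, ea2, ea3⟩ := entry hα n0 hi₀ hi₀c
    obtain ⟨pw, eb1, eb2, eb3⟩ := entry hβ n1 hi₁ hi₁c
    obtain ⟨pz, ez1, ez2, ez3⟩ := entry hζ n2 hi₂ hi₂c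
    rw [α0] at ea3
    rw [β0] at eb3
    rw [ζ0] at ez3
    obtain ⟨h, hh⟩ := cob pa
    rw [P.X.comm] at hh
    have l0 := hα 0 i₀ (by omega) hi₀
    have l0' := hα i₀ Lα hi₀ le_rfl
    have l1 := hβ 0 i₁ (by omega) hi₁
    have l2 := hζ 0 i₂ (by omega) hi₂
    rw [α0, hi₀c] at l0
    rw [α1, hi₀c, P.D.comm] at l0'
    rw [β0, hi₁c] at l1
    rw [ζ0, hi₂c] at l2
    refine ⟨h, ⟨i₀ - 1, by omega, by omega, Or.inl ⟨pa, ea1, by omega⟩⟩, ?_, ?_⟩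
    · obtain ⟨s, hs, hsd⟩ := hlip c pa pw ea3 eb3
      exact ⟨i₁, hi₁, by omega, Or.inr ⟨c, pw, pa, n1, hi₁c, eb1, eb2, ea2, ⟨s, hs, by omega⟩,
        by omega⟩⟩
    · have hdd := P.E_dia hR.bgi ea3 ez3
      exact ⟨i₂, hi₂, by omega, Or.inr ⟨c, pz, pa, n2, hi₂c, ez1, ez2, ea2,
        ⟨1, (P.G c).one_mem, by rw [one_smul]; omega⟩, by omega⟩⟩
  · -- Case B
    push Not at hA
    have hB' : ∀ c y, y ∈ P.Y c → P.X.d m y ≤ DRc → (∃ p ∈ P.E c (Sum.inl x₀), P.X.d m p ≤ T3) ∨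
        (∃ q ∈ P.E c (Sum.inl b), P.X.d m q ≤ T3) := by
      intro c y hy hmy
      by_cases hh : ∀ p ∈ P.E c (Sum.inl x₀), T3 < P.X.d m p
      · right; exact hA c y hy hmy hh
      · left
        push Not at hh
        exact hh
    obtain ⟨h, hh⟩ := cob m
    rw [P.X.comm] at hh
    have tri_h : ∀ y, P.X.d (h • x₀) y ≤ D₀ + P.X.d m y := by
      intro y
      have := P.X.tri (h • x₀) m y
      omega
    have hadd := hR.add x₀ b m m1
    have hLα := hα 0 Lα (by omega) le_rfl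
    rw [α0, α1] at hLα
    refine ⟨h, ?_, ?_, ?_⟩
    · obtain ⟨i, hi, hi2⟩ := rel hR hα α0 α1 m1
      rcases hi2 with ⟨y, hy, hmy⟩ | ⟨c, y, hc, hy, hmy⟩
      · have := tri_h y
        exact ⟨i, hi, by omega, Or.inl ⟨y, hy, by omega⟩⟩
      · have n0 : 1 ≤ i := by
          rcases Nat.eq_zero_or_pos i with h0 | h0
          · rw [h0, α0] at hc; exact absurd hc (inr_ne_inl _ _)
          · exact h0
        have n1 : i < Lα := by
          rcases Nat.lt_or_ge i Lα with h0 | h0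
          · exact h0
          · have : i = Lα := by omega
            rw [this, α1] at hc; exact absurd hc (inr_ne_inl _ _)
        rcases hB' c y hy hmy with ⟨p, hp, hmp⟩ | ⟨q, hq', hmq⟩
        · obtain ⟨pa, e1, e2, e3⟩ := entry hα n0 hi hc
          rw [α0] at e3
          have d1 := P.E_dia hR.bgi hp e3
          have d2 := P.X.tri m p pa
          have d3 := tri_h pa
          exact ⟨i - 1, by omega, by omega, Or.inl ⟨pa, e1, by omega⟩⟩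
        · obtain ⟨pa, e1, e2, e3⟩ := exit' hα n1 hc
          rw [α1] at e3
          have d1 := P.E_dia hR.bgi hq' e3
          have d2 := P.X.tri m q pa
          have d3 := tri_h pa
          exact ⟨i + 1, by omega, by omega, Or.inl ⟨pa, e1, by omega⟩⟩
    · obtain ⟨i, hi, hi2⟩ := rel hR hβ β0 β1 m3
      have hlev : i ≤ r + (ca + DRc + 1) := by
        have l1 := hβ 0 i (by omega) hi
        rw [β0] at l1
        have l2 := P.D.tri (Sum.inl b) (Sum.inl m) (β i)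
        rw [P.D.comm (Sum.inl b) (Sum.inl m)] at l2
        rcases hi2 with ⟨y, hy, hmy⟩ | ⟨c, y, hc, hy, hmy⟩
        · rw [hy] at l1 l2
          have := hR.DleX m y
          omega
        · rw [hc] at l1 l2
          have := hR.DleX m y
          have h3 := P.D.tri (Sum.inl m) (Sum.inl y) (Sum.inr c)
          rw [(P.adj y c).2 hy] at h3
          omega
      rcases hi2 with ⟨y, hy, hmy⟩ | ⟨c, y, hc, hy, hmy⟩
      · have := tri_h y
        exact ⟨i, hi, hlev, Or.inl ⟨y, hy, by omega⟩⟩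
      · have n0 : 1 ≤ i := by
          rcases Nat.eq_zero_or_pos i with h0 | h0
          · rw [h0, β0] at hc; exact absurd hc (inr_ne_inl _ _)
          · exact h0
        obtain ⟨pw, e1, e2, e3⟩ := entry hβ n0 hi hc
        rw [β0] at e3
        have d0 := tri_h y
        rcases hB' c y hy hmy with ⟨p, hp, hmp⟩ | ⟨q, hq', hmq⟩
        · obtain ⟨s, hs, hsd⟩ := hlip c p pw hp e3
          have d1 := P.X.tri y m (s • pw)
          have d2 := P.X.tri m p (s • pw)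
          rw [P.X.comm y m] at d1
          exact ⟨i, hi, hlev, Or.inr ⟨c, pw, y, n0, hc, e1, e2, hy, ⟨s, hs, by omega⟩, by omega⟩⟩
        · have d1 := P.E_dia hR.bgi hq' e3
          have d2 := P.X.tri y m pw
          have d3 := P.X.tri m q pw
          rw [P.X.comm y m] at d2
          exact ⟨i, hi, hlev, Or.inr ⟨c, pw, y, n0, hc, e1, e2, hy,
            ⟨1, (P.G c).one_mem, by rw [one_smul]; omega⟩, by omega⟩⟩
    · obtain ⟨i, hi, hi2⟩ := rel hR hζ ζ0 ζ1 m2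
      have hlev : i ≤ r + (ca + DRc + 1) := by
        have l1 := hζ 0 i (by omega) hi
        rw [ζ0] at l1
        have l2 := P.D.tri (Sum.inl x₀) (Sum.inl m) (ζ i)
        rcases hi2 with ⟨y, hy, hmy⟩ | ⟨c, y, hc, hy, hmy⟩
        · rw [hy] at l1 l2
          have := hR.DleX m y
          omega
        · rw [hc] at l1 l2
          have := hR.DleX m y
          have h3 := P.D.tri (Sum.inl m) (Sum.inl y) (Sum.inr c)
          rw [(P.adj y c).2 hy] at h3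
          omega
      rcases hi2 with ⟨y, hy, hmy⟩ | ⟨c, y, hc, hy, hmy⟩
      · have := tri_h y
        exact ⟨i, hi, hlev, Or.inl ⟨y, hy, by omega⟩⟩
      · have n0 : 1 ≤ i := by
          rcases Nat.eq_zero_or_pos i with h0 | h0
          · rw [h0, ζ0] at hc; exact absurd hc (inr_ne_inl _ _)
          · exact h0
        obtain ⟨pz, e1, e2, e3⟩ := entry hζ n0 hi hc
        rw [ζ0] at e3
        have d0 := tri_h y
        rcases hB' c y hy hmy with ⟨p, hp, hmp⟩ | ⟨q, hq', hmq⟩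
        · have d1 := P.E_dia hR.bgi hp e3
          have d2 := P.X.tri y m pz
          have d3 := P.X.tri m p pz
          rw [P.X.comm y m] at d2
          exact ⟨i, hi, hlev, Or.inr ⟨c, pz, y, n0, hc, e1, e2, hy,
            ⟨1, (P.G c).one_mem, by rw [one_smul]; omega⟩, by omega⟩⟩
        · obtain ⟨s, hs, hsd⟩ := hlip c pz q e3 hq'
          have hsd' : P.X.d q (s⁻¹ • pz) ≤ (r + 1) * (2 * B) := by
            rw [← P.Xinv s, smul_inv_smul, P.X.comm]; exact hsd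
          have d1 := P.X.tri y m (s⁻¹ • pz)
          have d2 := P.X.tri m q (s⁻¹ • pz)
          rw [P.X.comm y m] at d1
          exact ⟨i, hi, hlev, Or.inr ⟨c, pz, y, n0, hc, e1, e2, hy,
            ⟨s⁻¹, (P.G c).inv_mem hs, by omega⟩, by omega⟩⟩

end CD

end Pool.Agent.H33.RD
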