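import Pool.Agent.H33.RD.CenterQ

/-!
# Centres of triangles in the quotient group
-/

set_option autoImplicit false

namespace Pool.Agent.H33.RD

namespace CD

variable {H V C : Type} [Group H] [MulAction H V] [MulAction H C] {P : CD H V C}

variable {B δ Dk ca cq K : ℕ}

theorem center_quot (hR : P.RDH B δ Dk ca cq) (hK : 3 * (2 * B) ≤ K)
    (hred : ∀ a : V, ∀ ν ∈ P.N, P.Red K a ν) {x₀ : V} {D₀ : ℕ}
    (cob : ∀ x : V, ∃ h : H, P.X.d x (h • x₀) ≤ D₀) {r : ℕ} {a b e : H}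
    (hν : a * b * e⁻¹ ∈ P.N) {γa γb γe : ℕ → V ⊕ C} {La Lb Le : ℕ}
    (ha : IsGeod P.D γa La) (ha0 : γa 0 = Sum.inl x₀) (ha1 : γa La = Sum.inl (a • x₀))
    (haq : qd P.D P.N (Sum.inl x₀) (Sum.inl (a • x₀)) = La)
    (hb : IsGeod P.D γb Lb) (hb0 : γb 0 = Sum.inl x₀) (hb1 : γb Lb = Sum.inl (b • x₀))
    (hbq : qd P.D P.N (Sum.inl x₀) (Sum.inl (b • x₀)) = Lb)
    (he : IsGeod P.D γe Le) (he0 : γe 0 = Sum.inl x₀) (he1 : γe Le = Sum.inl (e • x₀))
    (heq : qd P.D P.N (Sum.inl x₀) (Sum.inl (e • x₀)) = Le)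
    (hr : qd P.X P.N x₀ (a • x₀) ≤ r) :
    ∃ h : H, (∃ κ ∈ P.N, P.TP x₀ r (ca + DR B δ Dk cq + 1) (D₀ + DR B δ Dk cq + D3 B δ Dk cq + B)
        (DR B δ Dk cq + D3 B δ Dk cq + 3 * B) γa La (κ * h)) ∧
      (∃ κ ∈ P.N, P.TP x₀ r (ca + DR B δ Dk cq + 1) (D₀ + DR B δ Dk cq + D3 B δ Dk cq + B)
        (DR B δ Dk cq + D3 B δ Dk cq + 3 * B) γb Lb (a⁻¹ * (κ * h))) ∧
      (∃ κ ∈ P.N, P.TP x₀ r (ca + DR B δ Dk cq + 1) (D₀ + DR B δ Dk cq + D3 B δ Dk cq + B)
        (DR B δ Dk cq + D3 B δ Dk cq + 3 * B) γe Le ((a * b * e⁻¹)⁻¹ * (κ * h))) := by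
  have hN : P.N.Normal := P.N_normal
  set ν := a * b * e⁻¹ with hνd
  have hνe : ν • e • x₀ = a • b • x₀ := by
    rw [hνd, smul_smul, smul_smul, inv_mul_cancel_right]
  set side : ℕ → ℕ → V ⊕ C := fun i t => if i = 0 then γa t else if i = 1 then a • γb t
    else ν • γe (Le - t) with hside
  set len : ℕ → ℕ := fun i => if i = 0 then La else if i = 1 then Lb else Le with hlen
  have s0 : ∀ t, side 0 t = γa t := fun t => by simp [hside]
  have s1 : ∀ t, side 1 t = a • γb t := fun t => by simp [hside]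
  have s2 : ∀ t, side 2 t = ν • γe (Le - t) := fun t => by simp [hside]
  have l0 : len 0 = La := by simp [hlen]
  have l1 : len 1 = Lb := by simp [hlen]
  have l2 : len 2 = Le := by simp [hlen]
  have hpoly : P.Poly 3 side len (Sum.inl x₀) (Sum.inl (ν • x₀)) := by
    constructor
    · rw [s0, ha0]
    · intro i hi
      have : i = 0 ∨ i = 1 := by omega
      rcases this with rfl | rfl
      · rw [l0, s0, ha1, s1, hb0, smul_inl]
      · rw [l1, s1, hb1, s2, Nat.sub_zero, he1, smul_inl, smul_inl, hνe]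
    · show side 2 (len 2) = _
      rw [l2, s2, Nat.sub_self, he0, smul_inl]
    · intro i hi t ht
      have : i = 0 ∨ i = 1 ∨ i = 2 := by omega
      rcases this with rfl | rfl | rfl
      · rw [l0] at ht
        rw [s0, s0, ha t (t + 1) (by omega) ht]; omega
      · rw [l1] at ht
        rw [s1, s1, P.Dinv, hb t (t + 1) (by omega) ht]; omega
      · rw [l2] at ht
        rw [s2, s2, P.Dinv, P.D.comm, he (Le - (t + 1)) (Le - t) (by omega) (by omega)]; omega
    · intro i hi t t' htt ht'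
      have : i = 0 ∨ i = 1 ∨ i = 2 := by omega
      rcases this with rfl | rfl | rfl
      · rw [l0] at ht'
        rw [s0, s0]
        exact qgeod ha (by rw [ha0, ha1]; exact haq) htt ht'
      · rw [l1] at ht'
        rw [s1, s1, qd_inv P.D P.N P.Dinv]
        exact qgeod hb (by rw [hb0, hb1]; exact hbq) htt ht'
      · rw [l2] at ht'
        rw [s2, s2, qd_inv P.D P.N P.Dinv, qd_comm P.D P.N P.Dinv,
          qgeod he (by rw [he0, he1]; exact heq) (t := Le - t') (t' := Le - t) (by omega)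
            (by omega)]
        omega
  obtain ⟨side', hP', hv', he'⟩ := P.lift_poly hR.bgi (by norm_num) hK (hred x₀ ν hν) len side hpoly
  -- the vertices
  obtain ⟨b', hb', hb'2⟩ : ∃ b', side' 0 La = Sum.inl b' ∧ ∃ κ ∈ P.N, b' = κ • a • x₀ := by
    obtain ⟨κ, hκ, h⟩ := hv' 0 (by norm_num) La (by rw [l0])
    rw [s0, ha1] at h
    exact ⟨κ • a • x₀, h, κ, hκ, rfl⟩
  obtain ⟨e', hee⟩ : ∃ e', side' 1 Lb = Sum.inl e' := by
    obtain ⟨κ, hκ, h⟩ := hv' 1 (by norm_num) Lb (by rw [l1])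
    rw [s1, hb1] at h
    exact ⟨κ • a • b • x₀, h⟩
  have hj0 := hP'.junction 0 (by norm_num)
  have hj1 := hP'.junction 1 (by norm_num)
  have hfin := hP'.finish
  have hst := hP'.start
  rw [l0, zero_add] at hj0
  rw [l1] at hj1
  simp only [show 3 - 1 = 2 from rfl] at hfin
  simp only [show 1 + 1 = 2 from rfl] at hj1
  rw [l2] at hfin
  have g0 := hP'.isGeod (i := 0) (by norm_num)
  have g1 := hP'.isGeod (i := 1) (by norm_num)
  have g2 := IsGeod_rev (hP'.isGeod (i := 2) (by norm_num))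
  rw [l0] at g0
  rw [l1] at g1
  rw [l2] at g2
  have hLa : La ≤ r := by
    rw [← haq]
    obtain ⟨κ, hκ, h⟩ := qd_spec P.X P.N x₀ (a • x₀)
    refine le_trans (qd_le P.D P.N hκ) (le_trans (hR.DleX x₀ (κ • a • x₀)) ?_)
    rw [h]; exact hr
  obtain ⟨h, h1, h2, h3⟩ := center_geom hR hK hred cob (b := b') (e := e') (r := r)
    (α := side' 0) (β := side' 1) (ζ := fun t => side' 2 (Le - t)) g0 g1 g2 hst hb'
    (by rw [← hj0]; exact hb') hee (by show side' 2 (Le - 0) = _; rw [Nat.sub_zero]; exact hfin)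
    (by show side' 2 (Le - Le) = _; rw [Nat.sub_self, ← hj1]; exact hee) hLa
    (by
      intro i j hij hj
      exact hP'.geod 0 (by norm_num) i j hij (by rw [l0]; exact hj))
    (by
      obtain ⟨κ, hκ, h⟩ := hb'2
      rw [h, qd_smul_right P.X P.N hκ]
      exact hr)
  refine ⟨h, ?_, ?_, ?_⟩
  · refine TP_transfer (γ := γa) ?_ ?_ h1
    · intro i hi
      obtain ⟨κ, hκ, h⟩ := hv' 0 (by norm_num) i (by rw [l0]; exact hi)
      rw [s0] at h
      exact ⟨κ, hκ, h⟩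
    · intro i hi
      obtain ⟨κ, hκ, h, h'⟩ := he' 0 (by norm_num) i (by rw [l0]; exact hi)
      rw [s0] at h h'
      exact ⟨κ, hκ, h, h'⟩
  · obtain ⟨κ, hκ, hT⟩ := TP_transfer (γ := fun i => a • γb i) (by
      intro i hi
      obtain ⟨κ, hκ, h⟩ := hv' 1 (by norm_num) i (by rw [l1]; exact hi)
      rw [s1] at h
      exact ⟨κ, hκ, h⟩) (by
      intro i hi
      obtain ⟨κ, hκ, h, h'⟩ := he' 1 (by norm_num) i (by rw [l1]; exact hi)
      rw [s1] at h h'
      exact ⟨κ, hκ, h, h'⟩) h2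
    exact ⟨κ, hκ, TP_smul a hT⟩
  · obtain ⟨κ, hκ, hT⟩ := TP_transfer (γ := fun i => ν • γe i) (by
      intro i hi
      obtain ⟨κ, hκ, h⟩ := hv' 2 (by norm_num) (Le - i) (by rw [l2]; omega)
      rw [s2, Nat.sub_sub_self hi] at h
      exact ⟨κ, hκ, h⟩) (by
      intro i hi
      obtain ⟨κ, hκ, h, h'⟩ := he' 2 (by norm_num) (Le - (i + 1)) (by rw [l2]; omega)
      rw [s2, Nat.sub_sub_self hi] at h
      have e1 : Le - (i + 1) + 1 = Le - i := by omega
      rw [e1, s2, Nat.sub_sub_self (by omega)] at h'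
      exact ⟨κ, hκ, h', h⟩) h3
    exact ⟨κ, hκ, TP_smul ν hT⟩

end CD

end Pool.Agent.H33.RD
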