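import Pool.Agent.H33.RD.ConeOff

/-!
# Geodesics of `V` are close to geodesics of the coned-off graph
-/

set_option autoImplicit false

namespace Pool.Agent.H33.RD

theorem exp_beats (c b : ℕ) (hb : 1 ≤ b) : ∃ s₀ : ℕ, ∀ s, s₀ ≤ s → c * (s + b) < 2 ^ s := by
  obtain ⟨s₀, h0⟩ := exists_exp_beats c b
  refine ⟨s₀, fun s hs => ?_⟩
  induction s, hs using Nat.le_induction with
  | base => exact h0
  | succ s _ ih =>
    have h1 : c ≤ c * (s + b) := Nat.le_mul_of_pos_right _ (by omega)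
    have h2 : c * (s + 1 + b) = c * (s + b) + c := by ring
    rw [h2, pow_succ]
    omega

theorem exists_close_const (δ R : ℕ) : ∃ Dh : ℕ, ∀ E : ℕ,
    (∀ j : ℕ, 6 * E + 2 ≤ 2 ^ j → E ≤ 2 * δ + j * δ + R + 2) → E ≤ Dh := by
  obtain ⟨s₀, hs⟩ := exp_beats (6 * δ + 6 * R + 14) 3 (by norm_num)
  refine ⟨(2 + (s₀ + 1)) * δ + R + 2, fun E hE => ?_⟩
  set j := Nat.clog 2 (6 * E + 2) with hj
  have h1 : 6 * E + 2 ≤ 2 ^ j := Nat.le_pow_clog (by norm_num) _
  have h2 := hE j h1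
  by_cases hjs : j ≤ s₀ + 1
  · have : j * δ ≤ (s₀ + 1) * δ := Nat.mul_le_mul_right _ hjs
    have e : (2 + (s₀ + 1)) * δ = 2 * δ + (s₀ + 1) * δ := by ring
    omega
  · exfalso
    push Not at hjs
    have h3 : 2 ^ (j - 1) < 6 * E + 2 := by
      have := Nat.pow_pred_clog_lt_self (b := 2) (by norm_num) (x := 6 * E + 2) (by omega)
      exact this
    have h4 := hs (j - 1) (by omega)
    obtain ⟨t, ht⟩ : ∃ t, j = t + 1 := ⟨j - 1, by omega⟩
    rw [ht, Nat.add_sub_cancel] at h3 h4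
    rw [ht] at h2
    have h5 : (6 * δ + 6 * R + 14) * (t + 3) =
        6 * (t * δ) + 18 * δ + 6 * (R * t) + 18 * R + 14 * t + 42 := by ring
    have h6 : (t + 1) * δ = t * δ + δ := by ring
    have h7 : 0 ≤ R * t := Nat.zero_le _
    rw [h5] at h4
    rw [h6] at h2
    omega

section

variable {V C : Type} (M : GM V) (Y : C → Set V) (hne : ∀ c, (Y c).Nonempty)
  {δ R : ℕ} (hyp : M.Hyp δ) (hQ : ∀ c, QC M (Y c) R)

theorem close_side {γ : ℕ → V ⊕ C} {L E : ℕ} {x y m : V}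
    (hP : ∀ m', M.d x m' + M.d m' y = M.d x y →
      ∃ i ≤ L, (coneD M Y hne).d (Sum.inl m') (γ i) ≤ E)
    (hE : ∀ i ≤ L, E ≤ (coneD M Y hne).d (Sum.inl m) (γ i))
    {e : V} {i₀ : ℕ} (hi₀ : i₀ ≤ L) (he : Rep Y (γ i₀) e)
    (hbt : ∀ m', M.d m m' + M.d m' e = M.d m e → M.d x m' + M.d m' y = M.d x y) :
    ∃ (m₁ : V) (i₁ : ℕ), i₁ ≤ L ∧ M.d m m₁ + M.d m₁ e = M.d m e ∧
      (coneD M Y hne).d (Sum.inl m) (Sum.inl m₁) ≤ 2 * E ∧
      (coneD M Y hne).d (Sum.inl m₁) (γ i₁) ≤ E + 1 ∧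
      ∀ v, (coneD M Y hne).d (Sum.inl m₁) v + (coneD M Y hne).d v (γ i₁) =
        (coneD M Y hne).d (Sum.inl m₁) (γ i₁) → E ≤ (coneD M Y hne).d (Sum.inl m) v + 1 := by
  rcases le_or_gt (2 * E) ((coneD M Y hne).d (Sum.inl m) (Sum.inl e)) with h | h
  · obtain ⟨m₁, h1, h2⟩ := M.exists_at (fun u => (coneD M Y hne).d (Sum.inl m) (Sum.inl u))
      (fun u v huv => by
        have h3 := (coneD M Y hne).tri (Sum.inl m) (Sum.inl u) (Sum.inl v)
        have h4 := coneD_le M Y hne u v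
        omega) m e (2 * E) (by rw [(coneD M Y hne).self]; omega) h
    obtain ⟨i₁, h3, h4⟩ := hP m₁ (hbt m₁ h1)
    refine ⟨m₁, i₁, h3, h1, h2.le, by omega, fun v hv => ?_⟩
    have h5 := (coneD M Y hne).tri (Sum.inl m) v (Sum.inl m₁)
    rw [(coneD M Y hne).comm v (Sum.inl m₁)] at h5
    omega
  · have h0 := Rep_dist M Y hne he
    refine ⟨e, i₀, hi₀, by rw [M.self]; omega, h.le, by omega, fun v hv => ?_⟩
    have h5 := (coneD M Y hne).tri (Sum.inl m) v (γ i₀)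
    have h6 := hE i₀ hi₀
    omega

include hyp hQ in
/-- **Geodesics of `V` stay close to the geodesics of the coned-off graph.** -/
theorem close_lemma {Dh : ℕ} (hDh : ∀ E : ℕ,
      (∀ j : ℕ, 6 * E + 2 ≤ 2 ^ j → E ≤ 2 * δ + j * δ + R + 2) → E ≤ Dh)
    {γ : ℕ → V ⊕ C} {L : ℕ} (hγ : IsGeod (coneD M Y hne) γ L) {x y : V}
    (hx : Rep Y (γ 0) x) (hy : Rep Y (γ L) y) {m : V} (hm : M.d x m + M.d m y = M.d x y) :
    ∃ i ≤ L, (coneD M Y hne).d (Sum.inl m) (γ i) ≤ Dh := by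
  classical
  set P : ℕ → Prop := fun E => ∃ m, M.d x m + M.d m y = M.d x y ∧
    ∀ i ≤ L, E ≤ (coneD M Y hne).d (Sum.inl m) (γ i) with hPdef
  have hP0 : P 0 := ⟨m, hm, fun i _ => Nat.zero_le _⟩
  have hPb : ∀ E, P E → E ≤ M.d x y + 1 := by
    rintro E ⟨m', h1, h2⟩
    have h3 := h2 0 (Nat.zero_le _)
    have h4 := (coneD M Y hne).tri (Sum.inl m') (Sum.inl x) (γ 0)
    have h5 := Rep_dist M Y hne hx
    have h6 := coneD_le M Y hne m' x
    rw [M.comm m' x] at h6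
    omega
  set E := Nat.findGreatest P (M.d x y + 1) with hEdef
  have hPE : P E := Nat.findGreatest_spec (Nat.zero_le _) hP0
  have hPE1 : ¬ P (E + 1) := by
    intro h
    have := Nat.le_findGreatest (hPb _ h) h
    omega
  have hall : ∀ m', M.d x m' + M.d m' y = M.d x y →
      ∃ i ≤ L, (coneD M Y hne).d (Sum.inl m') (γ i) ≤ E := by
    intro m' hm'
    by_contra hcon
    push Not at hcon
    exact hPE1 ⟨m', hm', fun i hi => hcon i hi⟩
  have hEDh : E ≤ Dh := by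
    apply hDh
    intro j hj
    obtain ⟨m', hm', hmE⟩ := hPE
    obtain ⟨m₁, i₁, a1, a2, a3, a4, a5⟩ := close_side M Y hne hall hmE (e := x) (Nat.zero_le L) hx
      (fun m'' h => by
        have t1 := M.tri x m'' y
        have t2 := M.tri m'' m' y
        rw [M.comm m' m'', M.comm m'' x, M.comm m' x] at h
        omega)
    obtain ⟨m₂, i₂, b1, b2, b3, b4, b5⟩ := close_side M Y hne hall hmE (e := y) le_rfl hy
      (fun m'' h => by
        have t1 := M.tri x m'' y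
        have t2 := M.tri x m' m''
        omega)
    obtain ⟨w₁, hw₁⟩ := Rep_exists Y hne (γ i₁)
    obtain ⟨w₂, hw₂⟩ := Rep_exists Y hne (γ i₂)
    have hmid : M.d m₁ m' + M.d m' m₂ ≤ M.d m₁ m₂ + 0 := by
      have t1 := M.tri x m₁ y
      have t2 := M.tri m₁ m₂ y
      rw [M.comm m' m₁, M.comm m₁ x, M.comm m' x] at a2
      omega
    have hE1 : (coneD M Y hne).d (Sum.inl m₁) (γ i₁) ≤ 2 ^ j := by omega
    have hE2 : (coneD M Y hne).d (Sum.inl m₂) (γ i₂) ≤ 2 ^ j := by omega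
    rcases hyp_split hyp hmid w₁ with c1 | c1
    · obtain ⟨v, v1, v2⟩ := log_geod M Y hne hyp hQ j hE1 (x := m₁) (y := w₁) rfl hw₁ c1
      have := a5 v v1
      omega
    · rcases hyp_split hyp c1 w₂ with c2 | c2
      · have hdist : (coneD M Y hne).d (γ i₁) (γ i₂) ≤ 6 * E + 2 := by
          have t1 := (coneD M Y hne).tri (γ i₁) (Sum.inl m₁) (γ i₂)
          have t2 := (coneD M Y hne).tri (Sum.inl m₁) (Sum.inl m') (γ i₂)
          have t3 := (coneD M Y hne).tri (Sum.inl m') (Sum.inl m₂) (γ i₂)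
          rw [(coneD M Y hne).comm (γ i₁) (Sum.inl m₁)] at t1
          rw [(coneD M Y hne).comm (Sum.inl m₁) (Sum.inl m')] at t2
          omega
        rcases le_total i₁ i₂ with hle | hle
        · have hl : i₂ - i₁ ≤ 2 ^ j := by
            rw [hγ i₁ i₂ hle b1] at hdist; omega
          obtain ⟨i, d1, d2, d3⟩ := log_lemma M Y hne hyp hQ j γ i₁ (i₂ - i₁) hl
            (fun i h1 h2 => by rw [hγ i (i + 1) (by omega) (by omega)]; omega) w₁ w₂ hw₁
            (by rw [Nat.add_sub_cancel' hle]; exact hw₂) m' _ c2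
          have := hmE i (by omega)
          omega
        · have hl : i₁ - i₂ ≤ 2 ^ j := by
            rw [(coneD M Y hne).comm, hγ i₂ i₁ hle a1] at hdist; omega
          rw [M.comm w₁ m', M.comm m' w₂, M.comm w₁ w₂, add_comm (M.d m' w₁)] at c2
          obtain ⟨i, d1, d2, d3⟩ := log_lemma M Y hne hyp hQ j γ i₂ (i₁ - i₂) hl
            (fun i h1 h2 => by rw [hγ i (i + 1) (by omega) (by omega)]; omega) w₂ w₁ hw₂
            (by rw [Nat.add_sub_cancel' hle]; exact hw₁) m' _ c2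
          have := hmE i (by omega)
          omega
      · rw [M.comm w₂ m', M.comm m' m₂, M.comm w₂ m₂, add_comm (M.d m' w₂)] at c2
        obtain ⟨v, v1, v2⟩ := log_geod M Y hne hyp hQ j hE2 (x := m₂) (y := w₂) rfl hw₂ c2
        have := b5 v v1
        omega
  obtain ⟨i, h1, h2⟩ := hall m hm
  exact ⟨i, h1, h2.trans hEDh⟩

include hyp hQ in
/-- version for points almost between `x` and `y` -/
theorem close_lemma' {Dh : ℕ} (hDh : ∀ E : ℕ,
      (∀ j : ℕ, 6 * E + 2 ≤ 2 ^ j → E ≤ 2 * δ + j * δ + R + 2) → E ≤ Dh)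
    {γ : ℕ → V ⊕ C} {L : ℕ} (hγ : IsGeod (coneD M Y hne) γ L) {x y : V}
    (hx : Rep Y (γ 0) x) (hy : Rep Y (γ L) y) {m : V} {κ : ℕ}
    (hm : M.d x m + M.d m y ≤ M.d x y + κ) :
    ∃ i ≤ L, (coneD M Y hne).d (Sum.inl m) (γ i) ≤ Dh + κ + δ := by
  obtain ⟨m', h1, h2⟩ := hyp_between hyp hm
  obtain ⟨i, h3, h4⟩ := close_lemma M Y hne hyp hQ hDh hγ hx hy h1
  refine ⟨i, h3, ?_⟩
  have t1 := (coneD M Y hne).tri (Sum.inl m) (Sum.inl m') (γ i)
  have t2 := coneD_le M Y hne m m'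
  omega

include hyp hQ in
/-- additivity of the coned-off distance along geodesics of `V` -/
theorem coneD_add {Dh : ℕ} (hDh : ∀ E : ℕ,
      (∀ j : ℕ, 6 * E + 2 ≤ 2 ^ j → E ≤ 2 * δ + j * δ + R + 2) → E ≤ Dh)
    {z z' : V ⊕ C} {x y : V} (hx : Rep Y z x) (hy : Rep Y z' y) {m : V} {κ : ℕ}
    (hm : M.d x m + M.d m y ≤ M.d x y + κ) :
    (coneD M Y hne).d z (Sum.inl m) + (coneD M Y hne).d (Sum.inl m) z' ≤
      (coneD M Y hne).d z z' + 2 * (Dh + κ + δ) := by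
  obtain ⟨γ, g0, gn, hγ⟩ := (coneD M Y hne).exists_geod z z'
  obtain ⟨i, h1, h2⟩ := close_lemma' M Y hne hyp hQ hDh hγ (by rw [g0]; exact hx)
    (by rw [gn]; exact hy) hm
  have a1 := hγ 0 i (by omega) h1
  have a2 := hγ i _ h1 le_rfl
  rw [g0] at a1
  rw [gn] at a2
  have t1 := (coneD M Y hne).tri z (γ i) (Sum.inl m)
  have t2 := (coneD M Y hne).tri (Sum.inl m) (γ i) z'
  rw [(coneD M Y hne).comm (γ i) (Sum.inl m)] at t1
  omega

include hyp hQ in
/-- **The coned-off graph is hyperbolic.** -/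
theorem coneD_hyp {Dh : ℕ} (hDh : ∀ E : ℕ,
      (∀ j : ℕ, 6 * E + 2 ≤ 2 ^ j → E ≤ 2 * δ + j * δ + R + 2) → E ≤ Dh) :
    (coneD M Y hne).Hyp (4 * (Dh + (3 * δ + 1) + δ)) := by
  intro a b c d
  obtain ⟨x, hx⟩ := Rep_exists Y hne a
  obtain ⟨y, hy⟩ := Rep_exists Y hne b
  obtain ⟨z, hz⟩ := Rep_exists Y hne c
  obtain ⟨w, hw⟩ := Rep_exists Y hne d
  -- crossing pairs
  have cross : ∀ {a b c d : V ⊕ C} {x y z w : V}, Rep Y a x → Rep Y b y → Rep Y c z → Rep Y d w →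
      M.d x y + M.d z w ≤ M.d x z + M.d y w + δ → M.d x w + M.d y z ≤ M.d x z + M.d y w + δ →
      (coneD M Y hne).d a b + (coneD M Y hne).d c d ≤
        (coneD M Y hne).d a c + (coneD M Y hne).d b d + 4 * (Dh + (3 * δ + 1) + δ) := by
    intro a b c d x y z w hx hy hz hw h1 h2
    obtain ⟨m, m1, m2⟩ := hyp_cross hyp h1 h2
    have e1 := coneD_add M Y hne hyp hQ hDh hx hz (m := m) (κ := 3 * δ + 1) (by omega)
    have e2 := coneD_add M Y hne hyp hQ hDh hy hw (m := m) (κ := 3 * δ + 1) (by omega)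
    have t1 := (coneD M Y hne).tri a (Sum.inl m) b
    have t2 := (coneD M Y hne).tri c (Sum.inl m) d
    rw [(coneD M Y hne).comm (Sum.inl m) b] at t1
    rw [(coneD M Y hne).comm c (Sum.inl m)] at t2
    omega
  have h0 := hyp x y z w
  have h1 := hyp x z y w
  have h2 := hyp x w z y
  rw [M.comm z y] at h1
  rw [M.comm w y, M.comm w z] at h2
  by_cases hc : M.d x y + M.d z w ≤ M.d x z + M.d y w + δ ∧
      M.d x w + M.d y z ≤ M.d x z + M.d y w + δ
  · left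
    exact cross hx hy hz hw hc.1 hc.2
  · right
    have hc2 : M.d x y + M.d w z ≤ M.d x w + M.d y z + δ ∧
        M.d x z + M.d y w ≤ M.d x w + M.d y z + δ := by
      rw [M.comm w z]
      rw [M.comm z y] at h2
      omega
    have := cross hx hy hw hz hc2.1 hc2.2
    rw [(coneD M Y hne).comm c d]
    exact this

end

end Pool.Agent.H33.RD
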