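import Pool.Agent.H33.RD.Defs

/-!
# Cone data: a metric space with a family of subsets, its coned-off graph and rotation groups
-/

set_option autoImplicit false

namespace Pool.Agent.H33.RD

/-- A group `H` acting on a graph metric `X` on `V` with an equivariant family `Y c` (`c : C`) of
subsets, together with a graph metric `D` on `V ⊕ C` in which the cone point `c` is adjacent
exactly to the points of `Y c`, and with equivariant rotation groups `G c` fixing `c`. -/
structure CD (H V C : Type) [Group H] [MulAction H V] [MulAction H C] where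
  X : GM V
  D : GM (V ⊕ C)
  Y : C → Set V
  G : C → Subgroup H
  adj : ∀ (p : V) (c : C), D.d (Sum.inl p) (Sum.inr c) = 1 ↔ p ∈ Y c
  nadj : ∀ c c' : C, D.d (Sum.inr c) (Sum.inr c') ≠ 1
  Xinv : ∀ (h : H) (x y : V), X.d (h • x) (h • y) = X.d x y
  Dinv : ∀ (h : H) (x y : V ⊕ C), D.d (h • x) (h • y) = D.d x y
  Yinv : ∀ (h : H) (p : V) (c : C), p ∈ Y c → h • p ∈ Y (h • c)
  Gfix : ∀ (c : C), ∀ s ∈ G c, s • c = c
  Gconj : ∀ (h : H) (c : C), ∀ s ∈ G c, h * s * h⁻¹ ∈ G (h • c)

namespace CD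

variable {H V C : Type} [Group H] [MulAction H V] [MulAction H C] (P : CD H V C)

/-- The entry points in `Y c` of geodesics (of `D`) from `z` to the cone point `c`. -/
def E (c : C) (z : V ⊕ C) : Set V :=
  {p | p ∈ P.Y c ∧ P.D.d z (Sum.inl p) + 1 = P.D.d z (Sum.inr c)}

/-- Bounded geodesic image. -/
def BGI (B : ℕ) : Prop :=
  ∀ (c : C) (z z' : V ⊕ C), z ≠ Sum.inr c → z' ≠ Sum.inr c →
    P.D.d z z' < P.D.d z (Sum.inr c) + P.D.d (Sum.inr c) z' →
    ∀ p ∈ P.E c z, ∀ q ∈ P.E c z', P.X.d p q ≤ B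

/-- Nontrivial rotations move the points of `Y c` by at least `Θ`. -/
def Rot (Θ : ℕ) : Prop :=
  ∀ (c : C), ∀ s ∈ P.G c, s ≠ 1 → ∀ p ∈ P.Y c, Θ ≤ P.X.d p (s • p)

/-- If rotating `z` about `c` does not bring it nearer to `a` (for the auxiliary distance `dst`)
then the angle at `c` between `a` and `z` is almost minimal among its rotates. -/
def Shorten (dst : V → V ⊕ C → ℕ) (c₃ : ℕ) : Prop :=
  ∀ (a : V) (z : V ⊕ C) (c : C), z ≠ Sum.inr c → ∀ s ∈ P.G c, dst a z ≤ dst a (s⁻¹ • z) →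
    ∀ p ∈ P.E c (Sum.inl a), ∀ q ∈ P.E c z, P.X.d p q ≤ P.X.d (s • p) q + c₃

/-- The group generated by all rotations. -/
def N : Subgroup H := Subgroup.closure {s | ∃ c, s ∈ P.G c}

/-- `ν` can be unwound by rotations with large angle, as seen from `a`. -/
inductive Red (K : ℕ) (a : V) : H → Prop
  | one : Red K a 1
  | step (ν : H) (c : C) (s : H) (hs : s ∈ P.G c)
      (hbig : ∀ p ∈ P.E c (Sum.inl a), ∀ q ∈ P.E c (Sum.inl (ν • a)), K < P.X.d p q)
      (h : Red K a (s * ν)) : Red K a ν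

end CD

end Pool.Agent.H33.RD
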