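import Pool.Agent.H33.RD.Path

/-!
# The coned-off graph
-/

set_option autoImplicit false

namespace Pool.Agent.H33.RD

section

variable {V C : Type} (M : GM V) (Y : C → Set V)

/-- adjacency in the coned-off graph -/
def CAdj : V ⊕ C → V ⊕ C → Prop
  | Sum.inl x, Sum.inl y => M.d x y = 1
  | Sum.inl x, Sum.inr c => x ∈ Y c
  | Sum.inr c, Sum.inl x => x ∈ Y c
  | Sum.inr _, Sum.inr _ => False

theorem CAdj_symm (x y : V ⊕ C) (h : CAdj M Y x y) : CAdj M Y y x := by
  rcases x with x | c <;> rcases y with y | c'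
  · exact (M.comm y x).trans h
  · exact h
  · exact h
  · exact h

theorem CAdj_irrefl (x : V ⊕ C) : ¬ CAdj M Y x x := by
  rcases x with x | c
  · intro h
    have : M.d x x = 1 := h
    rw [M.self] at this; omega
  · exact fun h => h

theorem rch_inl (x y : V) : Rch (CAdj M Y) (M.d x y) (Sum.inl x) (Sum.inl y) :=
  (M.rch x y).map Sum.inl (fun _ _ h => h)

variable (hne : ∀ c, (Y c).Nonempty)

include hne in
theorem CAdj_conn (x y : V ⊕ C) : ∃ n, Rch (CAdj M Y) n x y := by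
  have h1 : ∀ z : V ⊕ C, ∃ (p : V) (n : ℕ), Rch (CAdj M Y) n z (Sum.inl p) := by
    rintro (x | c)
    · exact ⟨x, 0, Rch.refl _⟩
    · obtain ⟨p, hp⟩ := hne c
      exact ⟨p, 1, Rch.single (show CAdj M Y (Sum.inr c) (Sum.inl p) from hp)⟩
  obtain ⟨p, n, hp⟩ := h1 x
  obtain ⟨q, m, hq⟩ := h1 y
  exact ⟨_, (hp.trans (rch_inl M Y p q)).trans (hq.symm (CAdj_symm M Y))⟩

/-- The graph metric of the coned-off graph. -/
noncomputable def coneD : GM (V ⊕ C) := GM.ofAdj (CAdj M Y) (CAdj_symm M Y) (CAdj_conn M Y hne)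

theorem coneD_adj {p : V} {c : C} :
    (coneD M Y hne).d (Sum.inl p) (Sum.inr c) = 1 ↔ p ∈ Y c :=
  GM.ofAdj_one (CAdj_irrefl M Y)

theorem coneD_adj' {p q : V} :
    (coneD M Y hne).d (Sum.inl p) (Sum.inl q) = 1 ↔ M.d p q = 1 :=
  GM.ofAdj_one (CAdj_irrefl M Y)

theorem coneD_nadj (c c' : C) : (coneD M Y hne).d (Sum.inr c) (Sum.inr c') ≠ 1 := by
  intro h
  exact (GM.ofAdj_one (CAdj_irrefl M Y)).1 h

theorem coneD_le (x y : V) : (coneD M Y hne).d (Sum.inl x) (Sum.inl y) ≤ M.d x y :=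
  GM.ofAdj_le (rch_inl M Y x y)

theorem coneD_le_cone {x z : V} {c : C} (hz : z ∈ Y c) :
    (coneD M Y hne).d (Sum.inl x) (Sum.inr c) ≤ M.d x z + 1 := by
  have h1 := coneD_le M Y hne x z
  have h2 := (coneD M Y hne).tri (Sum.inl x) (Sum.inl z) (Sum.inr c)
  rw [(coneD_adj M Y hne).2 hz] at h2
  omega

/-- representatives in `V` of a vertex of the coned-off graph -/
def Rep : V ⊕ C → V → Prop
  | Sum.inl y, x => x = y
  | Sum.inr c, x => x ∈ Y c

include hne in
theorem Rep_exists (z : V ⊕ C) : ∃ x, Rep Y z x := by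
  rcases z with y | c
  · exact ⟨y, rfl⟩
  · exact hne c

theorem Rep_dist {z : V ⊕ C} {x : V} (h : Rep Y z x) : (coneD M Y hne).d (Sum.inl x) z ≤ 1 := by
  rcases z with y | c
  · have : x = y := h
    rw [this, (coneD M Y hne).self]; omega
  · rw [(coneD_adj M Y hne).2 h]

/-- adjacent or equal vertices -/
theorem coneD_le_one {z z' : V ⊕ C} {x y : V} (h : (coneD M Y hne).d z z' ≤ 1)
    (hx : Rep Y z x) (hy : Rep Y z' y) :
    (∃ c, x ∈ Y c ∧ y ∈ Y c ∧ (z = Sum.inr c ∨ z' = Sum.inr c)) ∨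
      (z = Sum.inl x ∧ z' = Sum.inl y ∧ M.d x y ≤ 1) := by
  have h01 : (coneD M Y hne).d z z' = 0 ∨ (coneD M Y hne).d z z' = 1 := by omega
  rcases h01 with h0 | h1
  · have := (coneD M Y hne).eq0 _ _ h0
    subst this
    rcases z with z | c
    · have e1 : x = z := hx
      have e2 : y = z := hy
      right
      rw [e1, e2, M.self]
      exact ⟨rfl, rfl, by omega⟩
    · left
      exact ⟨c, hx, hy, Or.inl rfl⟩
  · rcases z with z | c <;> rcases z' with z' | c'
    · have e1 : x = z := hx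
      have e2 : y = z' := hy
      right
      rw [e1, e2]
      exact ⟨rfl, rfl, ((coneD_adj' M Y hne).1 h1).le⟩
    · have e1 : x = z := hx
      left
      refine ⟨c', ?_, hy, Or.inr rfl⟩
      rw [e1]; exact (coneD_adj M Y hne).1 h1
    · have e2 : y = z' := hy
      left
      refine ⟨c, hx, ?_, Or.inl rfl⟩
      rw [(coneD M Y hne).comm] at h1
      rw [e2]; exact (coneD_adj M Y hne).1 h1
    · exact absurd h1 (coneD_nadj M Y hne c c')

variable {δ R : ℕ} (hyp : M.Hyp δ) (hQ : ∀ c, QC M (Y c) R)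

include hQ in
/-- base case of the logarithmic lemma -/
theorem log_base {z z' : V ⊕ C} {x y m : V} {κ : ℕ} (h : (coneD M Y hne).d z z' ≤ 1)
    (hx : Rep Y z x) (hy : Rep Y z' y) (hm : M.d x m + M.d m y ≤ M.d x y + κ) :
    (coneD M Y hne).d (Sum.inl m) z ≤ κ + R + 1 ∨ (coneD M Y hne).d (Sum.inl m) z' ≤ κ + R + 1 := by
  rcases coneD_le_one M Y hne h hx hy with ⟨c, h1, h2, h3⟩ | ⟨h1, h2, h3⟩
  · obtain ⟨p, hp⟩ := exists_near M ⟨x, h1⟩ m
    have h4 := near_of_between M (hQ c) h1 h2 hp hm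
    have h5 := coneD_le_cone M Y hne (x := m) hp.1
    rcases h3 with rfl | rfl
    · left; omega
    · right; omega
  · left
    rw [h1]
    have := coneD_le M Y hne m x
    rw [M.comm m x] at this
    omega

include hyp hQ in
/-- The logarithmic lemma. -/
theorem log_lemma (j : ℕ) : ∀ (z : ℕ → V ⊕ C) (s L : ℕ), L ≤ 2 ^ j →
    (∀ i, s ≤ i → i < s + L → (coneD M Y hne).d (z i) (z (i + 1)) ≤ 1) →
    ∀ x y : V, Rep Y (z s) x → Rep Y (z (s + L)) y → ∀ (m : V) (κ : ℕ),
      M.d x m + M.d m y ≤ M.d x y + κ →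
      ∃ i, s ≤ i ∧ i ≤ s + L ∧ (coneD M Y hne).d (Sum.inl m) (z i) ≤ κ + j * δ + R + 1 := by
  induction j with
  | zero =>
    intro z s L hL hz x y hx hy m κ hm
    have hL' : L = 0 ∨ L = 1 := by simp at hL; omega
    have h1 : (coneD M Y hne).d (z s) (z (s + L)) ≤ 1 := by
      rcases hL' with rfl | rfl
      · rw [add_zero, (coneD M Y hne).self]; omega
      · exact hz s le_rfl (by omega)
    rcases log_base M Y hne hQ h1 hx hy hm with h2 | h2
    · exact ⟨s, le_rfl, by omega, by omega⟩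
    · exact ⟨s + L, by omega, le_rfl, by omega⟩
  | succ j ih =>
    intro z s L hL hz x y hx hy m κ hm
    have e : (j + 1) * δ = j * δ + δ := by ring
    rw [e]
    rcases le_or_gt L (2 ^ j) with hs | hs
    · obtain ⟨i, h1, h2, h3⟩ := ih z s L hs hz x y hx hy m κ hm
      exact ⟨i, h1, h2, by omega⟩
    · obtain ⟨w, hw⟩ := Rep_exists Y hne (z (s + 2 ^ j))
      rcases hyp_split hyp hm w with h4 | h4
      · obtain ⟨i, h1, h2, h3⟩ := ih z s (2 ^ j) le_rfl (fun i h5 h6 => hz i h5 (by omega))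
          x w hx hw m (κ + δ) h4
        exact ⟨i, h1, by omega, by omega⟩
      · have hL2 : L - 2 ^ j ≤ 2 ^ j := by rw [pow_succ] at hL; omega
        have e2 : s + 2 ^ j + (L - 2 ^ j) = s + L := by omega
        obtain ⟨i, h1, h2, h3⟩ := ih z (s + 2 ^ j) (L - 2 ^ j) hL2
          (fun i h5 h6 => hz i (by omega) (by omega)) w y hw (by rw [e2]; exact hy) m (κ + δ) h4
        exact ⟨i, by omega, by omega, by omega⟩

include hyp hQ in
/-- logarithmic lemma for the geodesic between two vertices -/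
theorem log_geod (j : ℕ) {z z' : V ⊕ C} (hL : (coneD M Y hne).d z z' ≤ 2 ^ j) {x y : V}
    (hx : Rep Y z x) (hy : Rep Y z' y) {m : V} {κ : ℕ} (hm : M.d x m + M.d m y ≤ M.d x y + κ) :
    ∃ v, (coneD M Y hne).d z v + (coneD M Y hne).d v z' = (coneD M Y hne).d z z' ∧
      (coneD M Y hne).d (Sum.inl m) v ≤ κ + j * δ + R + 1 := by
  obtain ⟨γ, g0, gn, hγ⟩ := (coneD M Y hne).exists_geod z z'
  obtain ⟨i, _, h2, h3⟩ := log_lemma M Y hne hyp hQ j γ 0 _ hL (fun i _ h2 => by
    rw [hγ i (i + 1) (by omega) (by omega)]; omega) x y (by rw [g0]; exact hx)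
    (by rw [zero_add, gn]; exact hy) m κ hm
  refine ⟨γ i, ?_, h3⟩
  have a1 := hγ 0 i (by omega) (by omega)
  have a2 := hγ i ((coneD M Y hne).d z z') (by omega) le_rfl
  rw [g0] at a1
  rw [gn] at a2
  omega

end

end Pool.Agent.H33.RD
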