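import Pool.Agent.H33.RD.QLine

/-!
# The elementary subgroup of a loxodromic element and bounded overlap of its translates
-/

set_option autoImplicit false

namespace Pool.Agent.H33.RD

section

variable {H : Type} [Group H]

/-- `{h | h f^k h⁻¹ = f^{±k}}`. -/
def Elem (f : H) (k : ℕ) : Subgroup H where
  carrier := {h | h * f ^ k * h⁻¹ = f ^ k ∨ h * f ^ k * h⁻¹ = (f ^ k)⁻¹}
  one_mem' := by left; group
  mul_mem' := by
    rintro a b ha hb
    have e : a * b * f ^ k * (a * b)⁻¹ = a * (b * f ^ k * b⁻¹) * a⁻¹ := by group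
    have e2 : a * (f ^ k)⁻¹ * a⁻¹ = (a * f ^ k * a⁻¹)⁻¹ := by group
    show a * b * f ^ k * (a * b)⁻¹ = f ^ k ∨ a * b * f ^ k * (a * b)⁻¹ = (f ^ k)⁻¹
    rw [e]
    rcases hb with hb | hb <;> rw [hb]
    · exact ha
    · rw [e2]
      rcases ha with ha | ha <;> rw [ha]
      · right; rfl
      · left; group
  inv_mem' := by
    rintro a ha
    show a⁻¹ * f ^ k * a⁻¹⁻¹ = f ^ k ∨ a⁻¹ * f ^ k * a⁻¹⁻¹ = (f ^ k)⁻¹
    rcases ha with ha | ha
    · left
      have h2 : a⁻¹ * (a * f ^ k * a⁻¹) * a = a⁻¹ * f ^ k * a := by rw [ha]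
      rw [inv_inv, ← h2]; group
    · right
      have h2 : a⁻¹ * (a * f ^ k * a⁻¹)⁻¹ * a = a⁻¹ * ((f ^ k)⁻¹)⁻¹ * a := by rw [ha]
      rw [inv_inv]
      have h3 : a⁻¹ * (a * f ^ k * a⁻¹)⁻¹ * a = (f ^ k)⁻¹ := by group
      rw [← h3, h2, inv_inv]

theorem mem_Elem {f : H} {k : ℕ} {h : H} :
    h ∈ Elem f k ↔ h * f ^ k * h⁻¹ = f ^ k ∨ h * f ^ k * h⁻¹ = (f ^ k)⁻¹ := Iff.rfl

theorem self_mem_Elem (f : H) (k : ℕ) : f ∈ Elem f k := by
  left
  rw [← pow_succ', pow_succ, mul_assoc, mul_inv_cancel, mul_one]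

theorem zpow_mem_Elem (f : H) (k : ℕ) (i : ℤ) : f ^ i ∈ Elem f k :=
  (Elem f k).zpow_mem (self_mem_Elem f k) i

/-- elements of `Elem f k` normalise the cyclic group of `f ^ n`, `k ∣ n` -/
theorem Elem_conj {f : H} {k n : ℕ} (hkn : k ∣ n) {h : H} (hh : h ∈ Elem f k) :
    ∃ σ : ℤ, (σ = 1 ∨ σ = -1) ∧ ∀ j : ℤ, h * f ^ ((n : ℤ) * j) * h⁻¹ = f ^ ((n : ℤ) * (σ * j)) := by
  obtain ⟨t, rfl⟩ := hkn
  have conj_zpow : ∀ (x : H) (j : ℤ), h * x ^ j * h⁻¹ = (h * x * h⁻¹) ^ j := by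
    intro x j
    rw [conj_zpow]
  have key : ∀ j : ℤ, f ^ (((k * t : ℕ) : ℤ) * j) = (f ^ k) ^ ((t : ℤ) * j) := by
    intro j
    rw [← zpow_natCast f k, ← zpow_mul]
    congr 1
    push_cast; ring
  rcases hh with hh | hh
  · refine ⟨1, Or.inl rfl, fun j => ?_⟩
    rw [key, conj_zpow, hh, key]
    simp
  · refine ⟨-1, Or.inr rfl, fun j => ?_⟩
    rw [key, conj_zpow, hh, key, inv_zpow, ← zpow_neg]
    congr 1; ring

end

section

variable {H V : Type} [Group H] [MulAction H V] (M : GM V) {δ : ℕ} (hyp : M.Hyp δ)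
  (inv : ∀ (h : H) (x y : V), M.d (h • x) (h • y) = M.d x y) (f : H) (x₀ : V)
  (hf : M.d x₀ (f • x₀) + 2 * δ + 1 ≤ M.d x₀ (f ^ 2 • x₀))

/-- the quasi-convexity constant of the line -/
def Rline (δ : ℕ) : ℕ := disp M f x₀ (disp M f x₀ 1 + δ + 1) + δ

include hyp inv hf in
/-- Elements of the elementary subgroup move `x₀` to a point uniformly close to the line. -/
theorem Elem_close {k : ℕ} (hk : 0 < k) {h : H} (hh : h ∈ Elem f k) :
    ∃ i : ℤ, M.d (h • x₀) (f ^ i • x₀) ≤ disp M f x₀ 1 + 2 * δ + 2 * Rline M f x₀ δ := by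
  obtain ⟨σ, hσ, hconj⟩ := Elem_conj (dvd_refl k) hh
  set B := M.d x₀ (h • x₀) with hB
  set R₁ := disp M f x₀ 1 with hR₁
  set T : ℕ := B + R₁ + 2 * δ + 1 with hT
  set a := disp M f x₀ (k * T) with ha
  have haB : B + R₁ + 2 * δ < a := by
    have h1 := disp_lin M hyp inv f x₀ hf (k * T)
    have h2 : T ≤ k * T := Nat.le_mul_of_pos_left _ hk
    omega
  -- the far points
  have hcomm : ∀ j : ℤ, h • (f ^ ((k : ℤ) * j) • x₀) = f ^ ((k : ℤ) * (σ * j)) • (h • x₀) := by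
    intro j
    rw [← hconj j, smul_smul, smul_smul]
    congr 1; group
  have hAP : ∀ j : ℤ, M.d (h • (f ^ ((k : ℤ) * j) • x₀)) (f ^ ((k : ℤ) * (σ * j)) • x₀) = B := by
    intro j
    rw [hcomm, inv, M.comm]
  have hwA : ∀ j : ℤ, j = T ∨ j = -T → M.d (h • x₀) (h • (f ^ ((k : ℤ) * j) • x₀)) = a := by
    intro j hj
    rw [inv]
    have := d_line M inv f x₀ 0 ((k : ℤ) * j)
    rw [zpow_zero, one_smul] at this
    rw [this, ha]
    congr 1
    rw [sub_zero, Int.natAbs_mul]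
    rcases hj with rfl | rfl <;> simp
  set w := h • x₀ with hw
  set Ap := h • (f ^ ((k : ℤ) * (T : ℤ)) • x₀) with hAp
  set Am := h • (f ^ ((k : ℤ) * (-(T : ℤ))) • x₀) with hAm
  set Pp := f ^ ((k : ℤ) * (σ * (T : ℤ))) • x₀ with hPp
  set Pm := f ^ ((k : ℤ) * (σ * (-(T : ℤ)))) • x₀ with hPm
  have e1 : M.d w Ap = a := hwA T (Or.inl rfl)
  have e2 : M.d w Am = a := hwA (-T) (Or.inr rfl)
  have e3 : M.d Ap Pp = B := hAP T
  have e4 : M.d Am Pm = B := hAP (-T)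
  have e5 : 2 * a ≤ M.d Am Ap + R₁ := by
    have h1 := disp_QL M hyp inv f x₀ hf (k * T) (k * T)
    have h2 : M.d Am Ap = disp M f x₀ (k * T + k * T) := by
      rw [hAm, hAp, inv, d_line M inv]
      congr 1
      have : (k : ℤ) * (T : ℤ) - (k : ℤ) * (-(T : ℤ)) = ((k * T + k * T : ℕ) : ℤ) := by
        push_cast; ring
      rw [this, Int.natAbs_natCast]
    rw [h2]; omega
  have s1 := hyp w Pp Am Ap
  rw [M.comm Pp Ap, M.comm Pp Am, e1, e2, e3] at s1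
  have s2 := hyp w Pm Pp Am
  rw [M.comm Pm Am, M.comm Pm Pp, e2, e4, M.comm Pp Am] at s2
  have e6 : M.d w Pm + M.d w Pp ≤ M.d Pp Pm + R₁ + 2 * δ := by
    omega
  -- near point on the line
  have hne : (Set.range fun i : ℤ => f ^ i • x₀).Nonempty := ⟨_, 0, rfl⟩
  obtain ⟨z, hz⟩ := exists_near M hne w
  obtain ⟨i, hi⟩ := hz.1
  have h7 := near_of_between M (QC_line M hyp inv f x₀ hf) (y := Pp) (y' := Pm) (p := w)
    (κ := R₁ + 2 * δ) ⟨_, rfl⟩ ⟨_, rfl⟩ hz (by rw [M.comm Pp w]; omega)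
  refine ⟨i, ?_⟩
  rw [show f ^ i • x₀ = z from hi]
  unfold Rline
  omega

include hyp inv hf in
theorem disp_le_imp {m m' c : ℕ} (h : disp M f x₀ m ≤ disp M f x₀ m' + c) : m ≤ m' + c := by
  by_contra hcon
  push Not at hcon
  obtain ⟨t, rfl⟩ := Nat.exists_eq_add_of_le hcon.le
  have h1 := disp_add M hyp inv f x₀ hf m' (c + t)
  rw [← Nat.add_assoc m' c t] at h1
  omega

include hyp inv hf in
/-- Intermediate points of two close segments of the line and its translate are close. -/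
theorem overlap_mid {C : ℕ} {h : H} {i j i' j' k : ℤ} (hik : i ≤ k) (hkj : k ≤ j)
    (h1 : M.d (f ^ i • x₀) (h • f ^ i' • x₀) ≤ C) (h2 : M.d (f ^ j • x₀) (h • f ^ j' • x₀) ≤ C) :
    M.d (f ^ k • x₀) (h • f ^ (i' + (if i' ≤ j' then 1 else -1) * (k - i)) • x₀) ≤
      (disp M f x₀ 1 + 4 * C + 2 * Rline M f x₀ δ) +
        disp M f x₀ (disp M f x₀ 1 + 7 * C + 2 * Rline M f x₀ δ) := by
  set R₁ := disp M f x₀ 1 with hR₁
  set R₂ := Rline M f x₀ δ with hR₂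
  -- the translated line is quasi-convex
  have hQ : QC M (Set.range fun l : ℤ => h • f ^ l • x₀) R₂ := by
    rintro y p ⟨⟨l, rfl⟩, hmin⟩ q ⟨m, rfl⟩
    have hb := QC_line M hyp inv f x₀ hf (h⁻¹ • y) (f ^ l • x₀) ⟨⟨l, rfl⟩, by
      rintro _ ⟨m, rfl⟩
      have := hmin (h • f ^ m • x₀) ⟨m, rfl⟩
      rw [← inv h (h⁻¹ • y), ← inv h (h⁻¹ • y), smul_inv_smul]
      exact this⟩ (f ^ m • x₀) ⟨m, rfl⟩
    rw [← inv h (h⁻¹ • y), ← inv h (h⁻¹ • y), smul_inv_smul] at hb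
    simp only
    rw [inv]
    exact hb
  obtain ⟨z, hz⟩ := exists_near M (Y := Set.range fun l : ℤ => h • f ^ l • x₀) ⟨_, 0, rfl⟩
    (f ^ k • x₀)
  obtain ⟨l, hl⟩ := hz.1
  simp only at hl
  have hQL := disp_QL M hyp inv f x₀ hf (k - i).natAbs (j - k).natAbs
  have t1 := M.tri (h • f ^ i' • x₀) (f ^ i • x₀) (f ^ k • x₀)
  have t2 := M.tri (f ^ k • x₀) (f ^ j • x₀) (h • f ^ j' • x₀)
  have t3 := M.tri (f ^ i • x₀) (h • f ^ i' • x₀) (f ^ j • x₀)
  have t4 := M.tri (h • f ^ i' • x₀) (h • f ^ j' • x₀) (f ^ j • x₀)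
  rw [M.comm (h • f ^ i' • x₀) (f ^ i • x₀)] at t1
  rw [M.comm (h • f ^ j' • x₀) (f ^ j • x₀)] at t4
  rw [d_line M inv] at t1 t2 t3
  have hz2 := near_of_between M hQ (y := h • f ^ i' • x₀) (y' := h • f ^ j' • x₀)
    (p := f ^ k • x₀) (κ := R₁ + 4 * C) ⟨_, rfl⟩ ⟨_, rfl⟩ hz (by
      have e : (j - i).natAbs = (k - i).natAbs + (j - k).natAbs := by omega
      rw [e] at t3
      omega)
  -- compare indices
  rw [← hl] at hz2
  have u1 := M.tri (f ^ i • x₀) (h • f ^ i' • x₀) (h • f ^ l • x₀)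
  have u2 := M.tri (f ^ i • x₀) (h • f ^ l • x₀) (f ^ k • x₀)
  have u3 := M.tri (h • f ^ i' • x₀) (f ^ i • x₀) (h • f ^ l • x₀)
  have u4 := M.tri (f ^ i • x₀) (f ^ k • x₀) (h • f ^ l • x₀)
  rw [M.comm (h • f ^ i' • x₀) (f ^ i • x₀)] at u3
  rw [M.comm (h • f ^ l • x₀) (f ^ k • x₀)] at u2
  rw [inv, d_line M inv] at u1 u3
  rw [d_line M inv] at u2 u4
  have v1 := M.tri (f ^ j • x₀) (h • f ^ j' • x₀) (h • f ^ l • x₀)
  have v2 := M.tri (f ^ j • x₀) (h • f ^ l • x₀) (f ^ k • x₀)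
  have v3 := M.tri (h • f ^ j' • x₀) (f ^ j • x₀) (h • f ^ l • x₀)
  have v4 := M.tri (f ^ j • x₀) (f ^ k • x₀) (h • f ^ l • x₀)
  rw [M.comm (h • f ^ j' • x₀) (f ^ j • x₀)] at v3
  rw [M.comm (h • f ^ l • x₀) (f ^ k • x₀)] at v2
  rw [inv, d_line M inv] at v1 v3
  rw [d_line M inv] at v2 v4
  have w1 := M.tri (f ^ i • x₀) (h • f ^ i' • x₀) (h • f ^ j' • x₀)
  have w2 := M.tri (f ^ i • x₀) (h • f ^ j' • x₀) (f ^ j • x₀)
  have w3 := M.tri (h • f ^ i' • x₀) (f ^ i • x₀) (h • f ^ j' • x₀)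
  have w4 := M.tri (f ^ i • x₀) (f ^ j • x₀) (h • f ^ j' • x₀)
  rw [M.comm (h • f ^ i' • x₀) (f ^ i • x₀)] at w3
  rw [M.comm (h • f ^ j' • x₀) (f ^ j • x₀)] at w2
  rw [inv, d_line M inv] at w1 w3
  rw [d_line M inv] at w2 w4
  have k1 : (l - i').natAbs ≤ (k - i).natAbs + (R₁ + 5 * C + 2 * R₂) :=
    disp_le_imp M hyp inv f x₀ hf (by omega)
  have k2 : (k - i).natAbs ≤ (l - i').natAbs + (R₁ + 5 * C + 2 * R₂) :=
    disp_le_imp M hyp inv f x₀ hf (by omega)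
  have k3 : (l - j').natAbs ≤ (k - j).natAbs + (R₁ + 5 * C + 2 * R₂) :=
    disp_le_imp M hyp inv f x₀ hf (by omega)
  have k4 : (k - j).natAbs ≤ (l - j').natAbs + (R₁ + 5 * C + 2 * R₂) :=
    disp_le_imp M hyp inv f x₀ hf (by omega)
  have k5 : (j' - i').natAbs ≤ (j - i).natAbs + 2 * C :=
    disp_le_imp M hyp inv f x₀ hf (by omega)
  have k6 : (j - i).natAbs ≤ (j' - i').natAbs + 2 * C :=
    disp_le_imp M hyp inv f x₀ hf (by omega)
  have hfin : ((i' + (if i' ≤ j' then 1 else -1) * (k - i)) - l).natAbs ≤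
      R₁ + 7 * C + 2 * R₂ := by
    split_ifs with hs <;> omega
  have x1 := M.tri (f ^ k • x₀) (h • f ^ l • x₀)
    (h • f ^ (i' + (if i' ≤ j' then 1 else -1) * (k - i)) • x₀)
  rw [inv, d_line M inv] at x1
  have x2 := disp_mono M hyp inv f x₀ hf hfin
  omega

include hyp inv hf in
/-- **Bounded overlap.** -/
theorem overlap (proper : ∀ D : ℕ, {h : H | M.d x₀ (h • x₀) ≤ D}.Finite) (C : ℕ) :
    ∃ k L : ℕ, 0 < k ∧ ∀ (h : H) (i j i' j' : ℤ),
      M.d (f ^ i • x₀) (h • f ^ i' • x₀) ≤ C → M.d (f ^ j • x₀) (h • f ^ j' • x₀) ≤ C →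
      L ≤ (j - i).natAbs → h ∈ Elem f k := by
  classical
  set D := (disp M f x₀ 1 + 4 * C + 2 * Rline M f x₀ δ) +
        disp M f x₀ (disp M f x₀ 1 + 7 * C + 2 * Rline M f x₀ δ) with hD
  have hfin := proper D
  set m := hfin.toFinset.card with hm
  -- main case i ≤ j
  have main : ∀ (h : H) (i j i' j' : ℤ), i ≤ j →
      M.d (f ^ i • x₀) (h • f ^ i' • x₀) ≤ C → M.d (f ^ j • x₀) (h • f ^ j' • x₀) ≤ C →
      m ≤ (j - i).natAbs → h ∈ Elem f m.factorial := by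
    intro h i j i' j' hij h1 h2 hL
    set σ : ℤ := if i' ≤ j' then 1 else -1 with hσ
    let e : ℕ → H := fun t => f ^ (-(i + t)) * h * f ^ (i' + σ * t)
    have hmem : ∀ t : ℕ, t ≤ m → e t ∈ hfin.toFinset := by
      intro t ht
      rw [Set.Finite.mem_toFinset, Set.mem_ofPred_eq]
      have h3 := overlap_mid M hyp inv f x₀ hf (k := i + t) (by omega) (by omega) h1 h2
      have e1 : i + (t : ℤ) - i = t := by ring
      rw [e1] at h3
      have e2 : M.d x₀ (e t • x₀) = M.d (f ^ (i + t : ℤ) • x₀) (h • f ^ (i' + σ * t) • x₀) := by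
        rw [← inv (f ^ (i + t : ℤ)) x₀]
        congr 1
        simp only [e, smul_smul]
        congr 1
        rw [← mul_assoc, ← mul_assoc, ← zpow_add, add_neg_cancel, zpow_zero, one_mul]
      rw [e2]
      exact h3
    have : ∃ t t' : ℕ, t < t' ∧ t' ≤ m ∧ e t = e t' := by
      by_contra hcon
      push Not at hcon
      have hcard : (Finset.range (m + 1)).card ≤ hfin.toFinset.card :=
        Finset.card_le_card_of_injOn e
          (fun t ht => hmem t (by have := Finset.mem_range.1 ht; omega))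
          (fun t ht t' ht' hee => by
            have a1 := Finset.mem_range.1 (Finset.mem_coe.1 ht)
            have a2 := Finset.mem_range.1 (Finset.mem_coe.1 ht')
            rcases lt_trichotomy t t' with h0 | h0 | h0
            · exact absurd hee (hcon t t' h0 (by omega))
            · exact h0
            · exact absurd hee.symm (hcon t' t h0 (by omega)))
      rw [Finset.card_range] at hcard
      omega
    obtain ⟨t, t', htt, htm, hee⟩ := this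
    obtain ⟨b, hb⟩ : ∃ b : ℕ, t' = t + b := Nat.exists_eq_add_of_le htt.le
    have hb0 : 0 < b := by omega
    have hbm : b ≤ m := by omega
    have hrel : h * f ^ (σ * b) * h⁻¹ = f ^ (b : ℤ) := by
      simp only [e] at hee
      have h4 : f ^ (i + t' : ℤ) * (f ^ (-(i + t) : ℤ) * h * f ^ (i' + σ * t)) * f ^ (-(i' + σ * t))
          = f ^ (i + t' : ℤ) * (f ^ (-(i + t') : ℤ) * h * f ^ (i' + σ * t')) *
            f ^ (-(i' + σ * t)) := by
        rw [hee]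
      have h5 : f ^ (i + t' : ℤ) * (f ^ (-(i + t) : ℤ) * h * f ^ (i' + σ * t)) *
          f ^ (-(i' + σ * t)) = f ^ (b : ℤ) * h := by
        rw [hb]; push_cast
        rw [← mul_assoc, ← mul_assoc, ← zpow_add, mul_assoc _ (f ^ (i' + σ * (t : ℤ))), ← zpow_add,
          add_neg_cancel, zpow_zero, mul_one]
        congr 2; ring
      have h6 : f ^ (i + t' : ℤ) * (f ^ (-(i + t') : ℤ) * h * f ^ (i' + σ * t')) *
            f ^ (-(i' + σ * t)) = h * f ^ (σ * b) := by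
        rw [← mul_assoc, ← mul_assoc, ← zpow_add, add_neg_cancel, zpow_zero, one_mul, mul_assoc,
          ← zpow_add]
        congr 2
        rw [hb]; push_cast; ring
      rw [h5, h6] at h4
      rw [← h4, mul_assoc, mul_inv_cancel, mul_one]
    obtain ⟨r, hr⟩ : b ∣ m.factorial := Nat.dvd_factorial hb0 hbm
    have conj_pow' : ∀ (x : H) (j : ℤ), h * x ^ j * h⁻¹ = (h * x * h⁻¹) ^ j := fun x j => by
      rw [conj_zpow]
    rw [mem_Elem]
    by_cases hs : i' ≤ j'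
    · left
      have hσ1 : σ = 1 := by rw [hσ, if_pos hs]
      rw [hσ1, one_mul] at hrel
      rw [← zpow_natCast f, hr]
      push_cast
      rw [zpow_mul, conj_pow', hrel]
    · right
      have hσ1 : σ = -1 := by rw [hσ, if_neg hs]
      rw [hσ1, neg_one_mul] at hrel
      have hrel2 : h * f ^ (b : ℤ) * h⁻¹ = f ^ (-(b : ℤ)) := by
        have h7 : (h * f ^ (-(b : ℤ)) * h⁻¹)⁻¹ = (f ^ (b : ℤ))⁻¹ := by rw [hrel]
        rw [zpow_neg, ← h7, zpow_neg]; group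
      rw [← zpow_natCast f, hr]
      push_cast
      rw [zpow_mul, conj_pow', hrel2, ← zpow_mul, ← zpow_neg, neg_mul, ← zpow_mul, mul_neg]
  refine ⟨m.factorial, m, Nat.factorial_pos _, fun h i j i' j' h1 h2 hL => ?_⟩
  rcases le_total i j with hij | hij
  · exact main h i j i' j' hij h1 h2 hL
  · exact main h j i j' i' hij h2 h1 (by omega)

end

end Pool.Agent.H33.RD
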