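import Pool.Agent.H33.RD.BGI
import Pool.Agent.H33.RD.Elem
import Pool.Agent.H33.RD.Cone

/-!
# The family of translates of the axis of a loxodromic element
-/

set_option autoImplicit false

namespace Pool.Agent.H33.RD

section

variable {H V : Type} [Group H] [MulAction H V]

/-- translates of the orbit of the elementary subgroup -/
def Yf (f : H) (x₀ : V) (k : ℕ) (c : H ⧸ Elem f k) : Set V :=
  {p | ∃ h : H, (h : H ⧸ Elem f k) = c ∧ h • x₀ = p}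

theorem Yf_nonempty (f : H) (x₀ : V) (k : ℕ) (c : H ⧸ Elem f k) : (Yf f x₀ k c).Nonempty := by
  obtain ⟨h, rfl⟩ := QuotientGroup.mk_surjective c
  exact ⟨h • x₀, h, rfl, rfl⟩

theorem Yf_smul (f : H) (x₀ : V) (k : ℕ) (h : H) (p : V) (c : H ⧸ Elem f k)
    (hp : p ∈ Yf f x₀ k c) : h • p ∈ Yf f x₀ k (h • c) := by
  obtain ⟨g, rfl, rfl⟩ := hp
  exact ⟨h * g, rfl, by rw [mul_smul]⟩

variable (M : GM V) {δ : ℕ} (hyp : M.Hyp δ)
  (inv : ∀ (h : H) (x y : V), M.d (h • x) (h • y) = M.d x y) (f : H) (x₀ : V)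
  (hf : M.d x₀ (f • x₀) + 2 * δ + 1 ≤ M.d x₀ (f ^ 2 • x₀))

/-- the closeness constant -/
def cE (δ : ℕ) : ℕ := disp M f x₀ 1 + 2 * δ + 2 * Rline M f x₀ δ

include hyp inv hf in
theorem QC_line_smul (h : H) :
    QC M (Set.range fun l : ℤ => h • f ^ l • x₀) (Rline M f x₀ δ) := by
  rintro y p ⟨⟨l, rfl⟩, hmin⟩ q ⟨m, rfl⟩
  have hb := QC_line M hyp inv f x₀ hf (h⁻¹ • y) (f ^ l • x₀) ⟨⟨l, rfl⟩, by
    rintro _ ⟨m, rfl⟩
    have := hmin (h • f ^ m • x₀) ⟨m, rfl⟩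
    rw [← inv h (h⁻¹ • y), ← inv h (h⁻¹ • y), smul_inv_smul]
    exact this⟩ (f ^ m • x₀) ⟨m, rfl⟩
  rw [← inv h (h⁻¹ • y), ← inv h (h⁻¹ • y), smul_inv_smul] at hb
  simp only
  rw [inv]
  exact hb

include hyp inv hf in
theorem Yf_close {k : ℕ} (hk : 0 < k) {h : H} {p : V} (hp : p ∈ Yf f x₀ k (h : H ⧸ Elem f k)) :
    ∃ i : ℤ, M.d p (h • f ^ i • x₀) ≤ cE M f x₀ δ := by
  obtain ⟨g, hg, rfl⟩ := hp
  have he : h⁻¹ * g ∈ Elem f k := QuotientGroup.eq.1 hg.symm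
  obtain ⟨i, hi⟩ := Elem_close M hyp inv f x₀ hf hk he
  refine ⟨i, ?_⟩
  rw [← inv h⁻¹, inv_smul_smul, smul_smul]
  exact hi

theorem line_mem_Yf (k : ℕ) (h : H) (i : ℤ) : h • f ^ i • x₀ ∈ Yf f x₀ k (h : H ⧸ Elem f k) := by
  refine ⟨h * f ^ i, ?_, by rw [mul_smul]⟩
  rw [QuotientGroup.eq]
  have : (h * f ^ i)⁻¹ * h = (f ^ i)⁻¹ := by group
  rw [this]
  exact (Elem f k).inv_mem (zpow_mem_Elem f k i)

include hyp inv hf in
theorem QC_Yf {k : ℕ} (hk : 0 < k) (c : H ⧸ Elem f k) :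
    QC M (Yf f x₀ k c) (4 * cE M f x₀ δ + 2 * Rline M f x₀ δ) := by
  obtain ⟨h, rfl⟩ := QuotientGroup.mk_surjective c
  refine QC_thick M (Y₀ := Set.range fun l : ℤ => h • f ^ l • x₀) ⟨_, 0, rfl⟩
    (QC_line_smul M hyp inv f x₀ hf h) ?_ ?_
  · rintro _ ⟨l, rfl⟩
    exact line_mem_Yf f x₀ k h l
  · intro p hp
    obtain ⟨i, hi⟩ := Yf_close M hyp inv f x₀ hf hk hp
    exact ⟨_, ⟨i, rfl⟩, hi⟩

include hyp inv hf in
/-- **The family**: uniform quasi-convexity and bounded overlap. -/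
theorem family (proper : ∀ D : ℕ, {h : H | M.d x₀ (h • x₀) ≤ D}.Finite) :
    ∃ k R : ℕ, 0 < k ∧ (∀ c, QC M (Yf f x₀ k c) R) ∧
      (∀ c c' : H ⧸ Elem f k, c ≠ c' → ∀ y ∈ Yf f x₀ k c', ∀ y' ∈ Yf f x₀ k c', ∀ p p',
        IsNear M (Yf f x₀ k c) y p → IsNear M (Yf f x₀ k c) y' p' → M.d p p' ≤ R) := by
  set CE := cE M f x₀ δ with hCE
  set R₃ := 4 * cE M f x₀ δ + 2 * Rline M f x₀ δ with hR₃
  obtain ⟨k, L, hk, hov⟩ := overlap M hyp inv f x₀ hf proper (2 * CE + 2 * R₃ + δ)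
  refine ⟨k, R₃ + δ + 2 * CE + disp M f x₀ L, hk, fun c => QC_mono M (QC_Yf M hyp inv f x₀ hf hk c)
    (by omega), ?_⟩
  intro c c' hcc y hy y' hy' p p' hp hp'
  rcases proj_dich M hyp (QC_Yf M hyp inv f x₀ hf hk c) hp hp' with h1 | h1
  · omega
  -- both projections are close to `Y c'`
  have t1 := M.tri p p' y'
  have t2 := M.tri y p p'
  obtain ⟨z, hz⟩ := exists_near M (Yf_nonempty f x₀ k c') p
  obtain ⟨z', hz'⟩ := exists_near M (Yf_nonempty f x₀ k c') p'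
  have h2 := near_of_between M (QC_Yf M hyp inv f x₀ hf hk c') hy hy' hz (κ := 2 * R₃ + δ)
    (by omega)
  have h3 := near_of_between M (QC_Yf M hyp inv f x₀ hf hk c') hy hy' hz' (κ := 2 * R₃ + δ)
    (by omega)
  obtain ⟨h, rfl⟩ := QuotientGroup.mk_surjective c
  obtain ⟨h', rfl⟩ := QuotientGroup.mk_surjective c'
  obtain ⟨i, hi⟩ := Yf_close M hyp inv f x₀ hf hk hp.1
  obtain ⟨j, hj⟩ := Yf_close M hyp inv f x₀ hf hk hp'.1
  obtain ⟨i', hi'⟩ := Yf_close M hyp inv f x₀ hf hk hz.1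
  obtain ⟨j', hj'⟩ := Yf_close M hyp inv f x₀ hf hk hz'.1
  have e1 : M.d (f ^ i • x₀) ((h⁻¹ * h') • f ^ i' • x₀) ≤ 2 * CE + 2 * R₃ + δ := by
    have e : M.d (f ^ i • x₀) ((h⁻¹ * h') • f ^ i' • x₀) =
        M.d (h • f ^ i • x₀) (h' • f ^ i' • x₀) := by
      rw [← inv h (f ^ i • x₀), mul_smul, smul_inv_smul]
    rw [e]
    have s1 := M.tri (h • f ^ i • x₀) p (h' • f ^ i' • x₀)
    have s2 := M.tri p z (h' • f ^ i' • x₀)
    rw [M.comm (h • f ^ i • x₀) p] at s1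
    omega
  have e2 : M.d (f ^ j • x₀) ((h⁻¹ * h') • f ^ j' • x₀) ≤ 2 * CE + 2 * R₃ + δ := by
    have e : M.d (f ^ j • x₀) ((h⁻¹ * h') • f ^ j' • x₀) =
        M.d (h • f ^ j • x₀) (h' • f ^ j' • x₀) := by
      rw [← inv h (f ^ j • x₀), mul_smul, smul_inv_smul]
    rw [e]
    have s1 := M.tri (h • f ^ j • x₀) p' (h' • f ^ j' • x₀)
    have s2 := M.tri p' z' (h' • f ^ j' • x₀)
    rw [M.comm (h • f ^ j • x₀) p'] at s1
    omega
  have hij : (j - i).natAbs < L := by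
    by_contra hcon
    push Not at hcon
    have := hov (h⁻¹ * h') i j i' j' e1 e2 hcon
    exact hcc (QuotientGroup.eq.2 this)
  have s1 := M.tri p (h • f ^ i • x₀) p'
  have s2 := M.tri (h • f ^ i • x₀) (h • f ^ j • x₀) p'
  rw [M.comm (h • f ^ j • x₀) p', inv, d_line M inv] at s2
  have s3 := disp_mono M hyp inv f x₀ hf hij.le
  omega

/-! ### Rotation groups -/

/-- the rotation group at `c`: conjugates of the powers of `f ^ n` -/
noncomputable def Gr (f : H) (k n : ℕ) (c : H ⧸ Elem f k) : Subgroup H :=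
  Subgroup.zpowers (c.out * f ^ n * (c.out)⁻¹)

theorem mem_Gr {f : H} {k n : ℕ} (hkn : k ∣ n) {c : H ⧸ Elem f k} {h : H}
    (hc : (h : H ⧸ Elem f k) = c) {s : H} :
    s ∈ Gr f k n c ↔ ∃ j : ℤ, s = h * f ^ ((n : ℤ) * j) * h⁻¹ := by
  have hout : ((c.out : H) : H ⧸ Elem f k) = (h : H ⧸ Elem f k) := by
    rw [hc]; exact Quotient.out_eq c
  have he : h⁻¹ * c.out ∈ Elem f k := QuotientGroup.eq.1 hout.symm
  obtain ⟨σ, hσ, hconj⟩ := Elem_conj hkn he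
  have key : ∀ j : ℤ, (c.out * f ^ n * (c.out)⁻¹) ^ j = h * f ^ ((n : ℤ) * (σ * j)) * h⁻¹ := by
    intro j
    rw [← hconj j, conj_zpow, ← zpow_natCast f n, ← zpow_mul]
    group
  constructor
  · rintro ⟨j, rfl⟩
    exact ⟨σ * j, key j⟩
  · rintro ⟨j, rfl⟩
    refine ⟨σ * j, ?_⟩
    have hσσ : σ * (σ * j) = j := by rcases hσ with rfl | rfl <;> ring
    show (c.out * f ^ n * (c.out)⁻¹) ^ (σ * j) = _
    rw [key, hσσ]

theorem Gr_fix {f : H} {k n : ℕ} (hkn : k ∣ n) (c : H ⧸ Elem f k) (s : H)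
    (hs : s ∈ Gr f k n c) : s • c = c := by
  obtain ⟨h, rfl⟩ := QuotientGroup.mk_surjective c
  obtain ⟨j, rfl⟩ := (mem_Gr hkn rfl).1 hs
  show ((h * f ^ ((n : ℤ) * j) * h⁻¹ * h : H) : H ⧸ Elem f k) = (h : H ⧸ Elem f k)
  rw [QuotientGroup.eq]
  have : (h * f ^ ((n : ℤ) * j) * h⁻¹ * h)⁻¹ * h = (f ^ ((n : ℤ) * j))⁻¹ := by group
  rw [this]
  exact (Elem f k).inv_mem (zpow_mem_Elem f k _)

theorem Gr_conj {f : H} {k n : ℕ} (hkn : k ∣ n) (g : H) (c : H ⧸ Elem f k) (s : H)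
    (hs : s ∈ Gr f k n c) : g * s * g⁻¹ ∈ Gr f k n (g • c) := by
  obtain ⟨h, rfl⟩ := QuotientGroup.mk_surjective c
  obtain ⟨j, rfl⟩ := (mem_Gr hkn rfl).1 hs
  exact (mem_Gr hkn (h := g * h) (c := g • (h : H ⧸ Elem f k)) rfl).2 ⟨j, by group⟩

theorem closure_Gr {f : H} {k n : ℕ} (hkn : k ∣ n) :
    Subgroup.closure {s | ∃ c, s ∈ Gr f k n c} = Subgroup.normalClosure {f ^ n} := by
  apply le_antisymm
  · rw [Subgroup.closure_le]
    rintro s ⟨c, hs⟩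
    obtain ⟨h, rfl⟩ := QuotientGroup.mk_surjective c
    obtain ⟨j, rfl⟩ := (mem_Gr hkn rfl).1 hs
    have h1 : f ^ n ∈ Subgroup.normalClosure {f ^ n} :=
      Subgroup.subset_normalClosure (Set.mem_singleton _)
    have h2 : f ^ ((n : ℤ) * j) ∈ Subgroup.normalClosure {f ^ n} := by
      rw [zpow_mul, zpow_natCast]
      exact Subgroup.zpow_mem _ h1 j
    exact Subgroup.normalClosure_normal.conj_mem _ h2 h
  · have hn : (Subgroup.closure {s | ∃ c, s ∈ Gr f k n c}).Normal := by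
      constructor
      intro s hs g
      induction hs using Subgroup.closure_induction with
      | mem x hx =>
        obtain ⟨c, hc⟩ := hx
        exact Subgroup.subset_closure ⟨g • c, Gr_conj hkn g c x hc⟩
      | one => simp
      | mul x y _ _ hx hy =>
        have : g * (x * y) * g⁻¹ = (g * x * g⁻¹) * (g * y * g⁻¹) := by group
        rw [this]; exact Subgroup.mul_mem _ hx hy
      | inv x _ hx =>
        have : g * x⁻¹ * g⁻¹ = (g * x * g⁻¹)⁻¹ := by group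
        rw [this]; exact Subgroup.inv_mem _ hx
    apply Subgroup.normalClosure_le_normal
    rw [Set.singleton_subset_iff]
    refine Subgroup.subset_closure ⟨((1 : H) : H ⧸ Elem f k), ?_⟩
    rw [mem_Gr hkn rfl]
    exact ⟨1, by simp⟩

include hyp inv hf in
theorem Gr_rot {k n : ℕ} (hkn : k ∣ n) (c : H ⧸ Elem f k) (s : H)
    (hs : s ∈ Gr f k n c) (hs1 : s ≠ 1) (p : V) (hp : p ∈ Yf f x₀ k c) : n ≤ M.d p (s • p) := by
  obtain ⟨h, rfl, rfl⟩ := hp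
  obtain ⟨j, rfl⟩ := (mem_Gr hkn rfl).1 hs
  have hj : j ≠ 0 := by
    rintro rfl
    apply hs1; simp
  have e : M.d (h • x₀) ((h * f ^ ((n : ℤ) * j) * h⁻¹) • h • x₀) =
      disp M f x₀ ((n : ℤ) * j).natAbs := by
    rw [smul_smul, inv_mul_cancel_right, mul_smul, inv]
    have := d_line M inv f x₀ 0 ((n : ℤ) * j)
    rw [zpow_zero, one_smul, sub_zero] at this
    exact this
  rw [e]
  have h1 := disp_lin M hyp inv f x₀ hf ((n : ℤ) * j).natAbs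
  rw [Int.natAbs_mul, Int.natAbs_natCast] at h1 ⊢
  have h2 : n ≤ n * j.natAbs := Nat.le_mul_of_pos_right _ (Int.natAbs_pos.2 hj)
  omega

include hyp inv hf in
/-- points of `Y c` are close up to rotation -/
theorem Gr_cob {k n : ℕ} (hk : 0 < k) (hn : 0 < n) (hkn : k ∣ n) (c : H ⧸ Elem f k) (p q : V)
    (hp : p ∈ Yf f x₀ k c) (hq : q ∈ Yf f x₀ k c) :
    ∃ s ∈ Gr f k n c, M.d p (s • q) ≤ 2 * cE M f x₀ δ + disp M f x₀ n := by
  obtain ⟨h, rfl⟩ := QuotientGroup.mk_surjective c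
  obtain ⟨i, hi⟩ := Yf_close M hyp inv f x₀ hf hk hp
  obtain ⟨i', hi'⟩ := Yf_close M hyp inv f x₀ hf hk hq
  refine ⟨h * f ^ ((n : ℤ) * ((i - i') / n)) * h⁻¹, (mem_Gr hkn rfl).2 ⟨_, rfl⟩, ?_⟩
  set s := h * f ^ ((n : ℤ) * ((i - i') / n)) * h⁻¹ with hs
  have e1 : s • h • f ^ i' • x₀ = h • f ^ (i' + (n : ℤ) * ((i - i') / n)) • x₀ := by
    rw [hs, smul_smul, inv_mul_cancel_right, mul_smul, smul_smul (f ^ _), ← zpow_add, add_comm]
  have t1 := M.tri p (h • f ^ i • x₀) (s • q)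
  have t2 := M.tri (h • f ^ i • x₀) (s • h • f ^ i' • x₀) (s • q)
  rw [inv s, M.comm (h • f ^ i' • x₀) q] at t2
  rw [e1, inv, d_line M inv] at t2
  have h3 : (i' + (n : ℤ) * ((i - i') / n) - i).natAbs ≤ n := by
    have h4 := Int.emod_add_mul_ediv (i - i') n
    have h5 := Int.emod_nonneg (i - i') (b := (n : ℤ)) (by omega)
    have h6 := Int.emod_lt_of_pos (i - i') (b := (n : ℤ)) (by omega)
    omega
  have h4 := disp_mono M hyp inv f x₀ hf h3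
  omega

end

end Pool.Agent.H33.RD
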