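import Pool.Agent.H33.RD.CenterQuot
import Pool.Agent.H33.RD.Family
import Pool.Agent.H33.RD.Center

/-!
# Counting the candidate centres
-/

set_option autoImplicit false
open scoped Pointwise

namespace Pool.Agent.H33.RD

section

variable {H V : Type} [Group H] [MulAction H V]

open Classical in
theorem TP_count (M : GM V) {δ : ℕ} (hyp : M.Hyp δ)
    (inv : ∀ (h : H) (x y : V), M.d (h • x) (h • y) = M.d x y) (f : H) (x₀ : V)
    (hf : M.d x₀ (f • x₀) + 2 * δ + 1 ≤ M.d x₀ (f ^ 2 • x₀))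
    (proper : ∀ D : ℕ, {h : H | M.d x₀ (h • x₀) ≤ D}.Finite) {k : ℕ} (hk : 0 < k)
    (D' D₁ C₁ : ℕ) :
    ∃ K₀ : ℕ, ∀ P : CD H V (H ⧸ Elem f k), P.X = M → P.Y = Yf f x₀ k →
      ∀ (γ : ℕ → V ⊕ (H ⧸ Elem f k)) (L r : ℕ), ∃ U : Finset H,
        (∀ h, P.TP x₀ r D' D₁ C₁ γ L h → h ∈ U) ∧ U.card ≤ K₀ * (r + 1) ^ 2 := by
  set W' : Finset H := (proper (2 * D₁)).toFinset with hW'
  set W : Finset H := (proper (cE M f x₀ δ + D₁)).toFinset with hW
  have memW' : ∀ u : H, M.d x₀ (u • x₀) ≤ 2 * D₁ → u ∈ W' := fun u hu => by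
    rw [hW', Set.Finite.mem_toFinset]; exact hu
  have memW : ∀ u : H, M.d x₀ (u • x₀) ≤ cE M f x₀ δ + D₁ → u ∈ W := fun u hu => by
    rw [hW, Set.Finite.mem_toFinset]; exact hu
  set CE := cE M f x₀ δ with hCE
  set m := W'.card + 2 * W.card with hm
  refine ⟨(D' + 1) * (m * (C₁ + CE + 1)), ?_⟩
  intro P hPX hPY γ L r
  -- one level
  have level : ∀ i : ℕ, ∃ U : Finset H, (∀ h : H,
      ((∃ y, γ i = Sum.inl y ∧ P.X.d (h • x₀) y ≤ D₁) ∨
      (∃ c p₀ p, 1 ≤ i ∧ γ i = Sum.inr c ∧ γ (i - 1) = Sum.inl p₀ ∧ p₀ ∈ P.Y c ∧ p ∈ P.Y c ∧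
        P.X.d p p₀ ≤ C₁ * (r + 1) ∧ P.X.d (h • x₀) p ≤ D₁)) → h ∈ U) ∧
      U.card ≤ m * (C₁ * (r + 1) + CE + 1) := by
    intro i
    rw [hPX, hPY]
    rcases hi : γ i with y | c
    · by_cases hne : ∃ h₀ : H, M.d (h₀ • x₀) y ≤ D₁
      · obtain ⟨h₀, hh₀⟩ := hne
        refine ⟨W'.image fun u => h₀ * u, ?_, ?_⟩
        · intro h hh
          rcases hh with ⟨y', hy', hd⟩ | ⟨c, _, _, _, hc, _⟩
          · have : y = y' := Sum.inl_injective hy'
            subst this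
            rw [Finset.mem_image]
            refine ⟨h₀⁻¹ * h, memW' _ ?_, mul_inv_cancel_left _ _⟩
            rw [← inv h₀, mul_smul, smul_inv_smul]
            have t := M.tri (h₀ • x₀) y (h • x₀)
            rw [M.comm y] at t
            omega
          · exact absurd hc (by simp)
        · refine Finset.card_image_le.trans ?_
          calc W'.card ≤ m * 1 := by omega
            _ ≤ _ := Nat.mul_le_mul_left _ (by omega)
      · refine ⟨∅, ?_, by simp⟩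
        intro h hh
        rcases hh with ⟨y', hy', hd⟩ | ⟨c, _, _, _, hc, _⟩
        · have : y = y' := Sum.inl_injective hy'
          subst this
          exact absurd ⟨h, hd⟩ hne
        · exact absurd hc (by simp)
    · by_cases hne : ∃ p₀, γ (i - 1) = Sum.inl p₀ ∧ p₀ ∈ Yf f x₀ k c
      · obtain ⟨p₀, hp₀, h₀, hc₀, rfl⟩ := hne
        set t := C₁ * (r + 1) + CE with ht
        refine ⟨((Finset.Icc (-(t : ℤ)) t) ×ˢ W).image fun x => h₀ * f ^ x.1 * x.2, ?_, ?_⟩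
        · intro h hh
          rcases hh with ⟨y', hy', hd⟩ | ⟨c', p₀, p, _, hc, hp, hp1, hp2, hd, hd2⟩
          · exact absurd hy' (by simp)
          · have e : c = c' := Sum.inr_injective hc
            subst e
            have e2 : h₀ • x₀ = p₀ := Sum.inl_injective (hp₀.symm.trans hp)
            subst e2
            rw [← hc₀] at hp2
            obtain ⟨j, hj⟩ := Yf_close M hyp inv f x₀ hf hk hp2
            rw [← hCE] at hj
            have hjt : j.natAbs ≤ t := by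
              have h1 := disp_lin M hyp inv f x₀ hf j.natAbs
              have h2 := d_line M inv f x₀ 0 j
              rw [zpow_zero, one_smul, sub_zero] at h2
              have h3 : M.d x₀ (f ^ j • x₀) = M.d (h₀ • x₀) (h₀ • f ^ j • x₀) := (inv _ _ _).symm
              have h4 := M.tri (h₀ • x₀) p (h₀ • f ^ j • x₀)
              rw [M.comm (h₀ • x₀) p] at h4
              omega
            rw [Finset.mem_image]
            refine ⟨(j, (h₀ * f ^ j)⁻¹ * h), ?_, mul_inv_cancel_left _ _⟩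
            rw [Finset.mem_product, Finset.mem_Icc]
            refine ⟨⟨by omega, by omega⟩, memW _ ?_⟩
            rw [← inv (h₀ * f ^ j), mul_smul, mul_smul (h₀ * f ^ j)⁻¹, smul_inv_smul]
            have t1 := M.tri (h₀ • f ^ j • x₀) p (h • x₀)
            rw [M.comm (h₀ • f ^ j • x₀) p, M.comm p (h • x₀)] at t1
            omega
        · refine Finset.card_image_le.trans ?_
          rw [Finset.card_product, Int.card_Icc]
          have e1 : ((t : ℤ) + 1 - -(t : ℤ)).toNat = 2 * t + 1 := by omega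
          rw [e1]
          calc (2 * t + 1) * W.card ≤ (2 * (t + 1)) * W.card := Nat.mul_le_mul_right _ (by omega)
            _ = (2 * W.card) * (t + 1) := by ring
            _ ≤ m * (t + 1) := Nat.mul_le_mul_right _ (by omega)
      · refine ⟨∅, ?_, by simp⟩
        intro h hh
        rcases hh with ⟨y', hy', hd⟩ | ⟨c', p₀, p, _, hc, hp, hp1, hp2, hd, hd2⟩
        · exact absurd hy' (by simp)
        · have e : c = c' := Sum.inr_injective hc
          subst e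
          exact absurd ⟨p₀, hp, hp1⟩ hne
  choose U hU hUc using level
  refine ⟨(Finset.range (r + D' + 1)).biUnion U, ?_, ?_⟩
  · rintro h ⟨i, h1, h2, h3⟩
    rw [Finset.mem_biUnion]
    exact ⟨i, Finset.mem_range.2 (by omega), hU i h h3⟩
  · refine Finset.card_biUnion_le.trans ((Finset.sum_le_card_nsmul _ _ _ fun i _ => hUc i).trans ?_)
    rw [Finset.card_range, smul_eq_mul]
    have e1 : r + D' + 1 ≤ (D' + 1) * (r + 1) := by
      have : (D' + 1) * (r + 1) = D' * r + D' + r + 1 := by ring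
      omega
    have e2 : C₁ * (r + 1) + CE + 1 ≤ (C₁ + CE + 1) * (r + 1) := by
      have : (C₁ + CE + 1) * (r + 1) = C₁ * (r + 1) + (CE + 1) * r + CE + 1 := by ring
      have h0 : 0 ≤ (CE + 1) * r := Nat.zero_le _
      omega
    calc (r + D' + 1) * (m * (C₁ * (r + 1) + CE + 1))
        ≤ ((D' + 1) * (r + 1)) * (m * ((C₁ + CE + 1) * (r + 1))) :=
          Nat.mul_le_mul e1 (Nat.mul_le_mul_left _ e2)
      _ = _ := by ring

end

/-! ### Balls -/

section

variable {H V : Type} [Group H] [MulAction H V]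

theorem ball_disp {M : GM V} (inv : ∀ (h : H) (x y : V), M.d (h • x) (h • y) = M.d x y) {x₀ : V}
    {S : Set H} {KS : ℕ} (hS : ∀ s ∈ S, M.d x₀ (s • x₀) ≤ KS) (n : ℕ) :
    ∀ h ∈ ball S n, M.d x₀ (h • x₀) ≤ KS * n := by
  induction n with
  | zero =>
    intro h hh
    have : h = 1 := by simpa [ball] using hh
    rw [this, one_smul, M.self]; omega
  | succ n ih =>
    intro h hh
    unfold ball at hh
    rw [pow_succ, Set.mem_mul] at hh
    obtain ⟨a, ha, b, hb, rfl⟩ := hh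
    have h1 := ih a ha
    have h2 : M.d x₀ (b • x₀) ≤ KS := by
      rcases hb with (hb | hb) | hb
      · exact hS b hb
      · have := hS _ (Set.mem_inv.1 hb)
        rw [← inv b, smul_inv_smul, M.comm] at this
        exact this
      · rw [Set.mem_singleton_iff.1 hb, one_smul, M.self]; omega
    have h3 := M.tri x₀ (a • x₀) ((a * b) • x₀)
    rw [mul_smul, inv a x₀] at h3
    rw [mul_smul]
    have e : KS * (n + 1) = KS * n + KS := by ring
    omega

theorem ball_lift {N : Subgroup H} [N.Normal] {S : Set H} {n : ℕ} {x : H ⧸ N}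
    (hx : x ∈ ball ((QuotientGroup.mk : H → H ⧸ N) '' S) n) : ∃ h ∈ ball S n, (h : H ⧸ N) = x := by
  have e : ((QuotientGroup.mk : H → H ⧸ N) '' S) ∪ ((QuotientGroup.mk : H → H ⧸ N) '' S)⁻¹ ∪ {1} =
      (QuotientGroup.mk' N) '' (S ∪ S⁻¹ ∪ {1}) := by
    rw [Set.image_union, Set.image_union, Set.image_singleton, map_one, Set.image_inv]
    rfl
  unfold ball at hx
  rw [e, ← Set.image_pow] at hx
  obtain ⟨h, hh, hx⟩ := hx
  exact ⟨h, hh, hx⟩

end

/-! ### The rapid decay inequality in the quotient -/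

namespace CD

variable {H V C : Type} [Group H] [MulAction H V] [MulAction H C] {P : CD H V C}

variable {B δ Dk ca cq K : ℕ}

theorem quot_rd [hN : P.N.Normal] (hR : P.RDH B δ Dk ca cq) (hK : 3 * (2 * B) ≤ K)
    (hred : ∀ a : V, ∀ ν ∈ P.N, P.Red K a ν) {x₀ : V} {D₀ : ℕ}
    (cob : ∀ x : V, ∃ h : H, P.X.d x (h • x₀) ≤ D₀) {K₀ : ℕ}
    (hcount : ∀ (γ : ℕ → V ⊕ C) (L r : ℕ), ∃ U : Finset H,
      (∀ h, P.TP x₀ r (ca + DR B δ Dk cq + 1) (D₀ + DR B δ Dk cq + D3 B δ Dk cq + B)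
        (DR B δ Dk cq + D3 B δ Dk cq + 3 * B) γ L h → h ∈ U) ∧ U.card ≤ K₀ * (r + 1) ^ 2)
    {S : Set H} {KS : ℕ} (hS : ∀ s ∈ S, P.X.d x₀ (s • x₀) ≤ KS) :
    RDsq (H ⧸ P.N) ((QuotientGroup.mk : H → H ⧸ P.N) '' S)
      (fun n => ((K₀ * (KS + 1) ^ 2) ^ 3 : ℝ) * (1 + (n : ℝ)) ^ 6) := by
  classical
  -- minimal lifts
  have hlift : ∀ q : H ⧸ P.N, ∃ h : H, (h : H ⧸ P.N) = q ∧
      qd P.D P.N (Sum.inl x₀) (Sum.inl (h • x₀)) = P.D.d (Sum.inl x₀) (Sum.inl (h • x₀)) := by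
    intro q
    obtain ⟨h, rfl⟩ := QuotientGroup.mk_surjective q
    obtain ⟨ν, hν, h1⟩ := qd_spec P.D P.N (Sum.inl x₀) (Sum.inl (h • x₀) : V ⊕ C)
    refine ⟨ν * h, ?_, ?_⟩
    · rw [QuotientGroup.eq]
      have e : (ν * h)⁻¹ * h = h⁻¹ * ν⁻¹ * h⁻¹⁻¹ := by group
      rw [e]
      exact hN.conj_mem _ (P.N.inv_mem hν) h⁻¹
    · have h2 := qd_smul_right P.D P.N (x := Sum.inl x₀) (y := (Sum.inl (h • x₀) : V ⊕ C)) hν
      rw [smul_inl] at h1 h2
      rw [mul_smul, h2, h1]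
  choose lf hlf hlfq using hlift
  choose γ γ0 γ1 hγ using fun q : H ⧸ P.N =>
    P.D.exists_geod (Sum.inl x₀) (Sum.inl (lf q • x₀) : V ⊕ C)
  intro n f g hf F
  set r := KS * n with hr
  choose U hU hUc using fun q : H ⧸ P.N =>
    hcount (γ q) (P.D.d (Sum.inl x₀) (Sum.inl (lf q • x₀))) r
  have hcard : ∀ q, ((U q).image (QuotientGroup.mk : H → H ⧸ P.N)).card ≤ K₀ * (r + 1) ^ 2 :=
    fun q => Finset.card_image_le.trans (hUc q)
  have mkN : ∀ {κ : H} (_ : κ ∈ P.N) (h : H), ((κ * h : H) : H ⧸ P.N) = (h : H ⧸ P.N) := by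
    intro κ hκ h
    rw [QuotientGroup.mk_mul, (QuotientGroup.eq_one_iff κ).2 hκ, one_mul]
  have hmain := rd_of_center (fun q => (U q).image (QuotientGroup.mk : H → H ⧸ P.N))
    (K₀ * (r + 1) ^ 2) hcard f g (by
      intro x hx z
      obtain ⟨h', hh', hx'⟩ := ball_lift (hf hx)
      have hν : lf x * lf (x⁻¹ * z) * (lf z)⁻¹ ∈ P.N := by
        rw [← QuotientGroup.eq_one_iff, QuotientGroup.mk_mul, QuotientGroup.mk_mul,
          QuotientGroup.mk_inv, hlf, hlf, hlf]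
        group
      have hxr : qd P.X P.N x₀ (lf x • x₀) ≤ r := by
        have h1 := ball_disp P.Xinv hS n h' hh'
        have h2 : lf x * h'⁻¹ ∈ P.N := by
          rw [← QuotientGroup.eq_one_iff, QuotientGroup.mk_mul, QuotientGroup.mk_inv, hlf, hx',
            mul_inv_cancel]
        have h3 := qd_smul_right P.X P.N (x := x₀) (y := h' • x₀) h2
        rw [smul_smul, inv_mul_cancel_right] at h3
        rw [h3]
        exact (qd_le_d P.X P.N _ _).trans h1
      obtain ⟨h, ⟨κ₁, hκ₁, t1⟩, ⟨κ₂, hκ₂, t2⟩, ⟨κ₃, hκ₃, t3⟩⟩ :=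
        center_quot hR hK hred cob hν (hγ x) (γ0 x) (γ1 x) (hlfq x) (hγ (x⁻¹ * z)) (γ0 (x⁻¹ * z))
          (γ1 (x⁻¹ * z)) (hlfq (x⁻¹ * z)) (hγ z) (γ0 z) (γ1 z) (hlfq z) hxr
      refine ⟨(h : H ⧸ P.N), ?_, ?_, ?_⟩
      · rw [Finset.mem_image]
        exact ⟨κ₁ * h, hU _ _ t1, mkN hκ₁ h⟩
      · rw [Finset.mem_image]
        refine ⟨_, hU _ _ t3, ?_⟩
        rw [mkN (P.N.inv_mem hν), mkN hκ₃]
      · rw [Finset.mem_image]
        refine ⟨_, hU _ _ t2, ?_⟩
        rw [QuotientGroup.mk_mul, mkN hκ₂, QuotientGroup.mk_inv, hlf]) F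
  refine hmain.trans ?_
  have hfn : 0 ≤ ∑ y ∈ f.support, f y ^ 2 := Finset.sum_nonneg fun _ _ => sq_nonneg _
  have hgn : 0 ≤ ∑ y ∈ g.support, g y ^ 2 := Finset.sum_nonneg fun _ _ => sq_nonneg _
  refine mul_le_mul_of_nonneg_right (mul_le_mul_of_nonneg_right ?_ hfn) hgn
  have e1 : (r : ℝ) + 1 ≤ (KS + 1) * (1 + n) := by
    rw [hr]
    push_cast
    nlinarith [(Nat.cast_nonneg n : (0 : ℝ) ≤ n), (Nat.cast_nonneg KS : (0 : ℝ) ≤ KS)]
  have e2 : ((K₀ * (r + 1) ^ 2 : ℕ) : ℝ) ≤ K₀ * (KS + 1) ^ 2 * (1 + n) ^ 2 := by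
    push_cast
    rw [mul_assoc, ← mul_pow]
    refine mul_le_mul_of_nonneg_left ?_ (Nat.cast_nonneg _)
    exact pow_le_pow_left₀ (by positivity) e1 2
  calc ((K₀ * (r + 1) ^ 2 : ℕ) : ℝ) ^ 3 ≤ (K₀ * (KS + 1) ^ 2 * (1 + n) ^ 2) ^ 3 :=
        pow_le_pow_left₀ (by positivity) e2 3
    _ = _ := by ring

end CD

end Pool.Agent.H33.RD
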