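import Mathlib

/-!
# Infinite torsion groups with property RD (MP_8f292a_al): basic definitions

`GM V` is an integer valued metric with discrete geodesics (the metric of a connected graph),
`GM.Hyp δ` is the four point condition, `Geo H` says that `H` acts properly and coboundedly on
a hyperbolic graph, `RDsq G S Φ` is the squared rapid decay inequality with function `Φ`.
-/

set_option autoImplicit false
open scoped Pointwise

namespace Pool.Agent.H33.RD

/-- An integer valued metric in which any two points are joined by a discrete geodesic. -/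
structure GM (V : Type) where
  d : V → V → ℕ
  self : ∀ x, d x x = 0
  eq0 : ∀ x y, d x y = 0 → x = y
  comm : ∀ x y, d x y = d y x
  tri : ∀ x y z, d x z ≤ d x y + d y z
  geod : ∀ x y k, k ≤ d x y → ∃ z, d x z = k ∧ k + d z y = d x y

/-- The four point condition. -/
def GM.Hyp {V : Type} (M : GM V) (δ : ℕ) : Prop :=
  ∀ x y z w, M.d x y + M.d z w ≤ M.d x z + M.d y w + δ ∨
    M.d x y + M.d z w ≤ M.d x w + M.d y z + δ

/-- `H` acts by isometries, properly and coboundedly, on a hyperbolic graph. -/
def Geo (H : Type) [Group H] : Prop :=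
  ∃ (V : Type) (_ : MulAction H V) (M : GM V) (δ D₀ : ℕ) (x₀ : V),
    (∀ (h : H) (x y : V), M.d (h • x) (h • y) = M.d x y) ∧ M.Hyp δ ∧
    (∀ D : ℕ, {h : H | M.d x₀ (h • x₀) ≤ D}.Finite) ∧ (∀ x : V, ∃ h : H, M.d x (h • x₀) ≤ D₀)

/-- The ball of radius `n` for the (symmetrised) generating set `S`. -/
def ball {G : Type} [Group G] (S : Set G) (n : ℕ) : Set G := (S ∪ S⁻¹ ∪ {1}) ^ n

/-- The squared rapid decay inequality with function `Φ`. -/
def RDsq (G : Type) [Group G] (S : Set G) (Φ : ℕ → ℝ) : Prop :=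
  ∀ (n : ℕ) (f g : G →₀ ℝ), (f.support : Set G) ⊆ ball S n → ∀ F : Finset G,
    ∑ x ∈ F, (∑ y ∈ f.support, f y * g (y⁻¹ * x)) ^ 2 ≤
      Φ n * (∑ y ∈ f.support, f y ^ 2) * (∑ z ∈ g.support, g z ^ 2)

/-- The main geometric theorem (Dehn filling with uniform rapid decay), as a proposition about
one group `H` : for every finite set `S` and every element `g` of infinite order there is a
constant `A` such that for all `m, ρ > 0` there is a multiple `n` of `m` for which
`Q = H / ⟨⟨g ^ n⟩⟩` is again geometric, the kernel meets the `ρ`-ball of `S` trivially and `Q` has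
the squared RD inequality with function `A (1 + r) ^ 6`. -/
def Filling (H : Type) [Group H] : Prop :=
  ∀ (S : Finset H) (g : H), ¬ IsOfFinOrder g → ∃ A : ℝ, ∀ m ρ : ℕ, 0 < m →
    ∃ n : ℕ, 0 < n ∧ m ∣ n ∧ Geo (H ⧸ Subgroup.normalClosure {g ^ n}) ∧
      (∀ ν ∈ Subgroup.normalClosure {g ^ n}, ν ∈ ball (S : Set H) ρ → ν = 1) ∧
      RDsq (H ⧸ Subgroup.normalClosure {g ^ n})
        ((QuotientGroup.mk : H → H ⧸ Subgroup.normalClosure {g ^ n}) '' (S : Set H))
        (fun r => A * (1 + (r : ℝ)) ^ 6)

end Pool.Agent.H33.RD
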