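import Pool.Agent.H33.RD.Family

/-!
# The cone data of a loxodromic element
-/

set_option autoImplicit false

namespace Pool.Agent.H33.RD

section dst

variable {V C : Type} (M : GM V) (Y : C → Set V) (hne : ∀ c, (Y c).Nonempty)

include hne in
theorem dst_ex (a : V) (z : V ⊕ C) : ∃ n, ∃ x, Rep Y z x ∧ M.d a x = n := by
  obtain ⟨x, hx⟩ := Rep_exists Y hne z
  exact ⟨_, x, hx, rfl⟩

open Classical in
/-- distance in `V` from `a` to the representatives of `z` -/
noncomputable def dst (a : V) (z : V ⊕ C) : ℕ := Nat.find (dst_ex M Y hne a z)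

theorem dst_spec (a : V) (z : V ⊕ C) : ∃ x, Rep Y z x ∧ M.d a x = dst M Y hne a z := by
  classical
  exact Nat.find_spec (dst_ex M Y hne a z)

theorem dst_le (a : V) (z : V ⊕ C) {x : V} (hx : Rep Y z x) : dst M Y hne a z ≤ M.d a x := by
  classical
  exact Nat.find_min' (dst_ex M Y hne a z) ⟨x, hx, rfl⟩

end dst

section

variable {H V C : Type} [Group H] [MulAction H V] [MulAction H C] (M : GM V) (Y : C → Set V)
  (hne : ∀ c, (Y c).Nonempty)
  (inv : ∀ (h : H) (x y : V), M.d (h • x) (h • y) = M.d x y)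
  (hY : ∀ (h : H) (p : V) (c : C), p ∈ Y c → h • p ∈ Y (h • c))

include inv hY in
theorem CAdj_smul (h : H) (x y : V ⊕ C) (hxy : CAdj M Y x y) : CAdj M Y (h • x) (h • y) := by
  rcases x with x | c <;> rcases y with y | c'
  · show M.d (h • x) (h • y) = 1
    rw [inv]; exact hxy
  · exact hY h x c' hxy
  · exact hY h y c hxy
  · exact hxy

include inv hY in
theorem coneD_smul (h : H) (x y : V ⊕ C) :
    (coneD M Y hne).d (h • x) (h • y) = (coneD M Y hne).d x y := by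
  apply le_antisymm
  · exact GM.ofAdj_map_le (fun z => h • z) (CAdj_smul M Y inv hY h) x y
  · have := GM.ofAdj_map_le (hs := CAdj_symm M Y) (hc := CAdj_conn M Y hne) (fun z => h⁻¹ • z)
      (CAdj_smul M Y inv hY h⁻¹) (h • x) (h • y)
    simp only [inv_smul_smul] at this
    exact this

include hY in
theorem Rep_smul (h : H) {z : V ⊕ C} {x : V} (hx : Rep Y z x) : Rep Y (h • z) (h • x) := by
  rcases z with y | c
  · have : x = y := hx
    subst this; rfl
  · exact hY h x c hx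

/-- the cone data -/
noncomputable def mkCD (G : C → Subgroup H) (hfix : ∀ (c : C), ∀ s ∈ G c, s • c = c)
    (hconj : ∀ (h : H) (c : C), ∀ s ∈ G c, h * s * h⁻¹ ∈ G (h • c)) : CD H V C where
  X := M
  D := coneD M Y hne
  Y := Y
  G := G
  adj _ _ := coneD_adj M Y hne
  nadj := coneD_nadj M Y hne
  Xinv := inv
  Dinv := coneD_smul M Y hne inv hY
  Yinv := hY
  Gfix := hfix
  Gconj := hconj

variable {δ R : ℕ} (hyp : M.Hyp δ) (hQ : ∀ c, QC M (Y c) R)
  (hO : ∀ c c', c ≠ c' → ∀ y ∈ Y c', ∀ y' ∈ Y c', ∀ p p', IsNear M (Y c) y p →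
    IsNear M (Y c) y' p' → M.d p p' ≤ R)
  {Dh : ℕ} (hDh : ∀ E : ℕ,
      (∀ j : ℕ, 6 * E + 2 ≤ 2 ^ j → E ≤ 2 * δ + j * δ + R + 2) → E ≤ Dh)

include hyp hQ hO hDh in
/-- lower bound for distances passing through `Y c` -/
theorem through {c : C} {z z' : V ⊕ C} {x y p q : V} (hx : Rep Y z x) (hy : Rep Y z' y)
    (hp : p ∈ Ent M Y hne c z) (hq : q ∈ Ent M Y hne c z') :
    M.d p q ≤ R + δ + 2 * cB δ R Dh ∨
      M.d x p + M.d p q + M.d q y ≤ M.d x y + (2 * R + δ + 4 * cB δ R Dh) := by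
  obtain ⟨p', hp'⟩ := exists_near M (hne c) x
  obtain ⟨q', hq'⟩ := exists_near M (hne c) y
  have h1 := Ent_Pr M Y hne hyp hQ hO hDh hp ⟨x, hx, hp'⟩
  have h2 := Ent_Pr M Y hne hyp hQ hO hDh hq ⟨y, hy, hq'⟩
  have t1 := M.tri p p' q
  have t2 := M.tri p' q' q
  have t3 := M.tri x p' p
  have t4 := M.tri q q' y
  rw [M.comm q' q] at t2
  rw [M.comm p' p] at t3
  rcases proj_dich M hyp (hQ c) hp' hq' with h3 | h3
  · left; omega
  · right; omega

include hyp hQ hO hDh in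
theorem mkCD_bgi (G : C → Subgroup H) (hfix : ∀ (c : C), ∀ s ∈ G c, s • c = c)
    (hconj : ∀ (h : H) (c : C), ∀ s ∈ G c, h * s * h⁻¹ ∈ G (h • c)) :
    (mkCD M Y hne inv hY G hfix hconj).BGI (3 * cB δ R Dh) :=
  fun _ _ _ hz hz' h _ hp _ hq => Ent_bgi M Y hne hyp hQ hO hDh hz hz' h hp hq

include hyp hQ hO hDh in
theorem mkCD_shorten (G : C → Subgroup H) (hfix : ∀ (c : C), ∀ s ∈ G c, s • c = c)
    (hconj : ∀ (h : H) (c : C), ∀ s ∈ G c, h * s * h⁻¹ ∈ G (h • c)) :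
    (mkCD M Y hne inv hY G hfix hconj).Shorten (dst M Y hne)
      (2 * R + δ + 4 * cB δ R Dh) := by
  intro a z c hz s hs hle p hp q hq
  obtain ⟨w, hw1, hw2⟩ := dst_spec M Y hne a z
  have hs1 : M.d a (s⁻¹ • w) ≤ M.d a p + M.d (s • p) q + M.d q w := by
    have e : M.d a (s⁻¹ • w) = M.d (s • a) w := by
      rw [← inv s a, smul_inv_smul]
    rw [e]
    have t1 := M.tri (s • a) (s • p) w
    have t2 := M.tri (s • p) q w
    rw [inv] at t1
    omega
  have hs2 := dst_le M Y hne a (s⁻¹ • z) (Rep_smul Y hY s⁻¹ hw1)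
  show M.d p q ≤ M.d (s • p) q + _
  rcases through M Y hne hyp hQ hO hDh (z := Sum.inl a) rfl hw1 hp hq with h | h
  · omega
  · omega

end

end Pool.Agent.H33.RD
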