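import Pool.Agent.H33.RD.Count
import Pool.Agent.H33.RD.MkCD
import Pool.Agent.H42.RD.Windmill

/-!
# Dehn filling with uniform rapid decay
-/

set_option autoImplicit false
open scoped Pointwise

namespace Pool.Agent.H33.RD

theorem geo_congr {H : Type} [Group H] {N N' : Subgroup H} [N.Normal] [hN' : N'.Normal]
    (h : N = N') (hG : Geo (H ⧸ N)) : Geo (H ⧸ N') := by
  subst h; exact hG

theorem rd_congr {H : Type} [Group H] {N N' : Subgroup H} [N.Normal] [hN' : N'.Normal]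
    (h : N = N') {S : Set H} {Φ : ℕ → ℝ}
    (hG : RDsq (H ⧸ N) ((QuotientGroup.mk : H → H ⧸ N) '' S) Φ) :
    RDsq (H ⧸ N') ((QuotientGroup.mk : H → H ⧸ N') '' S) Φ := by
  subst h; exact hG

/-- **Dehn filling.** -/
theorem filling (H : Type) [Group H] (hG : Geo H) : Filling H := by
  classical
  intro S g hg
  obtain ⟨V, _, M, δ, D₀, x₀, inv, hyp, proper, cob⟩ := hG
  obtain ⟨k₁, hk₁, hlox⟩ := exists_lox M inv hyp proper cob g hg
  set f := g ^ k₁ with hf_def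
  have hf : M.d x₀ (f • x₀) + 2 * δ + 1 ≤ M.d x₀ (f ^ 2 • x₀) := by
    rw [hf_def, ← pow_mul, mul_comm k₁ 2]
    exact hlox
  obtain ⟨k, R, hk, hQ, hO⟩ := family M hyp inv f x₀ hf proper
  obtain ⟨Dh, hDh⟩ := exists_close_const δ R
  set Y : H ⧸ Elem f k → Set V := Yf f x₀ k with hY_def
  have hne : ∀ c, (Y c).Nonempty := Yf_nonempty f x₀ k
  have hY : ∀ (h : H) (p : V) (c : H ⧸ Elem f k), p ∈ Y c → h • p ∈ Y (h • c) := Yf_smul f x₀ k
  set cb := cB δ R Dh with hcb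
  set B := 3 * cb with hB
  set c₃ := 2 * R + δ + 4 * cb with hc₃
  set Dk := Dh + (δ + 1) + δ with hDk
  set ca := 2 * (Dh + (δ + 1) + δ) with hca
  set cq := R + 2 * cb with hcq
  set KS : ℕ := S.sup fun s => M.d x₀ (s • x₀) with hKS
  have hSK : ∀ s ∈ (S : Set H), M.d x₀ (s • x₀) ≤ KS := by
    intro s hs
    exact Finset.le_sup (f := fun s => M.d x₀ (s • x₀)) hs
  obtain ⟨K₀, hK₀⟩ := TP_count M hyp inv f x₀ hf proper hk (ca + CD.DR B δ Dk cq + 1)
    (D₀ + CD.DR B δ Dk cq + CD.D3 B δ Dk cq + B) (CD.DR B δ Dk cq + CD.D3 B δ Dk cq + 3 * B)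
  refine ⟨(K₀ * (KS + 1) ^ 2) ^ 3, ?_⟩
  intro m ρ hm
  set K := 8 * B + KS * ρ + 2 * c₃ + (R + δ + 2 * cb) + 1 with hK
  set Θ := 100 * B + 10 * c₃ + 10 * K + 100 with hΘ
  set n' := k * (m * Θ) with hn'
  have hΘ0 : 0 < Θ := by omega
  have hkn : k ∣ n' := Dvd.intro _ rfl
  have hn'pos : 0 < n' := Nat.mul_pos hk (Nat.mul_pos hm hΘ0)
  have hΘn : Θ ≤ n' :=
    (Nat.le_mul_of_pos_left Θ hm).trans (Nat.le_mul_of_pos_left (m * Θ) hk)
  set P : CD H V (H ⧸ Elem f k) := mkCD M Y hne inv hY (Gr f k n') (Gr_fix hkn) (Gr_conj hkn)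
    with hP
  have hbgi : P.BGI B := mkCD_bgi M Y hne inv hY hyp hQ hO hDh (Gr f k n') (Gr_fix hkn)
    (Gr_conj hkn)
  have hsh : P.Shorten (dst M Y hne) c₃ := mkCD_shorten M Y hne inv hY hyp hQ hO hDh (Gr f k n')
    (Gr_fix hkn) (Gr_conj hkn)
  have hrot : P.Rot Θ := by
    intro c s hs hs1 p hp
    exact hΘn.trans (Gr_rot M hyp inv f x₀ hf hkn c s hs hs1 p hp)
  have hred : ∀ a : V, ∀ ν ∈ P.N, P.Red K a ν := windmill P B c₃ K Θ (dst M Y hne) hbgi hsh hrot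
    le_rfl
  have hR : P.RDH B δ Dk ca cq := by
    constructor
    · exact hbgi
    · exact hyp
    · intro p q h
      exact (coneD_adj' M Y hne).1 h
    · intro p q
      exact coneD_le M Y hne p q
    · intro γ L hγ a b ha hb m' hm'
      exact close_lemma' M Y hne hyp hQ hDh hγ (x := a) (y := b) (by rw [ha]; rfl)
        (by rw [hb]; rfl) hm'
    · intro x y m' hm'
      exact coneD_add M Y hne hyp hQ hDh (z := Sum.inl x) (z' := Sum.inl y) rfl rfl hm'
    · intro c a p y hp hy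
      obtain ⟨p', hp'⟩ := exists_near M (hne c) a
      have h1 : M.d p p' ≤ cb := Ent_Pr M Y hne hyp hQ hO hDh hp ⟨a, rfl, hp'⟩
      have h2 := hQ c a p' hp' y hy
      have t1 := M.tri a p' p
      have t2 := M.tri p p' y
      rw [M.comm p' p] at t1
      show M.d a p + M.d p y ≤ M.d a y + cq
      omega
  have hNn : P.N.Normal := P.N_normal
  have hNeq : P.N = Subgroup.normalClosure {g ^ (k₁ * n')} := by
    have h1 := closure_Gr (f := f) hkn
    rw [hf_def, ← pow_mul] at h1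
    exact h1
  refine ⟨k₁ * n', Nat.mul_pos hk₁ hn'pos, ?_, ?_, ?_, ?_⟩
  · exact Dvd.dvd.mul_left (Dvd.dvd.mul_left (Dvd.intro _ rfl) k) k₁
  · refine geo_congr hNeq ?_
    exact P.geo_quot x₀ hbgi (K := K) (by omega) hred
      (coneD_hyp M Y hne hyp hQ hDh) (D₀ := D₀)
      (Gr_cob M hyp inv f x₀ hf hk hn'pos hkn) hR.X1 hR.DleX proper cob
  · intro ν hν hball
    rw [← hNeq] at hν
    have h1 : M.d x₀ (ν • x₀) ≤ KS * ρ := ball_disp inv hSK ρ ν hball
    cases hred x₀ ν hν with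
    | one => rfl
    | step _ c s hs hbig _ =>
      exfalso
      obtain ⟨p, hp⟩ := P.E_nemp (c := c) (z := Sum.inl x₀) (CD.inr_ne_inl _ _)
      obtain ⟨q, hq⟩ := P.E_nemp (c := c) (z := Sum.inl (ν • x₀)) (CD.inr_ne_inl _ _)
      have h2 : K < M.d p q := hbig p hp q hq
      rcases through M Y hne hyp hQ hO hDh (z := Sum.inl x₀) (z' := Sum.inl (ν • x₀)) (x := x₀)
        (y := ν • x₀) rfl rfl hp hq with h3 | h3
      · omega
      · omega
  · have h1 := CD.quot_rd (P := P) hR (K := K) (by omega) hred (x₀ := x₀) (D₀ := D₀) cob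
      (hK₀ P rfl rfl) (S := (S : Set H)) hSK
    exact rd_congr hNeq h1

end Pool.Agent.H33.RD
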