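import Pool.Agent.H33.RD.Defs

/-!
# The word metric of a free group is 0-hyperbolic (by helper36)
-/

namespace Pool.Agent.H33.RD.Fr

open Pool.Agent.H33.RD FreeGroup

variable {α : Type} [DecidableEq α]

/-- The length of the longest common initial segment. -/
def lcp : List (α × Bool) → List (α × Bool) → ℕ
  | a :: l, b :: m => if a = b then lcp l m + 1 else 0
  | [], _ => 0
  | _ :: _, [] => 0

lemma lcp_cons (a b : α × Bool) (l m : List (α × Bool)) :
    lcp (a :: l) (b :: m) = if a = b then lcp l m + 1 else 0 := rfl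

lemma lcp_nil_left (m : List (α × Bool)) : lcp [] m = 0 := by
  rw [lcp]

lemma lcp_nil_right (l : List (α × Bool)) : lcp l [] = 0 := by
  rcases l with _ | ⟨a, l⟩ <;> rfl

lemma min_lcp_le : ∀ p l m : List (α × Bool), min (lcp l p) (lcp p m) ≤ lcp l m
  | [], l, m => by rw [lcp_nil_right]; simp
  | c :: p, [], m => by rw [lcp_nil_left]; simp
  | c :: p, a :: l, [] => by rw [lcp_nil_right (c :: p)]; simp
  | c :: p, a :: l, b :: m => by
    rw [lcp_cons, lcp_cons, lcp_cons]
    by_cases h1 : a = c
    · by_cases h2 : c = b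
      · rw [if_pos h1, if_pos h2, if_pos (h1.trans h2)]
        have := min_lcp_le p l m
        omega
      · rw [if_neg h2]; simp
    · rw [if_neg h1]; simp

lemma isReduced_invRev {l : List (α × Bool)} (h : IsReduced l) : IsReduced (invRev l) := by
  rw [isReduced_iff_reduce_eq] at *
  rw [reduce_invRev, h]

lemma norm_mk_of_isReduced {l : List (α × Bool)} (h : IsReduced l) : norm (mk l) = l.length := by
  rw [FreeGroup.norm, toWord_mk, isReduced_iff_reduce_eq.mp h]

lemma norm_inv_mul_mk : ∀ l m : List (α × Bool), IsReduced l → IsReduced m →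
    norm ((mk l)⁻¹ * mk m) + 2 * lcp l m = l.length + m.length
  | [], m, _, hm => by
    rw [lcp_nil_left, ← one_eq_mk, inv_one, one_mul, norm_mk_of_isReduced hm]
    simp
  | a :: l, [], hl, _ => by
    rw [lcp_nil_right, ← one_eq_mk, mul_one, norm_inv_eq, norm_mk_of_isReduced hl]
    simp
  | a :: l, b :: m, hl, hm => by
    have hl' : IsReduced l := List.IsChain.tail hl
    have hm' : IsReduced m := List.IsChain.tail hm
    have e : ∀ (c : α × Bool) (p : List (α × Bool)), mk (c :: p) = mk [c] * mk p := by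
      intro c p
      rw [mul_mk]; rfl
    rw [lcp_cons]
    by_cases hab : a = b
    · subst hab
      rw [if_pos rfl, e a l, e a m]
      have h1 : (mk [a] * mk l)⁻¹ * (mk [a] * mk m) = (mk l)⁻¹ * mk m := by group
      rw [h1]
      have := norm_inv_mul_mk l m hl' hm'
      simp only [List.length_cons]
      omega
    · rw [if_neg hab, inv_mk, mul_mk]
      have h2 : invRev (a :: l) = invRev l ++ [(a.1, !a.2)] := by
        simp [invRev]
      have h3 : IsReduced (invRev (a :: l) ++ (b :: m)) := by
        rw [h2]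
        refine IsReduced.append_overlap ?_ ?_ (by simp)
        · rw [← h2]; exact isReduced_invRev hl
        · rw [List.singleton_append, FreeGroup.IsReduced, List.isChain_cons_cons]
          refine ⟨fun h => ?_, hm⟩
          have h4 : a.2 ≠ b.2 := fun h5 => hab (Prod.ext h h5)
          revert h4
          cases a.2 <;> cases b.2 <;> simp
      rw [norm_mk_of_isReduced h3]
      simp [invRev]
      omega

lemma norm_inv_mul (x y : FreeGroup α) :
    norm (x⁻¹ * y) + 2 * lcp x.toWord y.toWord = norm x + norm y := by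
  have h := norm_inv_mul_mk x.toWord y.toWord isReduced_toWord isReduced_toWord
  rwa [mk_toWord, mk_toWord] at h

/-- The word metric. -/
def fgm (α : Type) [DecidableEq α] : GM (FreeGroup α) where
  d x y := norm (x⁻¹ * y)
  self x := by rw [inv_mul_cancel, FreeGroup.norm_one]
  eq0 x y h := by
    rw [FreeGroup.norm_eq_zero] at h
    exact (inv_mul_eq_one.mp h)
  comm x y := by
    rw [← norm_inv_eq]
    congr 1
    group
  tri x y z := by
    have : x⁻¹ * z = (x⁻¹ * y) * (y⁻¹ * z) := by group
    rw [this]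
    exact norm_mul_le _ _
  geod x y k hk := by
    set w := (x⁻¹ * y).toWord with hw
    have hwr : IsReduced w := isReduced_toWord
    have hsplit : mk (w.take k) * mk (w.drop k) = x⁻¹ * y := by
      rw [mul_mk, List.take_append_drop, hw, mk_toWord]
    refine ⟨x * mk (w.take k), ?_, ?_⟩
    · have : x⁻¹ * (x * mk (w.take k)) = mk (w.take k) := by group
      rw [this, norm_mk_of_isReduced (List.IsChain.take hwr k),
        List.length_take]
      exact min_eq_left hk
    · have : (x * mk (w.take k))⁻¹ * y = mk (w.drop k) := by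
        rw [mul_inv_rev, mul_assoc, ← hsplit]
        group
      rw [this, norm_mk_of_isReduced (List.IsChain.drop hwr k),
        List.length_drop]
      have hk' : k ≤ w.length := hk
      have hn : norm (x⁻¹ * y) = w.length := rfl
      rw [hn]
      omega

theorem hyp_fgm : (fgm α).Hyp 0 := by
  intro x y z w
  have key : ∀ a b : FreeGroup α, (fgm α).d a b = norm ((w⁻¹ * a)⁻¹ * (w⁻¹ * b)) := by
    intro a b
    show norm (a⁻¹ * b) = _
    congr 1
    group
  have hw : ∀ a : FreeGroup α, (fgm α).d a w = norm (w⁻¹ * a) := by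
    intro a
    rw [(fgm α).comm]
    rfl
  have h1 := norm_inv_mul (w⁻¹ * x) (w⁻¹ * y)
  have h2 := norm_inv_mul (w⁻¹ * x) (w⁻¹ * z)
  have h3 := norm_inv_mul (w⁻¹ * y) (w⁻¹ * z)
  have h4 := min_lcp_le (w⁻¹ * z).toWord (w⁻¹ * x).toWord (w⁻¹ * y).toWord
  have h5 := norm_inv_mul (w⁻¹ * z) (w⁻¹ * y)
  have h6 : norm ((w⁻¹ * z)⁻¹ * (w⁻¹ * y)) = norm ((w⁻¹ * y)⁻¹ * (w⁻¹ * z)) := by
    rw [← norm_inv_eq]
    congr 1
    group
  rw [key x y, key x z, key y z, hw x, hw y, hw z]
  omega

end Pool.Agent.H33.RD.Fr

namespace Pool.Agent.H33.RD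

open FreeGroup Pool.Agent.H33.RD.Fr

/-- Finitely generated free groups are geometric. -/
theorem geo_freeGroup (n : ℕ) : Geo (FreeGroup (Fin n)) := by
  refine ⟨FreeGroup (Fin n), inferInstance, fgm (Fin n), 0, 0, 1, ?_, hyp_fgm, ?_, ?_⟩
  · intro h x y
    show norm ((h * x)⁻¹ * (h * y)) = norm (x⁻¹ * y)
    congr 1
    group
  · intro D
    have h1 : {l : List (Fin n × Bool) | l.length ≤ D}.Finite := List.finite_length_le _ _
    refine (h1.preimage (toWord_injective.injOn)).subset ?_
    intro h hh
    have e : (fgm (Fin n)).d 1 (h • 1) = norm h := by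
      show norm (1⁻¹ * (h * 1)) = norm h
      simp
    rw [Set.mem_ofPred_eq, e] at hh
    exact hh
  · intro x
    refine ⟨x, le_of_eq ?_⟩
    show norm (x⁻¹ * (x * 1)) = 0
    simp

end Pool.Agent.H33.RD
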