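import Pool.Agent.H33.RD.Lift

/-!
# The quotient acts geometrically on the quotient of the coned-off graph
-/

set_option autoImplicit false

namespace Pool.Agent.H33.RD

namespace CD

variable {H V C : Type} [Group H] [MulAction H V] [MulAction H C] (P : CD H V C)

/-- any cyclic sequence of points gives a polygon -/
theorem exists_poly (pt : ℕ → V ⊕ C) (k : ℕ) (hk : 0 < k) (hpt : pt k = pt 0) :
    ∃ (side : ℕ → ℕ → V ⊕ C) (len : ℕ → ℕ) (ν : H), ν ∈ P.N ∧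
      P.Poly k side len (pt 0) (ν • pt 0) ∧
      (∀ i, len i = qd P.D P.N (pt i) (pt (i + 1))) ∧
      (∀ i, ∃ κ ∈ P.N, side i 0 = κ • pt i) := by
  classical
  choose μ hμN hμ using fun x y : V ⊕ C => qd_spec P.D P.N x y
  choose geo g0 g1 hgeo using fun x y : V ⊕ C => P.D.exists_geod x y
  let b : ℕ → V ⊕ C := fun n => Nat.rec (pt 0) (fun i z => μ z (pt (i + 1)) • pt (i + 1)) n
  have hb0 : b 0 = pt 0 := rfl
  have hbs : ∀ i, b (i + 1) = μ (b i) (pt (i + 1)) • pt (i + 1) := fun i => rfl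
  have hbN : ∀ i, ∃ κ ∈ P.N, b i = κ • pt i := by
    intro i
    cases i with
    | zero => exact ⟨1, P.N.one_mem, by rw [one_smul]; rfl⟩
    | succ i => exact ⟨_, hμN _ _, hbs i⟩
  have hlen : ∀ i, P.D.d (b i) (b (i + 1)) = qd P.D P.N (pt i) (pt (i + 1)) := by
    intro i
    rw [hbs, hμ]
    obtain ⟨κ, hκ, e⟩ := hbN i
    rw [e, qd_smul_left P.D P.N P.Dinv hκ]
  obtain ⟨κ, hκ, hend⟩ := hbN k
  refine ⟨fun i => geo (b i) (b (i + 1)), fun i => P.D.d (b i) (b (i + 1)), κ, hκ, ?_, hlen, ?_⟩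
  · constructor
    · exact g0 _ _
    · intro i _
      show geo (b i) (b (i + 1)) (P.D.d (b i) (b (i + 1))) = geo (b (i + 1)) (b (i + 1 + 1)) 0
      rw [g1, g0]
    · show geo (b (k - 1)) (b (k - 1 + 1)) (P.D.d (b (k - 1)) (b (k - 1 + 1))) = _
      rw [g1, Nat.sub_add_cancel hk, hend, hpt]
    · intro i _ t ht
      show P.D.d (geo (b i) (b (i + 1)) t) (geo (b i) (b (i + 1)) (t + 1)) ≤ 1
      rw [hgeo (b i) (b (i + 1)) t (t + 1) (by omega) (by exact ht)]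
      omega
    · intro i _ t t' htt ht'
      show qd P.D P.N (geo (b i) (b (i + 1)) t) (geo (b i) (b (i + 1)) t') = t' - t
      have ht'' : t' ≤ P.D.d (b i) (b (i + 1)) := ht'
      have hg := hgeo (b i) (b (i + 1))
      have a1 := hg t t' htt ht''
      have a2 := qd_le_d P.D P.N (geo (b i) (b (i + 1)) t) (geo (b i) (b (i + 1)) t')
      have a3 := qd_le_d P.D P.N (geo (b i) (b (i + 1)) 0) (geo (b i) (b (i + 1)) t)
      have a4 := qd_le_d P.D P.N (geo (b i) (b (i + 1)) t')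
        (geo (b i) (b (i + 1)) (P.D.d (b i) (b (i + 1))))
      have a5 := hg 0 t (by omega) (by omega)
      have a6 := hg t' _ ht'' le_rfl
      have a7 := qd_tri P.D P.N P.Dinv (geo (b i) (b (i + 1)) 0) (geo (b i) (b (i + 1)) t)
        (geo (b i) (b (i + 1)) (P.D.d (b i) (b (i + 1))))
      have a8 := qd_tri P.D P.N P.Dinv (geo (b i) (b (i + 1)) t) (geo (b i) (b (i + 1)) t')
        (geo (b i) (b (i + 1)) (P.D.d (b i) (b (i + 1))))
      have a9 : qd P.D P.N (geo (b i) (b (i + 1)) 0)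
          (geo (b i) (b (i + 1)) (P.D.d (b i) (b (i + 1)))) = P.D.d (b i) (b (i + 1)) := by
        rw [g0, g1, hbs, qd_smul_right P.D P.N (hμN _ _), hμ]
      omega
  · intro i
    show ∃ κ ∈ P.N, geo (b i) (b (i + 1)) 0 = κ • pt i
    rw [g0]
    exact hbN i

/-- lifting cyclic sequences of points with exact distances -/
theorem lift_points {B : ℕ} (hB : P.BGI B) {k : ℕ} (hk : 0 < k) {K : ℕ} (hK : k * (2 * B) ≤ K)
    {a : V} (hred : ∀ ν ∈ P.N, P.Red K a ν) (pt : ℕ → V ⊕ C) (h0 : pt 0 = Sum.inl a)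
    (hpt : pt k = pt 0) :
    ∃ c : ℕ → V ⊕ C, c 0 = Sum.inl a ∧ c k = Sum.inl a ∧
      (∀ i ≤ k, ∃ κ ∈ P.N, c i = κ • pt i) ∧
      (∀ i < k, P.D.d (c i) (c (i + 1)) = qd P.D P.N (pt i) (pt (i + 1))) := by
  classical
  obtain ⟨side, len, ν, hν, hpoly, hlen, hside⟩ := P.exists_poly pt k hk hpt
  rw [h0] at hpoly
  obtain ⟨side', h1, h2, _⟩ := P.lift_poly hB hk hK (hred ν hν) len side hpoly
  refine ⟨fun i => if i < k then side' i 0 else Sum.inl a, ?_, by simp, ?_, ?_⟩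
  · simp only [hk, if_true]; exact h1.start
  · intro i hi
    by_cases hik : i < k
    · simp only [hik, if_true]
      obtain ⟨κ, hκ, e1⟩ := h2 i hik 0 (Nat.zero_le _)
      obtain ⟨κ', hκ', e2⟩ := hside i
      exact ⟨κ * κ', P.N.mul_mem hκ hκ', by rw [e1, e2, mul_smul]⟩
    · have : i = k := by omega
      subst this
      simp only [lt_irrefl, if_false]
      exact ⟨1, P.N.one_mem, by rw [one_smul, hpt, h0]⟩
  · intro i hi
    have hg := h1.isGeod hi 0 (len i) (Nat.zero_le _) le_rfl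
    rw [Nat.sub_zero] at hg
    simp only [hi, if_true]
    rw [← hlen i, ← hg]
    congr 1
    by_cases hik : i + 1 < k
    · simp only [hik, if_true]
      exact (h1.junction i hik).symm
    · have : i + 1 = k := by omega
      simp only [hik, if_false]
      have e : i = k - 1 := by omega
      rw [e]; exact h1.finish.symm

/-- four point condition for points of `V` in the quotient -/
theorem qd_hyp_V {B : ℕ} (hB : P.BGI B) {K : ℕ} (hK : 4 * (2 * B) ≤ K)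
    (hred : ∀ a : V, ∀ ν ∈ P.N, P.Red K a ν) {δ : ℕ} (hyp : P.D.Hyp δ) (x y z w : V) :
    qd P.D P.N (Sum.inl x) (Sum.inl y) + qd P.D P.N (Sum.inl z) (Sum.inl w) ≤
      qd P.D P.N (Sum.inl x) (Sum.inl z) + qd P.D P.N (Sum.inl y) (Sum.inl w) + δ ∨
    qd P.D P.N (Sum.inl x) (Sum.inl y) + qd P.D P.N (Sum.inl z) (Sum.inl w) ≤
      qd P.D P.N (Sum.inl x) (Sum.inl w) + qd P.D P.N (Sum.inl y) (Sum.inl z) + δ := by
  obtain ⟨c, c0, c4, hc, hd⟩ := P.lift_points hB (k := 4) (by norm_num) hK (a := x) (hred x)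
    (fun i => if i = 1 then Sum.inl z else if i = 2 then Sum.inl y else if i = 3 then Sum.inl w
      else Sum.inl x) (by simp) (by simp)
  have d0 := hd 0 (by norm_num)
  have d1 := hd 1 (by norm_num)
  have d2 := hd 2 (by norm_num)
  have d3 := hd 3 (by norm_num)
  simp at d0 d1 d2 d3
  rw [c0] at d0
  rw [c4] at d3
  obtain ⟨κ1, hκ1, e1⟩ := hc 1 (by norm_num)
  obtain ⟨κ2, hκ2, e2⟩ := hc 2 (by norm_num)
  obtain ⟨κ3, hκ3, e3⟩ := hc 3 (by norm_num)
  simp at e1 e2 e3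
  have hy : qd P.D P.N (Sum.inl x) (Sum.inl y) ≤ P.D.d (Sum.inl x) (c 2) := by
    rw [e2]; exact qd_le P.D P.N hκ2
  have hzw : qd P.D P.N (Sum.inl z) (Sum.inl w) ≤ P.D.d (c 1) (c 3) := by
    have := qd_le_d P.D P.N (c 1) (c 3)
    rw [e1, e3, ← smul_inl, ← smul_inl, qd_smul_left P.D P.N P.Dinv hκ1,
      qd_smul_right P.D P.N hκ3] at this
    rw [e1, e3]
    exact this
  have h4 := hyp (Sum.inl x) (c 2) (c 1) (c 3)
  rw [qd_comm P.D P.N P.Dinv (Sum.inl z) (Sum.inl y)] at d1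
  rw [qd_comm P.D P.N P.Dinv (Sum.inl w) (Sum.inl x)] at d3
  rw [P.D.comm (c 3) (Sum.inl x)] at d3
  rw [P.D.comm (c 1) (c 2)] at d1
  omega

theorem near_V (v : V) (z : V ⊕ C) : ∃ x : V, P.D.d z (Sum.inl x) ≤ 1 := by
  rcases z with x | c
  · exact ⟨x, by rw [P.D.self]; omega⟩
  · obtain ⟨p, hp⟩ := P.E_nemp (c := c) (z := Sum.inl v) (inr_ne_inl _ _)
    refine ⟨p, ?_⟩
    rw [P.D.comm, (P.adj p c).2 hp.1]

/-- four point condition in the quotient -/
theorem qd_hyp (v : V) {B : ℕ} (hB : P.BGI B) {K : ℕ} (hK : 4 * (2 * B) ≤ K)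
    (hred : ∀ a : V, ∀ ν ∈ P.N, P.Red K a ν) {δ : ℕ} (hyp : P.D.Hyp δ) (x y z w : V ⊕ C) :
    qd P.D P.N x y + qd P.D P.N z w ≤ qd P.D P.N x z + qd P.D P.N y w + (δ + 8) ∨
    qd P.D P.N x y + qd P.D P.N z w ≤ qd P.D P.N x w + qd P.D P.N y z + (δ + 8) := by
  obtain ⟨x', hx⟩ := P.near_V v x
  obtain ⟨y', hy⟩ := P.near_V v y
  obtain ⟨z', hz⟩ := P.near_V v z
  obtain ⟨w', hw⟩ := P.near_V v w
  have key : ∀ {a b a' b' : V ⊕ C}, P.D.d a a' ≤ 1 → P.D.d b b' ≤ 1 →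
      qd P.D P.N a b ≤ qd P.D P.N a' b' + 2 := by
    intro a b a' b' ha hb
    have h1 := qd_le_d P.D P.N a a'
    have h2 := qd_le_d P.D P.N b b'
    have t1 := qd_tri P.D P.N P.Dinv a a' b
    have t2 := qd_tri P.D P.N P.Dinv a' b' b
    rw [qd_comm P.D P.N P.Dinv b' b] at t2
    omega
  have hx' := hx
  have hy' := hy
  have hz' := hz
  have hw' := hw
  rw [P.D.comm] at hx' hy' hz' hw'
  have h0 := P.qd_hyp_V hB hK hred hyp x' y' z' w'
  have e1 := key hx hy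
  have e2 := key hz hw
  have e3 := key hx' hz'
  have e4 := key hy' hw'
  have e5 := key hx' hw'
  have e6 := key hy' hz'
  omega

/-- the quotient distance of `V` is bounded in terms of the quotient distance of the coned-off
graph -/
theorem qd_X_le {Θ : ℕ}
    (hcob : ∀ (c : C) (p q : V), p ∈ P.Y c → q ∈ P.Y c → ∃ s ∈ P.G c, P.X.d p (s • q) ≤ Θ)
    (hX1 : ∀ p q : V, P.D.d (Sum.inl p) (Sum.inl q) = 1 → P.X.d p q = 1) :
    ∀ (n : ℕ) (x y : V), P.D.d (Sum.inl x) (Sum.inl y) ≤ n → qd P.X P.N x y ≤ (Θ + 1) * n := by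
  intro n
  induction n using Nat.strong_induction_on with
  | _ n ih =>
    intro x y hxy
    rcases Nat.eq_zero_or_pos (P.D.d (Sum.inl x) (Sum.inl y)) with h0 | h0
    · have := Sum.inl_injective (P.D.eq0 _ _ h0)
      rw [this, qd_self]; omega
    · obtain ⟨v, h1, h2⟩ := P.D.geod (Sum.inl x) (Sum.inl y) 1 h0
      rcases v with x' | c
      · have h3 := ih (n - 1) (by omega) x' y (by omega)
        have h4 := hX1 x x' h1
        have h5 := qd_le_d P.X P.N x x'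
        have h6 := qd_tri P.X P.N P.Xinv x x' y
        have e : (Θ + 1) * n = (Θ + 1) * (n - 1) + (Θ + 1) := by
          obtain ⟨m, rfl⟩ : ∃ m, n = m + 1 := ⟨n - 1, by omega⟩
          rw [Nat.add_sub_cancel]; ring
        omega
      · have h0' : P.D.d (Sum.inr c) (Sum.inl y) ≠ 0 := by
          intro h
          exact inr_ne_inl _ _ (P.D.eq0 _ _ h).symm
        obtain ⟨v, h3, h4⟩ := P.D.geod (Sum.inr c) (Sum.inl y) 1 (by omega)
        rcases v with x' | c'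
        · have hx : x ∈ P.Y c := (P.adj x c).1 h1
          have hx' : x' ∈ P.Y c := by rw [← P.adj, P.D.comm]; exact h3
          obtain ⟨s, hs, hs2⟩ := hcob c x x' hx hx'
          have h5 := qd_le P.X P.N (x := x) (y := x') (P.G_le_N hs)
          have h6 := ih (n - 2) (by omega) x' y (by omega)
          have h7 := qd_tri P.X P.N P.Xinv x x' y
          have e : (Θ + 1) * n = (Θ + 1) * (n - 2) + 2 * (Θ + 1) := by
            obtain ⟨m, rfl⟩ : ∃ m, n = m + 2 := ⟨n - 2, by omega⟩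
            rw [Nat.add_sub_cancel]; ring
          omega
        · exact absurd h3 (P.nadj c c')

/-- **The quotient group acts geometrically.** -/
theorem geo_quot [hN : P.N.Normal] (x₀ : V) {B : ℕ} (hB : P.BGI B) {K : ℕ} (hK : 4 * (2 * B) ≤ K)
    (hred : ∀ a : V, ∀ ν ∈ P.N, P.Red K a ν) {δ : ℕ} (hyp : P.D.Hyp δ) {Θ D₀ : ℕ}
    (hcob : ∀ (c : C) (p q : V), p ∈ P.Y c → q ∈ P.Y c → ∃ s ∈ P.G c, P.X.d p (s • q) ≤ Θ)
    (hX1 : ∀ p q : V, P.D.d (Sum.inl p) (Sum.inl q) = 1 → P.X.d p q = 1)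
    (hle : ∀ p q : V, P.D.d (Sum.inl p) (Sum.inl q) ≤ P.X.d p q)
    (proper : ∀ D : ℕ, {h : H | P.X.d x₀ (h • x₀) ≤ D}.Finite)
    (cob : ∀ x : V, ∃ h : H, P.X.d x (h • x₀) ≤ D₀) : Geo (H ⧸ P.N) := by
  refine ⟨Orb (V ⊕ C) P.N, orbAction P.N, qGM P.D P.N P.Dinv, δ + 8, D₀ + 1, orb P.N (Sum.inl x₀),
    ?_, ?_, ?_, ?_⟩
  · intro q x y
    exact qGM_inv P.D P.N P.Dinv q x y
  · intro a b c d
    obtain ⟨x, rfl⟩ := orb_surj P.N a
    obtain ⟨y, rfl⟩ := orb_surj P.N b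
    obtain ⟨z, rfl⟩ := orb_surj P.N c
    obtain ⟨w, rfl⟩ := orb_surj P.N d
    exact P.qd_hyp x₀ hB hK hred hyp x y z w
  · intro D
    refine ((proper ((Θ + 1) * D)).image (QuotientGroup.mk : H → H ⧸ P.N)).subset ?_
    intro q hq
    obtain ⟨h, rfl⟩ := QuotientGroup.mk_surjective q
    rw [Set.mem_ofPred_eq] at hq
    have h1 : qd P.D P.N (Sum.inl x₀) (h • (Sum.inl x₀)) ≤ D := hq
    obtain ⟨ν, hν, h2⟩ := qd_spec P.D P.N (Sum.inl x₀) (h • (Sum.inl x₀ : V ⊕ C))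
    rw [smul_inl, smul_inl] at h2
    have h3 := P.qd_X_le hcob hX1 D x₀ (ν • h • x₀) (by rw [h2]; exact h1)
    rw [qd_smul_right P.X P.N hν] at h3
    obtain ⟨μ, hμ, h4⟩ := qd_spec P.X P.N x₀ (h • x₀)
    refine ⟨μ * h, ?_, ?_⟩
    · rw [Set.mem_ofPred_eq, mul_smul, h4]; exact h3
    · rw [QuotientGroup.eq]
      have e : (μ * h)⁻¹ * h = h⁻¹ * μ⁻¹ * h⁻¹⁻¹ := by group
      rw [e]
      exact hN.conj_mem _ (P.N.inv_mem hμ) h⁻¹
  · intro z
    obtain ⟨w, rfl⟩ := orb_surj P.N z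
    obtain ⟨x, hx⟩ := P.near_V x₀ w
    obtain ⟨h, hh⟩ := cob x
    refine ⟨(h : H ⧸ P.N), ?_⟩
    show qd P.D P.N w (h • (Sum.inl x₀)) ≤ D₀ + 1
    rw [smul_inl]
    have h1 := qd_le_d P.D P.N w (Sum.inl (h • x₀))
    have h2 := P.D.tri w (Sum.inl x) (Sum.inl (h • x₀))
    have h3 := hle x (h • x₀)
    omega

end CD

end Pool.Agent.H33.RD
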