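import Pool.Agent.H33.RD.Quot
import Pool.Agent.H33.RD.Cone

/-!
# Lifting polygons from the quotient of the coned-off graph
-/

set_option autoImplicit false

namespace Pool.Agent.H33.RD

namespace CD

variable {H V C : Type} [Group H] [MulAction H V] [MulAction H C] (P : CD H V C)

theorem inr_ne_inl {α β : Type} (a : α) (b : β) : (Sum.inl a : α ⊕ β) ≠ Sum.inr b := by simp

theorem E_nemp {c : C} {z : V ⊕ C} (hz : z ≠ Sum.inr c) : (P.E c z).Nonempty := by
  have h0 : P.D.d (Sum.inr c) z ≠ 0 := fun h => hz (P.D.eq0 _ _ h).symm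
  obtain ⟨w, h1, h2⟩ := P.D.geod (Sum.inr c) z 1 (by omega)
  rcases w with p | c'
  · refine ⟨p, ?_, ?_⟩
    · rw [← P.adj, P.D.comm]; exact h1
    · rw [P.D.comm z, P.D.comm z]; omega
  · exact absurd h1 (P.nadj c c')

theorem E_smul {c : C} {z : V ⊕ C} {p : V} (h : H) (hp : p ∈ P.E c z) :
    h • p ∈ P.E (h • c) (h • z) := by
  refine ⟨P.Yinv h p c hp.1, ?_⟩
  have e1 := P.Dinv h z (Sum.inl p)
  have e2 := P.Dinv h z (Sum.inr c)
  have := hp.2
  show P.D.d (h • z) (h • (Sum.inl p)) + 1 = P.D.d (h • z) (h • (Sum.inr c))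
  omega

theorem smul_inr (h : H) (c : C) : h • (Sum.inr c : V ⊕ C) = Sum.inr (h • c) := rfl

theorem smul_inl (h : H) (x : V) : h • (Sum.inl x : V ⊕ C) = Sum.inl (h • x) := rfl

theorem N_normal : P.N.Normal := by
  constructor
  intro s hs g
  unfold N at hs ⊢
  induction hs using Subgroup.closure_induction with
  | mem x hx =>
    obtain ⟨c, hc⟩ := hx
    exact Subgroup.subset_closure ⟨g • c, P.Gconj g c x hc⟩
  | one => simp
  | mul x y _ _ hx hy =>
    have : g * (x * y) * g⁻¹ = (g * x * g⁻¹) * (g * y * g⁻¹) := by group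
    rw [this]; exact Subgroup.mul_mem _ hx hy
  | inv x _ hx =>
    have : g * x⁻¹ * g⁻¹ = (g * x * g⁻¹)⁻¹ := by group
    rw [this]; exact Subgroup.inv_mem _ hx

theorem G_le_N {c : C} {s : H} (hs : s ∈ P.G c) : s ∈ P.N := Subgroup.subset_closure ⟨c, hs⟩

section

variable {B : ℕ} (hB : P.BGI B)

include hB

theorem E_dia {c : C} {z : V ⊕ C} {p q : V} (hp : p ∈ P.E c z) (hq : q ∈ P.E c z) :
    P.X.d p q ≤ B := by
  have hz : z ≠ Sum.inr c := by
    rintro rfl
    have := hp.2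
    rw [P.D.self] at this; omega
  have h0 : P.D.d z (Sum.inr c) ≠ 0 := fun h => hz (P.D.eq0 _ _ h)
  exact hB c z z hz hz (by rw [P.D.self]; omega) p hp q hq

/-- a geodesic missing the cone point has small angle there -/
theorem path_bgi {γ : ℕ → V ⊕ C} {L : ℕ} (hγ : IsGeod P.D γ L) {c : C}
    (hc : ∀ t ≤ L, γ t ≠ Sum.inr c) {p q : V} (hp : p ∈ P.E c (γ 0)) (hq : q ∈ P.E c (γ L)) :
    P.X.d p q ≤ 2 * B := by
  have hL := hγ 0 L (by omega) le_rfl
  rw [Nat.sub_zero] at hL
  by_cases h : P.D.d (γ 0) (γ L) < P.D.d (γ 0) (Sum.inr c) + P.D.d (Sum.inr c) (γ L)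
  · have := hB c _ _ (hc 0 (by omega)) (hc L le_rfl) h p hp q hq
    omega
  · have ht := P.D.tri (γ 0) (Sum.inr c) (γ L)
    set i := P.D.d (γ 0) (Sum.inr c) with hi
    have hiL : i ≤ L := by omega
    have a1 := hγ 0 i (by omega) hiL
    have a2 := hγ i L hiL le_rfl
    have hne := hc i hiL
    have h0 : P.D.d (γ i) (Sum.inr c) ≠ 0 := fun h => hne (P.D.eq0 _ _ h)
    obtain ⟨e, he⟩ := P.E_nemp hne
    have b1 := hB c _ _ (hc 0 (by omega)) hne (by rw [P.D.comm (Sum.inr c)]; omega) p hp e he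
    have b2 := hB c _ _ hne (hc L le_rfl) (by omega) e he q hq
    have := P.X.tri p e q
    omega

end

/-- Polygons with `k` sides, geodesic in the quotient by `N`. -/
structure Poly (k : ℕ) (side : ℕ → ℕ → V ⊕ C) (len : ℕ → ℕ) (a b : V ⊕ C) : Prop where
  start : side 0 0 = a
  junction : ∀ i, i + 1 < k → side i (len i) = side (i + 1) 0
  finish : side (k - 1) (len (k - 1)) = b
  edge : ∀ i < k, ∀ t < len i, P.D.d (side i t) (side i (t + 1)) ≤ 1
  geod : ∀ i < k, ∀ t t', t ≤ t' → t' ≤ len i → qd P.D P.N (side i t) (side i t') = t' - t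

variable {P} in
theorem Poly.isGeod {k : ℕ} {side : ℕ → ℕ → V ⊕ C} {len : ℕ → ℕ} {a b : V ⊕ C}
    (h : P.Poly k side len a b) {i : ℕ} (hi : i < k) : IsGeod P.D (side i) (len i) := by
  intro t t' htt ht'
  have h1 := h.geod i hi t t' htt ht'
  have h2 := qd_le_d P.D P.N (side i t) (side i t')
  have h3 : ∀ n, t + n ≤ len i → P.D.d (side i t) (side i (t + n)) ≤ n := by
    intro n
    induction n with
    | zero => intro _; rw [add_zero, P.D.self]
    | succ n ih =>
      intro hn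
      have e1 := ih (by omega)
      have e2 := h.edge i hi (t + n) (by omega)
      have e3 := P.D.tri (side i t) (side i (t + n)) (side i (t + n + 1))
      rw [← add_assoc]
      omega
  have h4 := h3 (t' - t) (by omega)
  rw [Nat.add_sub_cancel' htt] at h4
  omega

variable {P} in
/-- a polygon with large angle at `c` between its end points passes through `c` -/
theorem Poly.passes {B : ℕ} (hB : P.BGI B) {k : ℕ} (hk : 0 < k)
    {side : ℕ → ℕ → V ⊕ C} {len : ℕ → ℕ} {a b : V ⊕ C} (h : P.Poly k side len a b) {c : C}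
    {K : ℕ} (hK : k * (2 * B) ≤ K) (hbig : ∀ p ∈ P.E c a, ∀ q ∈ P.E c b, K < P.X.d p q) :
    ∃ i < k, ∃ t ≤ len i, side i t = Sum.inr c := by
  by_contra hcon
  push Not at hcon
  obtain ⟨p, hp⟩ := P.E_nemp (z := a) (c := c) (by
    rw [← h.start]; exact hcon 0 hk 0 (Nat.zero_le _))
  -- angle between `a` and the end of side `i`
  have key : ∀ i < k, ∀ q ∈ P.E c (side i (len i)), P.X.d p q ≤ (i + 1) * (2 * B) := by
    intro i
    induction i with
    | zero =>
      intro h0 q hq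
      have := P.path_bgi hB (h.isGeod h0) (fun t ht => hcon 0 h0 t ht)
        (by rw [h.start]; exact hp) hq
      omega
    | succ i ih =>
      intro h0 q hq
      obtain ⟨e, he⟩ := P.E_nemp (c := c) (z := side (i + 1) 0)
        (hcon (i + 1) h0 0 (Nat.zero_le _))
      have h1 := ih (by omega) e (by rw [h.junction i h0]; exact he)
      have h2 := P.path_bgi hB (h.isGeod h0) (fun t ht => hcon (i + 1) h0 t ht) he hq
      have h3 := P.X.tri p e q
      have e3 : (i + 1 + 1) * (2 * B) = (i + 1) * (2 * B) + 2 * B := by ring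
      omega
  obtain ⟨q, hq⟩ := P.E_nemp (c := c) (z := side (k - 1) (len (k - 1)))
    (hcon (k - 1) (by omega) _ le_rfl)
  have h1 := key (k - 1) (by omega) q hq
  rw [h.finish] at hq
  have h2 := hbig p hp q hq
  rw [Nat.sub_add_cancel hk] at h1
  omega

/-- **Lifting polygons.** -/
theorem lift_poly {B : ℕ} (hB : P.BGI B) {k : ℕ} (hk : 0 < k) {K : ℕ} (hK : k * (2 * B) ≤ K)
    {a : V} {ν : H} (hν : P.Red K a ν) (len : ℕ → ℕ) :
    ∀ side : ℕ → ℕ → V ⊕ C, P.Poly k side len (Sum.inl a) (Sum.inl (ν • a)) →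
      ∃ side' : ℕ → ℕ → V ⊕ C, P.Poly k side' len (Sum.inl a) (Sum.inl a) ∧
        (∀ i < k, ∀ t ≤ len i, ∃ κ ∈ P.N, side' i t = κ • side i t) ∧
        (∀ i < k, ∀ t < len i, ∃ κ ∈ P.N, side' i t = κ • side i t ∧
          side' i (t + 1) = κ • side i (t + 1)) := by
  classical
  induction hν with
  | one =>
    intro side h
    rw [one_smul] at h
    exact ⟨side, h, fun i _ t _ => ⟨1, P.N.one_mem, by rw [one_smul]⟩,
      fun i _ t _ => ⟨1, P.N.one_mem, by rw [one_smul], by rw [one_smul]⟩⟩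
  | step ν c s hs hbig _ ih =>
    intro side h
    obtain ⟨i₀, hi₀, t₀, ht₀, hc⟩ := Poly.passes hB hk h hK hbig
    have hsN : s ∈ P.N := P.G_le_N hs
    have hsc : s • (Sum.inr c : V ⊕ C) = Sum.inr c := by
      rw [smul_inr, P.Gfix c s hs]
    -- the bent polygon
    let σ : ℕ → ℕ → V ⊕ C := fun i t =>
      if i < i₀ ∨ (i = i₀ ∧ t ≤ t₀) then side i t else s • side i t
    have hσ1 : ∀ i t, (i < i₀ ∨ (i = i₀ ∧ t ≤ t₀)) → σ i t = side i t := fun i t h => if_pos h
    have hσ2 : ∀ i t, (i₀ < i ∨ (i = i₀ ∧ t₀ ≤ t)) → σ i t = s • side i t := by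
      intro i t h
      by_cases h2 : i < i₀ ∨ (i = i₀ ∧ t ≤ t₀)
      · have e : i = i₀ ∧ t = t₀ := by omega
        rw [hσ1 i t h2, e.1, e.2, hc, hsc]
      · exact if_neg h2
    have htr : ∀ i t, i < k → t < len i → ∃ κ ∈ P.N, σ i t = κ • side i t ∧
        σ i (t + 1) = κ • side i (t + 1) := by
      intro i t _ _
      by_cases h2 : i < i₀ ∨ (i = i₀ ∧ t + 1 ≤ t₀)
      · exact ⟨1, P.N.one_mem, by rw [one_smul]; exact hσ1 i t (by omega),
          by rw [one_smul]; exact hσ1 i (t + 1) h2⟩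
      · exact ⟨s, hsN, hσ2 i t (by omega), hσ2 i (t + 1) (by omega)⟩
    have htr0 : ∀ i t, ∃ κ ∈ P.N, σ i t = κ • side i t := by
      intro i t
      by_cases h2 : i < i₀ ∨ (i = i₀ ∧ t ≤ t₀)
      · exact ⟨1, P.N.one_mem, by rw [one_smul]; exact hσ1 i t h2⟩
      · exact ⟨s, hsN, hσ2 i t (by omega)⟩
    have hpoly : P.Poly k σ len (Sum.inl a) (Sum.inl ((s * ν) • a)) := by
      constructor
      · rw [hσ1 0 0 (by omega)]; exact h.start
      · intro i hi
        by_cases h2 : i + 1 ≤ i₀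
        · rw [hσ1 i _ (by omega), hσ1 (i + 1) 0 (by omega)]
          exact h.junction i hi
        · rw [hσ2 (i + 1) 0 (by omega)]
          by_cases h3 : i = i₀ ∧ len i < t₀
          · exfalso
            obtain ⟨rfl, h4⟩ := h3
            omega
          · rw [hσ2 i _ (by omega), h.junction i hi]
      · by_cases h2 : k - 1 = i₀ ∧ len (k - 1) ≤ t₀
        · exfalso
          obtain ⟨h3, h4⟩ := h2
          have h5 : len (k - 1) = t₀ := by rw [h3] at h4 ⊢; omega
          have h6 := h.finish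
          rw [h5, h3, hc] at h6
          exact absurd h6 (by simp)
        · rw [hσ2 _ _ (by omega), h.finish, smul_inl, mul_smul]
      · intro i hi t ht
        obtain ⟨κ, _, e1, e2⟩ := htr i t hi ht
        rw [e1, e2, P.Dinv]
        exact h.edge i hi t ht
      · intro i hi t t' htt ht'
        obtain ⟨κ, hκ, e1⟩ := htr0 i t
        obtain ⟨κ', hκ', e2⟩ := htr0 i t'
        rw [e1, e2, qd_smul_right P.D P.N hκ', qd_smul_left P.D P.N P.Dinv hκ]
        exact h.geod i hi t t' htt ht'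
    obtain ⟨side', h1, h2, h3⟩ := ih σ hpoly
    refine ⟨side', h1, ?_, ?_⟩
    · intro i hi t ht
      obtain ⟨κ, hκ, e1⟩ := h2 i hi t ht
      obtain ⟨κ', hκ', e2⟩ := htr0 i t
      exact ⟨κ * κ', P.N.mul_mem hκ hκ', by rw [e1, e2, mul_smul]⟩
    · intro i hi t ht
      obtain ⟨κ, hκ, e1, e2⟩ := h3 i hi t ht
      obtain ⟨κ', hκ', e3, e4⟩ := htr i t hi ht
      exact ⟨κ * κ', P.N.mul_mem hκ hκ', by rw [e1, e3, mul_smul], by rw [e2, e4, mul_smul]⟩

/-- Stabilisers of cone points in `N` are the rotation groups. -/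
theorem stab_cone {B : ℕ} (hB : P.BGI B) {K : ℕ} (hK : 2 * B ≤ K) {a : V} {c : C}
    (ha : a ∈ P.Y c) {ν : H} (hν : P.Red K a ν) (hfix : ν • c = c) : ν ∈ P.G c := by
  induction hν with
  | one => exact (P.G c).one_mem
  | step ν c' s hs hbig _ ih =>
    have hac : P.D.d (Sum.inl a) (Sum.inr c) = 1 := (P.adj a c).2 ha
    have hac2 : P.D.d (Sum.inl (ν • a)) (Sum.inr c) = 1 := by
      rw [P.adj]
      have := P.Yinv ν a c ha
      rwa [hfix] at this
    have hcc : c' = c := by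
      by_contra hne
      have hne' : (Sum.inr c : V ⊕ C) ≠ Sum.inr c' := fun h => hne (Sum.inr_injective h).symm
      have h0 : P.D.d (Sum.inr c) (Sum.inr c') ≠ 0 := fun h => hne' (P.D.eq0 _ _ h)
      have h1 := P.nadj c c'
      obtain ⟨e, he⟩ := P.E_nemp hne'
      obtain ⟨p, hp⟩ := P.E_nemp (c := c') (z := Sum.inl a) (inr_ne_inl _ _)
      obtain ⟨q, hq⟩ := P.E_nemp (c := c') (z := Sum.inl (ν • a)) (inr_ne_inl _ _)
      have h2 := hbig p hp q hq
      have h3 : P.D.d (Sum.inl a) (Sum.inr c') ≠ 0 := fun h => inr_ne_inl _ _ (P.D.eq0 _ _ h)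
      have h4 := hB c' _ _ (inr_ne_inl a c') hne' (by
        rw [P.D.comm (Sum.inr c') (Sum.inr c)]; omega) p hp e he
      have h5 := hB c' _ _ (inr_ne_inl (ν • a) c') hne' (by
        rw [P.D.comm (Sum.inr c') (Sum.inr c)]; omega) q hq e he
      have h6 := P.X.tri p e q
      rw [P.X.comm q e] at h5
      omega
    subst hcc
    have h1 := ih (by rw [mul_smul, hfix, P.Gfix _ s hs])
    have : ν = s⁻¹ * (s * ν) := by group
    rw [this]
    exact (P.G c').mul_mem ((P.G c').inv_mem hs) h1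

/-- `N` acts freely on `V`. -/
theorem free {K : ℕ} {a : V} {ν : H} (hν : P.Red K a ν) (hfix : ν • a = a) : ν = 1 := by
  cases hν with
  | one => rfl
  | step _ c s hs hbig _ =>
    obtain ⟨p, hp⟩ := P.E_nemp (c := c) (z := Sum.inl a) (inr_ne_inl _ _)
    have := hbig p hp p (by rw [hfix]; exact hp)
    rw [P.X.self] at this
    omega

end CD

end Pool.Agent.H33.RD
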