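import Pool.Agent.H33.RD.Rel

/-!
# Lipschitz property of the projections in the quotient
-/

set_option autoImplicit false

namespace Pool.Agent.H33.RD

namespace CD

variable {H V C : Type} [Group H] [MulAction H V] [MulAction H C] {P : CD H V C}

/-- sub-segments of quotient geodesics -/
theorem qgeod {γ : ℕ → V ⊕ C} {L : ℕ} (hγ : IsGeod P.D γ L)
    (h : qd P.D P.N (γ 0) (γ L) = L) {t t' : ℕ} (htt : t ≤ t') (ht' : t' ≤ L) :
    qd P.D P.N (γ t) (γ t') = t' - t := by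
  have a1 := hγ t t' htt ht'
  have a2 := qd_le_d P.D P.N (γ t) (γ t')
  have a3 := qd_le_d P.D P.N (γ 0) (γ t)
  have a4 := qd_le_d P.D P.N (γ t') (γ L)
  have a5 := hγ 0 t (by omega) (by omega)
  have a6 := hγ t' L ht' le_rfl
  have a7 := qd_tri P.D P.N P.Dinv (γ 0) (γ t) (γ L)
  have a8 := qd_tri P.D P.N P.Dinv (γ t) (γ t') (γ L)
  omega

/-- a geodesic to `c` through a given entry point -/
theorem geod_entry {c : C} {z : V ⊕ C} {p : V} (hp : p ∈ P.E c z) :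
    ∃ γ : ℕ → V ⊕ C, γ 0 = z ∧ γ (P.D.d z (Sum.inr c)) = Sum.inr c ∧
      γ (P.D.d z (Sum.inr c) - 1) = Sum.inl p ∧ IsGeod P.D γ (P.D.d z (Sum.inr c)) := by
  obtain ⟨η, h0, h1, hη⟩ := P.D.exists_geod z (Sum.inl p)
  have hp2 := hp.2
  have hpc : P.D.d (Sum.inl p) (Sum.inr c) = 1 := (P.adj p c).2 hp.1
  set ℓ := P.D.d z (Sum.inl p) with hℓ
  rw [← hp2, Nat.add_sub_cancel]
  refine ⟨fun t => if t ≤ ℓ then η t else Sum.inr c, by simp [h0], by simp, by simp [h1], ?_⟩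
  intro i j hij hj
  by_cases hjl : j ≤ ℓ
  · have hil : i ≤ ℓ := by omega
    simp only [hjl, hil, if_true]
    exact hη i j hij hjl
  · have hj' : j = ℓ + 1 := by omega
    by_cases hil : i ≤ ℓ
    · simp only [hjl, hil, if_true, if_false]
      have a1 := hη 0 i (by omega) hil
      have a2 := hη i ℓ hil le_rfl
      rw [h0] at a1
      rw [h1] at a2
      have t1 := P.D.tri z (η i) (Sum.inr c)
      have t2 := P.D.tri (η i) (Sum.inl p) (Sum.inr c)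
      omega
    · have : i = ℓ + 1 := by omega
      simp only [hjl, hil, if_false]
      rw [P.D.self]; omega

variable {B K : ℕ}

theorem lip1 (hB : P.BGI B) (hK : 3 * (2 * B) ≤ K) (hred : ∀ a : V, ∀ ν ∈ P.N, P.Red K a ν)
    {u v p q : V} {c : C}
    (hu : P.D.d (Sum.inl u) (Sum.inr c) = qd P.D P.N (Sum.inl u) (Sum.inr c))
    (hv : P.D.d (Sum.inl v) (Sum.inr c) = qd P.D P.N (Sum.inl v) (Sum.inr c))
    (huv : qd P.D P.N (Sum.inl u) (Sum.inl v) ≤ 1) (hp : p ∈ P.E c (Sum.inl u))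
    (hq : q ∈ P.E c (Sum.inl v)) : ∃ s ∈ P.G c, P.X.d p (s • q) ≤ B := by
  obtain ⟨γ₁, a0, a1, a2, hγ₁⟩ := geod_entry hp
  obtain ⟨γ₂, b0, b1, b2, hγ₂⟩ := geod_entry hq
  obtain ⟨κ', hκ', hκ2⟩ := qd_spec P.D P.N (Sum.inl v) (Sum.inl u : V ⊕ C)
  obtain ⟨γ₃, c0, c1, hγ₃⟩ := P.D.exists_geod (Sum.inl v) (κ' • (Sum.inl u : V ⊕ C))
  set L₁ := P.D.d (Sum.inl u) (Sum.inr c) with hL₁
  set L₂ := P.D.d (Sum.inl v) (Sum.inr c) with hL₂
  set L₃ := P.D.d (Sum.inl v) (κ' • (Sum.inl u : V ⊕ C)) with hL₃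
  have hL1 : 1 ≤ L₁ := by have := hp.2; omega
  have hL2 : 1 ≤ L₂ := by have := hq.2; omega
  have hL3 : L₃ ≤ 1 := by
    rw [hκ2, qd_comm P.D P.N P.Dinv]; exact huv
  set side : ℕ → ℕ → V ⊕ C := fun i t => if i = 0 then γ₁ t else if i = 1 then γ₂ (L₂ - t) else γ₃ t
    with hside
  set len : ℕ → ℕ := fun i => if i = 0 then L₁ else if i = 1 then L₂ else L₃ with hlen
  have s0 : ∀ t, side 0 t = γ₁ t := fun t => by simp [hside]
  have s1 : ∀ t, side 1 t = γ₂ (L₂ - t) := fun t => by simp [hside]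
  have s2 : ∀ t, side 2 t = γ₃ t := fun t => by simp [hside]
  have l0 : len 0 = L₁ := by simp [hlen]
  have l1 : len 1 = L₂ := by simp [hlen]
  have l2 : len 2 = L₃ := by simp [hlen]
  have hpoly : P.Poly 3 side len (Sum.inl u) (Sum.inl (κ' • u)) := by
    constructor
    · rw [s0, a0]
    · intro i hi
      have : i = 0 ∨ i = 1 := by omega
      rcases this with rfl | rfl
      · rw [l0, s0, a1, s1, Nat.sub_zero, b1]
      · rw [l1, s1, Nat.sub_self, b0, s2, c0]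
    · show side 2 (len 2) = _
      rw [l2, s2, c1, smul_inl]
    · intro i hi t ht
      have : i = 0 ∨ i = 1 ∨ i = 2 := by omega
      rcases this with rfl | rfl | rfl
      · rw [l0] at ht
        rw [s0, s0, hγ₁ t (t + 1) (by omega) ht]; omega
      · rw [l1] at ht
        rw [s1, s1, P.D.comm, hγ₂ (L₂ - (t + 1)) (L₂ - t) (by omega) (by omega)]; omega
      · rw [l2] at ht
        rw [s2, s2, hγ₃ t (t + 1) (by omega) ht]; omega
    · intro i hi t t' htt ht'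
      have : i = 0 ∨ i = 1 ∨ i = 2 := by omega
      rcases this with rfl | rfl | rfl
      · rw [l0] at ht'
        rw [s0, s0]
        exact qgeod hγ₁ (by rw [a0, a1, ← hu]) htt ht'
      · rw [l1] at ht'
        rw [s1, s1, qd_comm P.D P.N P.Dinv,
          qgeod hγ₂ (by rw [b0, b1, ← hv]) (t := L₂ - t') (t' := L₂ - t) (by omega) (by omega)]
        omega
      · rw [l2] at ht'
        rw [s2, s2]
        refine qgeod hγ₃ ?_ htt ht'
        rw [c0, c1, qd_smul_right P.D P.N hκ', ← hκ2]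
  obtain ⟨side', hP', hv', he'⟩ := P.lift_poly hB (by norm_num) hK (hred u κ' hκ') len side hpoly
  -- the edges at the cone point
  obtain ⟨κ₁, hκ₁, f1, f2⟩ := he' 0 (by norm_num) (L₁ - 1) (by rw [l0]; omega)
  rw [s0, a2] at f1
  rw [Nat.sub_add_cancel hL1, s0, a1] at f2
  obtain ⟨κ₂, hκ₂, g1, g2⟩ := he' 1 (by norm_num) 0 (by rw [l1]; omega)
  rw [s1, Nat.sub_zero, b1] at g1
  rw [s1, zero_add, b2] at g2
  have hj := hP'.junction 0 (by norm_num)
  rw [l0, zero_add, f2, g1, smul_inr, smul_inr] at hj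
  have hcc : κ₁ • c = κ₂ • c := Sum.inr_injective hj
  -- the last side
  have hj1 := hP'.junction 1 (by norm_num)
  rw [l1] at hj1
  have hfin := hP'.finish
  simp only [show 3 - 1 = 2 from rfl] at hfin
  rw [l2] at hfin
  have hg2 := hP'.isGeod (i := 2) (by norm_num) 0 L₃ (by omega) (by rw [l2])
  rw [hfin, ← hj1] at hg2
  -- entry points
  obtain ⟨p', e1, e2, e3⟩ := entry (hP'.isGeod (i := 0) (by norm_num)) (i := L₁) (c := κ₁ • c) hL1
    (by rw [l0]) (by rw [f2, smul_inr])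
  rw [f1, smul_inl] at e1
  have hp' : κ₁ • p = p' := Sum.inl_injective e1
  rw [hP'.start, ← hp'] at e3
  obtain ⟨q', k1, k2, k3⟩ := exit' (hP'.isGeod (i := 1) (by norm_num)) (i := 0) (c := κ₂ • c)
    (by rw [l1]; omega) (by rw [g1, smul_inr])
  rw [g2, smul_inl] at k1
  have hq' : κ₂ • q = q' := Sum.inl_injective k1
  rw [l1, ← hq', ← hcc] at k3
  have hend : ∃ κ ∈ P.N, side' 1 L₂ = Sum.inl (κ • v) := by
    obtain ⟨κ, hκ, h⟩ := hv' 1 (by norm_num) L₂ (by rw [l1])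
    rw [s1, Nat.sub_self, b0] at h
    exact ⟨κ, hκ, h⟩
  obtain ⟨κ, hκ, hend⟩ := hend
  rw [hend] at k3 hg2
  have hdist : P.X.d (κ₁ • p) (κ₂ • q) ≤ B := by
    apply hB (κ₁ • c) (Sum.inl u) (Sum.inl (κ • v)) (inr_ne_inl _ _) (inr_ne_inl _ _) _ _ e3 _ k3
    have n1 : P.D.d (Sum.inl u) (Sum.inr (κ₁ • c)) ≠ 0 := fun h => inr_ne_inl _ _ (P.D.eq0 _ _ h)
    have n2 : P.D.d (Sum.inr (κ₁ • c)) (Sum.inl (κ • v)) ≠ 0 :=
      fun h => inr_ne_inl _ _ (P.D.eq0 _ _ h).symm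
    rw [P.D.comm] at hg2
    omega
  refine ⟨κ₁⁻¹ * κ₂, ?_, ?_⟩
  · refine P.stab_cone hB (by omega) hp.1 (hred p _ (P.N.mul_mem (P.N.inv_mem hκ₁) hκ₂)) ?_
    rw [mul_smul, ← hcc, inv_smul_smul]
  · rw [← P.Xinv κ₁, smul_smul, mul_inv_cancel_left]
    exact hdist

theorem lip (hB : P.BGI B) (hK : 3 * (2 * B) ≤ K) (hred : ∀ a : V, ∀ ν ∈ P.N, P.Red K a ν)
    (hDX : ∀ p q : V, P.D.d (Sum.inl p) (Sum.inl q) ≤ P.X.d p q) {u p : V} {c : C}
    (hu : P.D.d (Sum.inl u) (Sum.inr c) = qd P.D P.N (Sum.inl u) (Sum.inr c))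
    (hp : p ∈ P.E c (Sum.inl u)) (r : ℕ) :
    ∀ v q : V, P.D.d (Sum.inl v) (Sum.inr c) = qd P.D P.N (Sum.inl v) (Sum.inr c) →
      qd P.X P.N u v ≤ r → q ∈ P.E c (Sum.inl v) → ∃ s ∈ P.G c, P.X.d p (s • q) ≤ (r + 1) * B := by
  have hqq : ∀ x y : V, qd P.D P.N (Sum.inl x) (Sum.inl y : V ⊕ C) ≤ qd P.X P.N x y := by
    intro x y
    obtain ⟨ν, hν, h⟩ := qd_spec P.X P.N x y
    rw [← h]
    exact (qd_le P.D P.N hν).trans (hDX x (ν • y))
  induction r with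
  | zero =>
    intro v q hv huv hq
    obtain ⟨s, hs, h⟩ := lip1 hB hK hred hu hv ((hqq u v).trans (by omega)) hp hq
    exact ⟨s, hs, by omega⟩
  | succ r ih =>
    intro v q hv huv hq
    obtain ⟨v', h1, h2⟩ := qd_geod P.X P.N P.Xinv u v (min r (qd P.X P.N u v)) (by omega)
    -- minimal translate
    obtain ⟨κ, hκ, h3⟩ := qd_spec P.D P.N (Sum.inr c) (Sum.inl v' : V ⊕ C)
    have hv' : P.D.d (Sum.inl (κ • v')) (Sum.inr c) =
        qd P.D P.N (Sum.inl (κ • v')) (Sum.inr c) := by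
      rw [P.D.comm, qd_comm P.D P.N P.Dinv]
      have := qd_smul_right P.D P.N (x := Sum.inr c) (y := (Sum.inl v' : V ⊕ C)) hκ
      rw [smul_inl] at this h3
      rw [this, h3]
    obtain ⟨q', hq'⟩ := P.E_nemp (c := c) (z := Sum.inl (κ • v')) (inr_ne_inl _ _)
    obtain ⟨s, hs, h4⟩ := ih (κ • v') q' hv' (by rw [qd_smul_right P.X P.N hκ]; omega) hq'
    obtain ⟨s', hs', h5⟩ := lip1 hB hK hred hv' hv ((hqq _ v).trans (by
      rw [qd_smul_left P.X P.N P.Xinv hκ]; omega)) hq' hq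
    refine ⟨s * s', (P.G c).mul_mem hs hs', ?_⟩
    have t1 := P.X.tri p (s • q') ((s * s') • q)
    rw [mul_smul, P.Xinv s] at t1
    rw [mul_smul]
    have e : (r + 1 + 1) * B = (r + 1) * B + B := by ring
    omega

end CD

end Pool.Agent.H33.RD
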