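import Pool.Agent.H33.RD.Defs

/-!
# Infinite order elements of groups acting geometrically on hyperbolic graphs are loxodromic
-/

set_option autoImplicit false

namespace Pool.Agent.H33.RD

theorem exists_exp_beats (c b : ℕ) : ∃ s : ℕ, c * (s + b) < 2 ^ s := by
  refine ⟨2 * (2 * c + 2 * b + 2), ?_⟩
  have h1 : (2 * c + 2 * b + 2) < 2 ^ (2 * c + 2 * b + 2) := Nat.lt_two_pow_self
  have h2 : (2 * c + 2 * b + 2) * (2 * c + 2 * b + 2) <
      2 ^ (2 * c + 2 * b + 2) * 2 ^ (2 * c + 2 * b + 2) := Nat.mul_lt_mul'' h1 h1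
  rw [← pow_add, ← two_mul] at h2
  refine lt_of_le_of_lt ?_ h2
  nlinarith [Nat.zero_le (c * b), Nat.zero_le (b * b), Nat.zero_le c, Nat.zero_le b]

section

variable {H V : Type} [Group H] [MulAction H V] (M : GM V)
  (inv : ∀ (h : H) (x y : V), M.d (h • x) (h • y) = M.d x y)

include inv

theorem d_zpow (g : H) (x : V) (i j : ℤ) :
    M.d (g ^ i • x) (g ^ j • x) = M.d x (g ^ (j - i) • x) := by
  rw [← inv (g ^ (-i)) (g ^ i • x) (g ^ j • x), smul_smul, smul_smul, ← zpow_add, ← zpow_add]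
  congr 1
  · rw [neg_add_cancel, zpow_zero, one_smul]
  · congr 2; ring

theorem d_zpow_neg (g : H) (x : V) (j : ℤ) :
    M.d x (g ^ (-j) • x) = M.d x (g ^ j • x) := by
  have h := d_zpow M inv g x j 0
  rw [zpow_zero, one_smul, zero_sub] at h
  rw [← h, M.comm]

theorem d_natAbs (g : H) (x : V) (j : ℤ) :
    M.d x (g ^ j • x) = M.d x (g ^ j.natAbs • x) := by
  rcases Int.natAbs_eq j with h | h
  · conv_lhs => rw [h]
    rw [zpow_natCast]
  · conv_lhs => rw [h]
    rw [d_zpow_neg M inv, zpow_natCast]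

theorem growth_log {δ : ℕ} {g : H} {x : V}
    (hno : ∀ k : ℕ, 0 < k → M.d x (g ^ (2 * k) • x) ≤ M.d x (g ^ k • x) + 2 * δ) (s : ℕ) :
    ∀ j : ℕ, j ≤ 2 ^ s → M.d x (g ^ j • x) ≤ (2 * δ + M.d x (g • x)) * (s + 1) := by
  induction s with
  | zero =>
    intro j hj
    have : j = 0 ∨ j = 1 := by simp at hj; omega
    rcases this with rfl | rfl
    · simp [M.self]
    · simp
  | succ s ih =>
    intro j hj
    obtain ⟨k, hjk⟩ : ∃ k, j = 2 * k ∨ j = 2 * k + 1 := ⟨j / 2, by omega⟩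
    have hk : k ≤ 2 ^ s := by rw [pow_succ] at hj; omega
    have h1 := ih _ hk
    have hdouble : M.d x (g ^ (2 * k) • x) ≤ M.d x (g ^ k • x) + 2 * δ := by
      rcases Nat.eq_zero_or_pos k with h0 | h0
      · rw [h0]; simp
      · exact hno _ h0
    have hstep : M.d x (g ^ j • x) ≤ M.d x (g ^ (2 * k) • x) + M.d x (g • x) := by
      rcases hjk with h0 | h0
      · rw [h0]; omega
      · rw [h0]
        calc M.d x (g ^ (2 * k + 1) • x) ≤ M.d x (g ^ (2 * k) • x) +
              M.d (g ^ (2 * k) • x) (g ^ (2 * k + 1) • x) := M.tri _ _ _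
          _ = _ := by rw [pow_succ, mul_smul, inv]
    calc _ ≤ _ := hstep
      _ ≤ M.d x (g ^ k • x) + 2 * δ + M.d x (g • x) := by omega
      _ ≤ (2 * δ + M.d x (g • x)) * (s + 1) + (2 * δ + M.d x (g • x)) := by omega
      _ = _ := by ring

/-- Radius predicate for the orbit segment. -/
def Rad (M : GM V) (g : H) (x : V) (m ρ : ℕ) : Prop :=
  ∃ c : V, ∀ j : ℤ, j.natAbs ≤ m → M.d c (g ^ j • x) ≤ ρ

omit inv in
theorem rad_mono {g : H} {x : V} {m m' ρ : ℕ} (h : m ≤ m') (hr : Rad M g x m' ρ) :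
    Rad M g x m ρ := by
  obtain ⟨c, hc⟩ := hr
  exact ⟨c, fun j hj => hc j (hj.trans h)⟩

/-- if no power is loxodromic then long orbit segments have slowly growing radius -/
theorem exists_slow {δ : ℕ} {g : H} {x : V}
    (hno : ∀ k : ℕ, 0 < k → M.d x (g ^ (2 * k) • x) ≤ M.d x (g ^ k • x) + 2 * δ) (J : ℕ) :
    ∃ m ρ : ℕ, Rad M g x (m + J) (ρ + 1) ∧ ∀ ρ', Rad M g x m ρ' → ρ ≤ ρ' := by
  classical
  -- the radius function
  have hex : ∀ m, ∃ ρ, Rad M g x m ρ := by
    intro m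
    refine ⟨(2 * δ + M.d x (g • x)) * (m + 1), x, fun j hj => ?_⟩
    rw [d_natAbs M inv]
    exact growth_log M inv hno m _ (hj.trans Nat.lt_two_pow_self.le)
  let r : ℕ → ℕ := fun m => Nat.find (hex m)
  have hr : ∀ m, Rad M g x m (r m) := fun m => Nat.find_spec (hex m)
  have hmin : ∀ m ρ', Rad M g x m ρ' → r m ≤ ρ' := fun m ρ' h => Nat.find_min' (hex m) h
  by_contra hcon
  push Not at hcon
  have hgrow : ∀ m, r m + 2 ≤ r (m + J) := by
    intro m
    by_contra h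
    have h2 : r (m + J) ≤ r m + 1 := by omega
    have h3 : Rad M g x (m + J) (r m + 1) := by
      obtain ⟨c, hc⟩ := hr (m + J)
      exact ⟨c, fun j hj => (hc j hj).trans h2⟩
    obtain ⟨ρ', h4, h5⟩ := hcon m (r m) h3
    exact absurd (hmin m ρ' h4) (by omega)
  have hlin : ∀ t, 2 * t ≤ r (t * J) := by
    intro t
    induction t with
    | zero => simp
    | succ t ih =>
      have := hgrow (t * J)
      have e : (t + 1) * J = t * J + J := by ring
      rw [e]
      omega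
  obtain ⟨s, hs⟩ := exists_exp_beats (2 * δ + M.d x (g • x)) (J + 1)
  have h1 := hlin (2 ^ s)
  have h2 : r (2 ^ s * J) ≤ (2 * δ + M.d x (g • x)) * (s + (J + 1)) := by
    apply hmin
    refine ⟨x, fun j hj => ?_⟩
    rw [d_natAbs M inv]
    have h3 : 2 ^ s * J ≤ 2 ^ (s + J) := by
      rw [pow_add]; exact Nat.mul_le_mul_left _ Nat.lt_two_pow_self.le
    exact (growth_log M inv hno (s + J) _ (hj.trans h3)).trans (by rw [add_assoc])
  have h3 : 1 ≤ 2 ^ s := Nat.one_le_two_pow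
  omega

/-- **Infinite order elements are loxodromic.** -/
theorem exists_lox {δ D₀ : ℕ} {x₀ : V} (hyp : M.Hyp δ)
    (proper : ∀ D : ℕ, {h : H | M.d x₀ (h • x₀) ≤ D}.Finite)
    (cob : ∀ x : V, ∃ h : H, M.d x (h • x₀) ≤ D₀) (g : H) (hg : ¬ IsOfFinOrder g) :
    ∃ k : ℕ, 0 < k ∧ M.d x₀ (g ^ k • x₀) + 2 * δ + 1 ≤ M.d x₀ (g ^ (2 * k) • x₀) := by
  classical
  by_contra hcon
  push Not at hcon
  have hno : ∀ k : ℕ, 0 < k → M.d x₀ (g ^ (2 * k) • x₀) ≤ M.d x₀ (g ^ k • x₀) + 2 * δ :=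
    fun k hk => by have := hcon k hk; omega
  -- pigeonhole bound
  have hfin := proper (2 * D₀ + 2 * δ + 3)
  set J := hfin.toFinset.card with hJ
  obtain ⟨m, ρ, ⟨c, hc⟩, hmin⟩ := exists_slow M inv hno J
  have hsmall : ∀ j : ℤ, j.natAbs ≤ J → M.d c (g ^ j • c) ≤ 2 * δ + 3 := by
    intro j hj
    set D := M.d c (g ^ j • c) with hD
    obtain ⟨q, hq1, hq2⟩ := M.geod c (g ^ j • c) (D / 2) (by omega)
    have e1' : ∀ i : ℤ, i.natAbs ≤ m → M.d c (g ^ i • x₀) ≤ ρ + 1 := fun i hi => hc i (by omega)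
    have e2' : ∀ i : ℤ, i.natAbs ≤ m → M.d (g ^ j • c) (g ^ i • x₀) ≤ ρ + 1 := by
      intro i hi
      have : M.d (g ^ j • c) (g ^ i • x₀) = M.d c (g ^ (i - j) • x₀) := by
        rw [← inv (g ^ (-j)) (g ^ j • c), smul_smul, smul_smul, ← zpow_add, ← zpow_add,
          neg_add_cancel, zpow_zero, one_smul]
        congr 3; ring
      rw [this]
      exact hc _ (by omega)
    have hD2 : D ≤ 2 * ρ + 2 := by
      have h1 := e1' 0 (by simp)
      have h2 := e2' 0 (by simp)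
      have h3 := M.tri c (g ^ (0 : ℤ) • x₀) (g ^ j • c)
      rw [M.comm (g ^ (0 : ℤ) • x₀)] at h3
      omega
    have hrad : Rad M g x₀ m (ρ + 1 + δ - D / 2) := by
      refine ⟨q, fun i hi => ?_⟩
      have e1 := e1' i hi
      have e2 := e2' i hi
      have e3 := hyp q (g ^ i • x₀) c (g ^ j • c)
      rw [M.comm q c] at e3
      rw [M.comm (g ^ i • x₀) c, M.comm (g ^ i • x₀) (g ^ j • c)] at e3
      omega
    have := hmin _ hrad
    omega
  obtain ⟨h, hh⟩ := cob c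
  have hmem : ∀ j : ℕ, j ≤ J → h⁻¹ * g ^ j * h ∈ hfin.toFinset := by
    intro j hj
    rw [Set.Finite.mem_toFinset, Set.mem_ofPred_eq]
    have e0 : M.d x₀ ((h⁻¹ * g ^ j * h) • x₀) = M.d (h • x₀) (g ^ j • (h • x₀)) := by
      rw [← inv h x₀, smul_smul, smul_smul]
      congr 2; group
    have e1 := hsmall (j : ℤ) (by simpa using hj)
    rw [zpow_natCast] at e1
    have e2 := M.tri (h • x₀) c (g ^ j • (h • x₀))
    have e3 := M.tri c (g ^ j • c) (g ^ j • (h • x₀))
    rw [inv] at e3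
    rw [M.comm] at hh
    have e4 := M.comm c (h • x₀)
    rw [e0]
    omega
  have hinj : Function.Injective (fun j : ℕ => g ^ j) := injective_pow_iff_not_isOfFinOrder.2 hg
  have hcard : (Finset.range (J + 1)).card ≤ hfin.toFinset.card :=
    Finset.card_le_card_of_injOn (fun j => h⁻¹ * g ^ j * h)
      (fun j hj => hmem j (by have := Finset.mem_range.1 hj; omega))
      (fun i _ j _ hij => by
        apply hinj
        have : h * (h⁻¹ * g ^ i * h) * h⁻¹ = h * (h⁻¹ * g ^ j * h) * h⁻¹ := by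
          simp only at hij; rw [hij]
        simpa [mul_assoc] using this)
  rw [Finset.card_range] at hcard
  omega

end

end Pool.Agent.H33.RD
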