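import Pool.Agent.H33.RD.QLine

/-!
# Discrete paths, graph metrics from relations
-/

set_option autoImplicit false

namespace Pool.Agent.H33.RD

/-! ### Geodesic paths -/

theorem GM.d_eq_one_ne {W : Type} (M : GM W) {x y : W} (h : M.d x y = 1) : x ≠ y := by
  rintro rfl; rw [M.self] at h; omega

/-- `γ` is a geodesic of length `L`. -/
def IsGeod {W : Type} (M : GM W) (γ : ℕ → W) (L : ℕ) : Prop :=
  ∀ i j, i ≤ j → j ≤ L → M.d (γ i) (γ j) = j - i

theorem GM.exists_geod {W : Type} (M : GM W) (x y : W) :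
    ∃ γ : ℕ → W, γ 0 = x ∧ γ (M.d x y) = y ∧ IsGeod M γ (M.d x y) := by
  suffices ∀ n x, M.d x y = n →
      ∃ γ : ℕ → W, γ 0 = x ∧ γ n = y ∧ IsGeod M γ n from this _ x rfl
  intro n
  induction n with
  | zero =>
    intro x hx
    have := M.eq0 x y hx
    subst this
    exact ⟨fun _ => x, rfl, rfl, fun i j _ hj => by simp only [M.self]; omega⟩
  | succ n ih =>
    intro x hx
    obtain ⟨x', h1, h2⟩ := M.geod x y 1 (by omega)
    obtain ⟨γ, g0, gn, hg⟩ := ih x' (by omega)
    refine ⟨fun i => if i = 0 then x else γ (i - 1), by simp, by simp [gn], ?_⟩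
    intro i j hij hj
    by_cases hi : i = 0
    · subst hi
      by_cases hj0 : j = 0
      · subst hj0; simp [M.self]
      · simp only [if_true, hj0, if_false, Nat.sub_zero]
        have a1 := hg 0 (j - 1) (by omega) (by omega)
        have a2 := hg (j - 1) n (by omega) le_rfl
        have a3 := M.tri x x' (γ (j - 1))
        have a4 := M.tri x (γ (j - 1)) y
        rw [g0] at a1
        rw [gn] at a2
        omega
    · have hj0 : j ≠ 0 := by omega
      simp only [hi, hj0, if_false]
      have := hg (i - 1) (j - 1) (by omega) (by omega)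
      omega

theorem IsGeod.mono {W : Type} {M : GM W} {γ : ℕ → W} {L L' : ℕ} (h : IsGeod M γ L)
    (hL : L' ≤ L) : IsGeod M γ L' := fun i j hij hj => h i j hij (hj.trans hL)

/-- discrete intermediate values along a geodesic from `x` -/
theorem GM.exists_at {W : Type} (M : GM W) (g : W → ℕ) (hg : ∀ u v, M.d u v = 1 → g v ≤ g u + 1)
    (x y : W) (t : ℕ) (h0 : g x ≤ t) (h1 : t ≤ g y) :
    ∃ m, M.d x m + M.d m y = M.d x y ∧ g m = t := by
  obtain ⟨γ, g0, gn, hγ⟩ := M.exists_geod x y
  have key : ∀ n, n ≤ M.d x y → t ≤ g (γ n) → ∃ i ≤ n, g (γ i) = t := by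
    intro n
    induction n with
    | zero =>
      intro _ h
      rw [g0] at h
      exact ⟨0, le_rfl, by rw [g0]; omega⟩
    | succ n ih =>
      intro hn h
      by_cases h2 : t ≤ g (γ n)
      · obtain ⟨i, hi, hi2⟩ := ih (by omega) h2
        exact ⟨i, by omega, hi2⟩
      · have h3 := hg (γ n) (γ (n + 1)) (by rw [hγ n (n + 1) (by omega) hn]; omega)
        exact ⟨n + 1, le_rfl, by omega⟩
  obtain ⟨i, hi, hi2⟩ := key (M.d x y) le_rfl (by rw [gn]; exact h1)
  refine ⟨γ i, ?_, hi2⟩
  have a1 := hγ 0 i (by omega) hi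
  have a2 := hγ i (M.d x y) hi le_rfl
  rw [g0] at a1
  rw [gn] at a2
  omega

/-! ### Hyperbolicity lemmas -/

theorem hyp_split {W : Type} {M : GM W} {δ : ℕ} (hyp : M.Hyp δ) {x y m : W} {κ : ℕ}
    (h : M.d x m + M.d m y ≤ M.d x y + κ) (w : W) :
    M.d x m + M.d m w ≤ M.d x w + (κ + δ) ∨ M.d w m + M.d m y ≤ M.d w y + (κ + δ) := by
  have h1 := hyp w m x y
  rw [M.comm w x, M.comm m x] at h1
  rw [M.comm m w]
  omega

/-- a point almost between `x` and `y` is close to a point between `x` and `y` -/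
theorem hyp_between {W : Type} {M : GM W} {δ : ℕ} (hyp : M.Hyp δ) {x y m : W} {κ : ℕ}
    (h : M.d x m + M.d m y ≤ M.d x y + κ) :
    ∃ m', M.d x m' + M.d m' y = M.d x y ∧ M.d m m' ≤ κ + δ := by
  rcases le_total (M.d x m) (M.d x y) with hle | hle
  · obtain ⟨m', h1, h2⟩ := M.geod x y (M.d x m) hle
    refine ⟨m', by omega, ?_⟩
    have h3 := hyp m m' x y
    rw [M.comm m x, M.comm m' x] at h3
    omega
  · refine ⟨y, by rw [M.self]; omega, by omega⟩

/-- if the sum `xz|yw` is (almost) the largest, there is a point near both geodesics -/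
theorem hyp_cross {W : Type} {M : GM W} {δ : ℕ} (hyp : M.Hyp δ) {x z y w : W} {κ : ℕ}
    (h1 : M.d x y + M.d z w ≤ M.d x z + M.d y w + κ)
    (h2 : M.d x w + M.d y z ≤ M.d x z + M.d y w + κ) :
    ∃ m, M.d x m + M.d m z = M.d x z ∧ M.d y m + M.d m w ≤ M.d y w + (κ + 2 * δ + 1) := by
  -- t = ⌊(y|z)_x⌋
  have ht : (M.d x y + M.d x z - M.d y z) / 2 ≤ M.d x z := by
    have := M.tri x z y
    rw [M.comm z y] at this
    omega
  obtain ⟨m, a1, a2⟩ := M.geod x z _ ht
  refine ⟨m, by omega, ?_⟩
  have h3 := hyp y m x z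
  have h4 := hyp w m x z
  rw [M.comm y x, M.comm m x] at h3
  rw [M.comm w x, M.comm m x, M.comm w m, M.comm w z] at h4
  have t1 := M.tri y x z
  rw [M.comm y x] at t1
  omega

/-! ### Graph metrics from relations -/

/-- `Rch Adj n x y` : there is a walk of length `n`. -/
inductive Rch {W : Type} (Adj : W → W → Prop) : ℕ → W → W → Prop
  | refl (x : W) : Rch Adj 0 x x
  | step {n : ℕ} {x y z : W} (h : Rch Adj n x y) (h' : Adj y z) : Rch Adj (n + 1) x z

namespace Rch

variable {W : Type} {Adj : W → W → Prop}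

theorem trans {m n : ℕ} {x y z : W} (h : Rch Adj m x y) (h' : Rch Adj n y z) :
    Rch Adj (m + n) x z := by
  induction h' with
  | refl => exact h
  | step _ h2 ih => exact Rch.step (ih h) h2

theorem single {x y : W} (h : Adj x y) : Rch Adj 1 x y := Rch.step (Rch.refl x) h

theorem symm (hs : ∀ x y, Adj x y → Adj y x) {n : ℕ} {x y : W} (h : Rch Adj n x y) :
    Rch Adj n y x := by
  induction h with
  | refl => exact Rch.refl _
  | step _ h2 ih =>
    have := (Rch.single (hs _ _ h2)).trans ih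
    rwa [add_comm] at this

theorem split {m n : ℕ} {x z : W} (h : Rch Adj (m + n) x z) :
    ∃ y, Rch Adj m x y ∧ Rch Adj n y z := by
  induction n generalizing z with
  | zero => exact ⟨z, h, Rch.refl z⟩
  | succ n ih =>
    cases h with
    | step h1 h2 =>
      obtain ⟨y, h3, h4⟩ := ih h1
      exact ⟨y, h3, Rch.step h4 h2⟩

theorem zero_iff {x y : W} (h : Rch Adj 0 x y) : x = y := by
  cases h; rfl

theorem one_iff {x y : W} (h : Rch Adj 1 x y) : Adj x y := by
  cases h with
  | step h1 h2 => rw [zero_iff h1]; exact h2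

theorem map {W' : Type} {Adj' : W' → W' → Prop} (f : W → W')
    (hf : ∀ x y, Adj x y → Adj' (f x) (f y)) {n : ℕ} {x y : W} (h : Rch Adj n x y) :
    Rch Adj' n (f x) (f y) := by
  induction h with
  | refl => exact Rch.refl _
  | step _ h2 ih => exact Rch.step ih (hf _ _ h2)

end Rch

open Classical in
/-- The graph metric of a connected symmetric relation. -/
noncomputable def GM.ofAdj {W : Type} (Adj : W → W → Prop) (hs : ∀ x y, Adj x y → Adj y x)
    (hc : ∀ x y, ∃ n, Rch Adj n x y) : GM W where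
  d x y := Nat.find (hc x y)
  self x := by
    have := Nat.find_min' (hc x x) (Rch.refl x)
    omega
  eq0 x y h := by
    have := Nat.find_spec (hc x y)
    rw [h] at this
    exact Rch.zero_iff this
  comm x y := le_antisymm (Nat.find_min' _ (Rch.symm hs (Nat.find_spec (hc y x))))
    (Nat.find_min' _ (Rch.symm hs (Nat.find_spec (hc x y))))
  tri x y z := Nat.find_min' _ ((Nat.find_spec (hc x y)).trans (Nat.find_spec (hc y z)))
  geod x y k hk := by
    obtain ⟨t, ht⟩ := Nat.exists_eq_add_of_le hk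
    have h1 := Nat.find_spec (hc x y)
    rw [ht] at h1
    obtain ⟨z, h2, h3⟩ := h1.split
    have a1 := Nat.find_min' (hc x z) h2
    have a2 := Nat.find_min' (hc z y) h3
    have a3 := Nat.find_min' (hc x y) ((Nat.find_spec (hc x z)).trans (Nat.find_spec (hc z y)))
    exact ⟨z, by omega, by omega⟩

section

variable {W : Type} {Adj : W → W → Prop} {hs : ∀ x y, Adj x y → Adj y x}
  {hc : ∀ x y, ∃ n, Rch Adj n x y}

theorem GM.ofAdj_le {x y : W} {n : ℕ} (h : Rch Adj n x y) : (GM.ofAdj Adj hs hc).d x y ≤ n := by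
  classical
  exact Nat.find_min' (hc x y) h

theorem GM.ofAdj_spec (x y : W) : Rch Adj ((GM.ofAdj Adj hs hc).d x y) x y := by
  classical
  exact Nat.find_spec (hc x y)

theorem GM.ofAdj_one (hirr : ∀ x, ¬ Adj x x) {x y : W} :
    (GM.ofAdj Adj hs hc).d x y = 1 ↔ Adj x y := by
  constructor
  · intro h
    have := GM.ofAdj_spec (hs := hs) (hc := hc) x y
    rw [h] at this
    exact this.one_iff
  · intro h
    have h1 := GM.ofAdj_le (hs := hs) (hc := hc) (Rch.single h)
    have h2 : (GM.ofAdj Adj hs hc).d x y ≠ 0 := by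
      intro h0
      have := (GM.ofAdj Adj hs hc).eq0 _ _ h0
      subst this
      exact hirr _ h
    omega

theorem GM.ofAdj_map_le (f : W → W) (hf : ∀ x y, Adj x y → Adj (f x) (f y)) (x y : W) :
    (GM.ofAdj Adj hs hc).d (f x) (f y) ≤ (GM.ofAdj Adj hs hc).d x y :=
  GM.ofAdj_le ((GM.ofAdj_spec x y).map f hf)

end

/-- A GM metric is the graph metric of its unit distance relation. -/
theorem GM.rch {W : Type} (M : GM W) (x y : W) :
    Rch (fun u v => M.d u v = 1) (M.d x y) x y := by
  obtain ⟨γ, g0, gn, hγ⟩ := M.exists_geod x y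
  have : ∀ n ≤ M.d x y, Rch (fun u v => M.d u v = 1) n (γ 0) (γ n) := by
    intro n
    induction n with
    | zero => intro _; exact Rch.refl _
    | succ n ih => exact fun hn => Rch.step (ih (by omega)) (by rw [hγ n (n + 1) (by omega) hn]; omega)
  have h := this (M.d x y) le_rfl
  rwa [g0, gn] at h

end Pool.Agent.H33.RD
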