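import Pool.Agent.H33.RD.Lox

/-!
# Quasi-lines, quasi-convex sets and nearest points in hyperbolic graphs
-/

set_option autoImplicit false

namespace Pool.Agent.H33.RD

/-- `p` is a nearest point of `Y` to `y`. -/
def IsNear {V : Type} (M : GM V) (Y : Set V) (y p : V) : Prop :=
  p ∈ Y ∧ ∀ q ∈ Y, M.d y p ≤ M.d y q

/-- Quasi-convexity, in terms of nearest points. -/
def QC {V : Type} (M : GM V) (Y : Set V) (R : ℕ) : Prop :=
  ∀ y p, IsNear M Y y p → ∀ q ∈ Y, M.d y p + M.d p q ≤ M.d y q + R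

theorem exists_near {V : Type} (M : GM V) {Y : Set V} (hY : Y.Nonempty) (y : V) :
    ∃ p, IsNear M Y y p := by
  classical
  have hex : ∃ n, ∃ p ∈ Y, M.d y p = n := by
    obtain ⟨p, hp⟩ := hY
    exact ⟨_, p, hp, rfl⟩
  obtain ⟨p, hp, hpn⟩ := Nat.find_spec hex
  refine ⟨p, hp, fun q hq => ?_⟩
  rw [hpn]
  exact Nat.find_min' hex ⟨q, hq, rfl⟩

theorem near_self {V : Type} (M : GM V) {Y : Set V} {p : V} (hp : p ∈ Y) : IsNear M Y p p :=
  ⟨hp, fun q _ => by rw [M.self]; exact Nat.zero_le _⟩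

theorem near_self_eq {V : Type} (M : GM V) {Y : Set V} {p q : V} (hp : p ∈ Y)
    (hq : IsNear M Y p q) : q = p := by
  have := hq.2 p hp
  rw [M.self] at this
  exact (M.eq0 _ _ (by omega)).symm

section

variable {V : Type} (M : GM V) {δ : ℕ} (hyp : M.Hyp δ)

include hyp

/-- projection dichotomy -/
theorem proj_dich {Y : Set V} {R : ℕ} (hQ : QC M Y R) {y y' p p' : V} (hp : IsNear M Y y p)
    (hp' : IsNear M Y y' p') :
    M.d p p' ≤ R + δ ∨ M.d y p + M.d p p' + M.d p' y' ≤ M.d y y' + 2 * R + δ := by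
  have h1 := hQ y p hp p' hp'.1
  have h2 := hQ y' p' hp' p hp.1
  have h3 := hyp y p' y' p
  rw [M.comm p' p] at h2 h3
  rw [M.comm p' y'] at h3 ⊢
  omega

omit hyp in
/-- a point near a geodesic between two points of a quasi-convex set is near the set -/
theorem near_of_between {Y : Set V} {R κ : ℕ} (hQ : QC M Y R) {y y' p z : V} (hy : y ∈ Y)
    (hy' : y' ∈ Y) (hz : IsNear M Y p z) (h : M.d y p + M.d p y' ≤ M.d y y' + κ) :
    2 * M.d p z ≤ κ + 2 * R := by
  have h1 := hQ p z hz y hy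
  have h2 := hQ p z hz y' hy'
  have h3 := M.tri y z y'
  rw [M.comm y z] at h3
  rw [M.comm y p] at h
  omega

omit hyp in
theorem QC_mono {Y : Set V} {R R' : ℕ} (hQ : QC M Y R) (h : R ≤ R') : QC M Y R' := by
  intro y p hp q hq
  have := hQ y p hp q hq
  omega

omit hyp in
/-- thickening -/
theorem QC_thick {Y₀ Y : Set V} {R C : ℕ} (hne : Y₀.Nonempty) (hQ : QC M Y₀ R) (hsub : Y₀ ⊆ Y)
    (hC : ∀ p ∈ Y, ∃ l ∈ Y₀, M.d p l ≤ C) : QC M Y (4 * C + 2 * R) := by
  intro y p hp q hq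
  obtain ⟨z, hz⟩ := exists_near M hne y
  obtain ⟨l, hl, hpl⟩ := hC p hp.1
  obtain ⟨m, hm, hqm⟩ := hC q hq
  have h1 := hQ y z hz l hl
  have h2 := hQ y z hz m hm
  have h3 := hp.2 z (hsub hz.1)
  have h4 := M.tri y p l
  have h5 := M.tri y q m
  have h6 := M.tri p l q
  have h7 := M.tri l z q
  have h8 := M.tri z m q
  rw [M.comm l z] at h7
  rw [M.comm m q] at h8
  omega

end

section line

variable {H V : Type} [Group H] [MulAction H V] (M : GM V) {δ : ℕ} (hyp : M.Hyp δ)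
  (inv : ∀ (h : H) (x y : V), M.d (h • x) (h • y) = M.d x y) (f : H) (x₀ : V)
  (hf : M.d x₀ (f • x₀) + 2 * δ + 1 ≤ M.d x₀ (f ^ 2 • x₀))

/-- displacement function of `f` at `x₀` -/
def disp (m : ℕ) : ℕ := M.d x₀ (f ^ m • x₀)

include inv in
theorem d_line (i j : ℤ) : M.d (f ^ i • x₀) (f ^ j • x₀) = disp M f x₀ (j - i).natAbs := by
  rw [d_zpow M inv, d_natAbs M inv]; rfl

theorem disp_zero : disp M f x₀ 0 = 0 := by simp [disp, M.self]

include hyp inv hf

theorem disp_growth (m : ℕ) : disp M f x₀ m + (δ + 1) ≤ disp M f x₀ (m + 1) := by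
  have h1 : disp M f x₀ 1 = M.d x₀ (f • x₀) := by simp [disp]
  have hsub : disp M f x₀ 2 ≤ disp M f x₀ 1 + disp M f x₀ 1 := by
    have e1 := M.tri (f ^ (0 : ℤ) • x₀) (f ^ (1 : ℤ) • x₀) (f ^ (2 : ℤ) • x₀)
    rw [d_line M inv, d_line M inv, d_line M inv] at e1
    simpa using e1
  have hf' : disp M f x₀ 1 + 2 * δ + 1 ≤ disp M f x₀ 2 := by rw [h1]; exact hf
  induction m with
  | zero => rw [disp_zero]; simp only [zero_add]; omega
  | succ m ih =>
    rcases Nat.eq_zero_or_pos m with rfl | hm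
    · simp only [zero_add]; show _ ≤ disp M f x₀ 2; omega
    · have e1 := hyp (f ^ (0 : ℤ) • x₀) (f ^ (2 : ℤ) • x₀) (f ^ (1 : ℤ) • x₀)
        (f ^ ((m : ℤ) + 2) • x₀)
      rw [d_line M inv, d_line M inv, d_line M inv, d_line M inv, d_line M inv,
        d_line M inv] at e1
      have a1 : ((2 : ℤ) - 0).natAbs = 2 := rfl
      have a2 : ((m : ℤ) + 2 - 1).natAbs = m + 1 := by omega
      have a3 : ((1 : ℤ) - 0).natAbs = 1 := rfl
      have a4 : ((m : ℤ) + 2 - 2).natAbs = m := by omega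
      have a5 : ((m : ℤ) + 2 - 0).natAbs = m + 1 + 1 := by omega
      have a6 : ((1 : ℤ) - 2).natAbs = 1 := rfl
      rw [a1, a2, a3, a4, a5, a6] at e1
      omega

theorem disp_lin (m : ℕ) : m ≤ disp M f x₀ m := by
  induction m with
  | zero => omega
  | succ m ih => have := disp_growth M hyp inv f x₀ hf m; omega

theorem disp_add (m t : ℕ) : disp M f x₀ m + t ≤ disp M f x₀ (m + t) := by
  induction t with
  | zero => simp
  | succ t ih =>
    have := disp_growth M hyp inv f x₀ hf (m + t)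
    have e : m + (t + 1) = m + t + 1 := by omega
    rw [e]
    omega

theorem disp_mono {m m' : ℕ} (h : m ≤ m') : disp M f x₀ m ≤ disp M f x₀ m' := by
  obtain ⟨t, rfl⟩ := Nat.exists_eq_add_of_le h
  have := disp_add M hyp inv f x₀ hf m t
  omega

/-- The quasi-line property. -/
theorem disp_QL (m m' : ℕ) :
    disp M f x₀ m + disp M f x₀ m' ≤ disp M f x₀ (m + m') + disp M f x₀ 1 := by
  rcases Nat.eq_zero_or_pos m' with rfl | hm'
  · rw [disp_zero]; simp
  have e1 := hyp (f ^ (-(m : ℤ)) • x₀) (f ^ (1 : ℤ) • x₀) (f ^ (0 : ℤ) • x₀)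
    (f ^ (m' : ℤ) • x₀)
  rw [d_line M inv, d_line M inv, d_line M inv, d_line M inv, d_line M inv, d_line M inv] at e1
  have a1 : ((1 : ℤ) - (-(m : ℤ))).natAbs = m + 1 := by omega
  have a2 : ((m' : ℤ) - 0).natAbs = m' := by omega
  have a3 : ((0 : ℤ) - (-(m : ℤ))).natAbs = m := by omega
  have a4 : ((m' : ℤ) - 1).natAbs = m' - 1 := by omega
  have a5 : ((m' : ℤ) - (-(m : ℤ))).natAbs = m + m' := by omega
  have a6 : ((0 : ℤ) - 1).natAbs = 1 := rfl
  rw [a1, a2, a3, a4, a5, a6] at e1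
  have g1 := disp_growth M hyp inv f x₀ hf m
  have g2 := disp_growth M hyp inv f x₀ hf (m' - 1)
  rw [Nat.sub_add_cancel hm'] at g2
  omega

omit hyp hf in
theorem disp_sub (m m' : ℕ) :
    disp M f x₀ (m + m') ≤ disp M f x₀ m + disp M f x₀ m' := by
  have e1 := M.tri (f ^ (0 : ℤ) • x₀) (f ^ (m : ℤ) • x₀) (f ^ ((m : ℤ) + m') • x₀)
  rw [d_line M inv, d_line M inv, d_line M inv] at e1
  have a1 : ((m : ℤ) + m' - 0).natAbs = m + m' := by omega
  have a2 : ((m : ℤ) - 0).natAbs = m := by omega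
  have a3 : ((m : ℤ) + m' - m).natAbs = m' := by omega
  rwa [a1, a2, a3] at e1

/-- quasi-convexity of the quasi-line -/
theorem QC_line :
    QC M (Set.range fun i : ℤ => f ^ i • x₀)
      (disp M f x₀ (disp M f x₀ 1 + δ + 1) + δ) := by
  rintro y p ⟨⟨i, rfl⟩, hmin⟩ q ⟨j, rfl⟩
  simp only at hmin ⊢
  set T := disp M f x₀ 1 + δ + 1 with hT
  have hTl := disp_lin M hyp inv f x₀ hf T
  rcases le_or_gt T (j - i).natAbs with hbig | hsmall
  · -- intermediate index
    obtain ⟨k, hk1, hk2⟩ : ∃ k : ℤ, (k - i).natAbs = T ∧ (j - k).natAbs + T = (j - i).natAbs := by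
      rcases le_total i j with h | h
      · exact ⟨i + T, by omega, by omega⟩
      · exact ⟨i - T, by omega, by omega⟩
    have h1 := hmin (f ^ k • x₀) ⟨k, rfl⟩
    have h2 := hyp y (f ^ k • x₀) (f ^ i • x₀) (f ^ j • x₀)
    have h3 := disp_QL M hyp inv f x₀ hf (j - k).natAbs T
    rw [d_line M inv, d_line M inv, d_line M inv] at h2
    have a1 : (i - k).natAbs = T := by omega
    rw [a1] at h2
    rw [hk2] at h3
    rw [d_line M inv]
    omega
  · have h1 := hmin (f ^ j • x₀) ⟨j, rfl⟩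
    have h2 := disp_mono M hyp inv f x₀ hf hsmall.le
    rw [d_line M inv]
    omega

end line

end Pool.Agent.H33.RD
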