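import Pool.Agent.H33.RD.Path

/-!
# Quotient metrics
-/

set_option autoImplicit false

namespace Pool.Agent.H33.RD

section

variable {H W : Type} [Group H] [MulAction H W] (M : GM W) (N : Subgroup H)

theorem qd_ex (x y : W) : ∃ n, ∃ ν ∈ N, M.d x (ν • y) = n := ⟨_, 1, N.one_mem, rfl⟩

open Classical in
/-- the quotient distance, as a function on `W` -/
noncomputable def qd (x y : W) : ℕ := Nat.find (qd_ex M N x y)

theorem qd_spec (x y : W) : ∃ ν ∈ N, M.d x (ν • y) = qd M N x y := by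
  classical
  exact Nat.find_spec (qd_ex M N x y)

theorem qd_le {x y : W} {ν : H} (hν : ν ∈ N) : qd M N x y ≤ M.d x (ν • y) := by
  classical
  exact Nat.find_min' (qd_ex M N x y) ⟨ν, hν, rfl⟩

theorem qd_le_d (x y : W) : qd M N x y ≤ M.d x y := by
  have := qd_le M N (x := x) (y := y) N.one_mem
  rwa [one_smul] at this

theorem qd_self (x : W) : qd M N x x = 0 := by
  have := qd_le_d M N x x
  rw [M.self] at this
  omega

variable (inv : ∀ (h : H) (x y : W), M.d (h • x) (h • y) = M.d x y)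

theorem qd_smul_right {x y : W} {ν : H} (hν : ν ∈ N) : qd M N x (ν • y) = qd M N x y := by
  apply le_antisymm
  · obtain ⟨μ, h1, h2⟩ := qd_spec M N x y
    have := qd_le M N (x := x) (y := ν • y) (N.mul_mem h1 (N.inv_mem hν))
    rw [mul_smul, inv_smul_smul, h2] at this
    exact this
  · obtain ⟨μ, h1, h2⟩ := qd_spec M N x (ν • y)
    have := qd_le M N (x := x) (y := y) (N.mul_mem h1 hν)
    rw [mul_smul, h2] at this
    exact this

include inv in
theorem qd_comm (x y : W) : qd M N x y = qd M N y x := by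
  have key : ∀ x y, qd M N x y ≤ qd M N y x := by
    intro x y
    obtain ⟨μ, h1, h2⟩ := qd_spec M N y x
    have := qd_le M N (x := x) (y := y) (N.inv_mem h1)
    rw [← inv μ, smul_inv_smul, M.comm, h2] at this
    exact this
  exact le_antisymm (key x y) (key y x)

include inv in
theorem qd_smul_left {x y : W} {ν : H} (hν : ν ∈ N) : qd M N (ν • x) y = qd M N x y := by
  rw [qd_comm M N inv, qd_smul_right M N hν, qd_comm M N inv]

include inv in
theorem qd_tri (x y z : W) : qd M N x z ≤ qd M N x y + qd M N y z := by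
  obtain ⟨μ, h1, h2⟩ := qd_spec M N x y
  obtain ⟨μ', h1', h2'⟩ := qd_spec M N y z
  have := qd_le M N (x := x) (y := z) (N.mul_mem h1 h1')
  have t := M.tri x (μ • y) ((μ * μ') • z)
  rw [mul_smul, inv] at t
  rw [mul_smul] at this
  omega

theorem qd_zero {x y : W} (h : qd M N x y = 0) : ∃ ν ∈ N, x = ν • y := by
  obtain ⟨μ, h1, h2⟩ := qd_spec M N x y
  rw [h] at h2
  exact ⟨μ, h1, M.eq0 _ _ h2⟩

include inv in
theorem qd_geod (x y : W) (k : ℕ) (hk : k ≤ qd M N x y) :
    ∃ z, qd M N x z = k ∧ k + qd M N z y = qd M N x y := by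
  obtain ⟨μ, h1, h2⟩ := qd_spec M N x y
  obtain ⟨z, h3, h4⟩ := M.geod x (μ • y) k (by omega)
  have a1 := qd_le_d M N x z
  have a2 := qd_le M N (x := z) (y := y) h1
  have a3 := qd_tri M N inv x z y
  exact ⟨z, by omega, by omega⟩

variable [hN : N.Normal]

include inv hN in
theorem qd_inv (h : H) (x y : W) : qd M N (h • x) (h • y) = qd M N x y := by
  have key : ∀ (h : H) (x y : W), qd M N (h • x) (h • y) ≤ qd M N x y := by
    intro h x y
    obtain ⟨μ, h1, h2⟩ := qd_spec M N x y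
    have := qd_le M N (x := h • x) (y := h • y) (hN.conj_mem μ h1 h)
    rw [mul_smul, mul_smul, inv_smul_smul, inv, h2] at this
    exact this
  apply le_antisymm (key h x y)
  have := key h⁻¹ (h • x) (h • y)
  rwa [inv_smul_smul, inv_smul_smul] at this

/-- the orbit space -/
abbrev Orb (W : Type) [MulAction H W] (N : Subgroup H) : Type := MulAction.orbitRel.Quotient N W

/-- class of a point in the orbit space -/
def orb (N : Subgroup H) (x : W) : Orb W N := Quotient.mk (MulAction.orbitRel N W) x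

omit hN in
theorem orb_eq {x y : W} : orb N x = orb N y ↔ ∃ ν ∈ N, ν • y = x := by
  unfold orb
  rw [Quotient.eq]
  constructor
  · rintro ⟨⟨ν, hν⟩, h⟩
    exact ⟨ν, hν, h⟩
  · rintro ⟨ν, hν, h⟩
    exact ⟨⟨ν, hν⟩, h⟩

omit hN in
theorem orb_surj (z : Orb W N) : ∃ x : W, orb N x = z := by
  obtain ⟨x, hx⟩ := Quotient.exists_rep z
  exact ⟨x, hx⟩

/-- action of the quotient group on the orbit space -/
instance orbAction (N : Subgroup H) [hN : N.Normal] : MulAction (H ⧸ N) (Orb W N) where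
  smul q z := Quotient.liftOn₂ q z (fun h x => orb N (h • x)) (by
    intro h x h' x' hh hx
    have h1 : h⁻¹ * h' ∈ N := QuotientGroup.leftRel_apply.1 hh
    obtain ⟨⟨ν, hν⟩, hx'⟩ := hx
    have hx'' : ν • x' = x := hx'
    rw [orb_eq]
    refine ⟨h * ν * h'⁻¹, ?_, by rw [smul_smul, inv_mul_cancel_right, mul_smul, hx'']⟩
    have e : h * ν * h'⁻¹ = (h * ν * h⁻¹) * (h * (h⁻¹ * h')⁻¹ * h⁻¹) := by group
    rw [e]
    exact N.mul_mem (hN.conj_mem ν hν h) (hN.conj_mem _ (N.inv_mem h1) h))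
  one_smul := by
    intro z
    obtain ⟨x, rfl⟩ := orb_surj N z
    show orb N ((1 : H) • x) = orb N x
    rw [one_smul]
  mul_smul := by
    intro q q' z
    obtain ⟨h, rfl⟩ := QuotientGroup.mk_surjective q
    obtain ⟨h', rfl⟩ := QuotientGroup.mk_surjective q'
    obtain ⟨x, rfl⟩ := orb_surj N z
    show orb N ((h * h') • x) = orb N (h • h' • x)
    rw [mul_smul]

theorem orb_smul (h : H) (x : W) : ((h : H ⧸ N)) • orb N x = orb N (h • x) := rfl

/-- the quotient metric -/
noncomputable def qGM : GM (Orb W N) where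
  d := fun a b => Quotient.liftOn₂ a b (fun x y => qd M N x y) (by
    intro x y x' y' hx hy
    obtain ⟨⟨ν, hν⟩, h1⟩ := hx
    obtain ⟨⟨μ, hμ⟩, h2⟩ := hy
    have h1' : ν • x' = x := h1
    have h2' : μ • y' = y := h2
    show qd M N x y = qd M N x' y'
    rw [← h1', ← h2', qd_smul_right M N hμ, qd_smul_left M N inv hν])
  self a := by
    obtain ⟨x, rfl⟩ := orb_surj N a
    exact qd_self M N x
  eq0 a b h := by
    obtain ⟨x, rfl⟩ := orb_surj N a
    obtain ⟨y, rfl⟩ := orb_surj N b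
    obtain ⟨ν, hν, h2⟩ := qd_zero M N (x := x) (y := y) h
    exact (orb_eq N).2 ⟨ν, hν, h2.symm⟩
  comm a b := by
    obtain ⟨x, rfl⟩ := orb_surj N a
    obtain ⟨y, rfl⟩ := orb_surj N b
    exact qd_comm M N inv x y
  tri a b c := by
    obtain ⟨x, rfl⟩ := orb_surj N a
    obtain ⟨y, rfl⟩ := orb_surj N b
    obtain ⟨z, rfl⟩ := orb_surj N c
    exact qd_tri M N inv x y z
  geod a b k hk := by
    obtain ⟨x, rfl⟩ := orb_surj N a
    obtain ⟨y, rfl⟩ := orb_surj N b
    obtain ⟨z, h1, h2⟩ := qd_geod M N inv x y k hk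
    exact ⟨orb N z, h1, h2⟩

omit hN in
theorem qGM_d (x y : W) : (qGM M N inv).d (orb N x) (orb N y) = qd M N x y := rfl

theorem qGM_inv (q : H ⧸ N) (a b : Orb W N) :
    (qGM M N inv).d (q • a) (q • b) = (qGM M N inv).d a b := by
  obtain ⟨h, rfl⟩ := QuotientGroup.mk_surjective q
  obtain ⟨x, rfl⟩ := orb_surj N a
  obtain ⟨y, rfl⟩ := orb_surj N b
  rw [orb_smul, orb_smul, qGM_d, qGM_d]
  exact qd_inv M N inv h x y

end

end Pool.Agent.H33.RD
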