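import Pool.Agent.H33.RD.GeoQuot

/-!
# Geodesics of the coned-off graph versus geodesics of `V`
-/

set_option autoImplicit false

namespace Pool.Agent.H33.RD

namespace CD

variable {H V C : Type} [Group H] [MulAction H V] [MulAction H C] (P : CD H V C)

/-- The geometric facts needed for the rapid decay estimate. -/
structure RDH (B δ Dk ca cq : ℕ) : Prop where
  bgi : P.BGI B
  hypX : P.X.Hyp δ
  X1 : ∀ p q : V, P.D.d (Sum.inl p) (Sum.inl q) = 1 → P.X.d p q = 1
  DleX : ∀ p q : V, P.D.d (Sum.inl p) (Sum.inl q) ≤ P.X.d p q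
  close : ∀ (γ : ℕ → V ⊕ C) (L : ℕ), IsGeod P.D γ L → ∀ a b : V, γ 0 = Sum.inl a →
    γ L = Sum.inl b → ∀ m : V, P.X.d a m + P.X.d m b ≤ P.X.d a b + (δ + 1) →
    ∃ i ≤ L, P.D.d (Sum.inl m) (γ i) ≤ Dk
  add : ∀ x y m : V, P.X.d x m + P.X.d m y ≤ P.X.d x y + (δ + 1) →
    P.D.d (Sum.inl x) (Sum.inl m) + P.D.d (Sum.inl m) (Sum.inl y) ≤
      P.D.d (Sum.inl x) (Sum.inl y) + ca
  qc : ∀ (c : C) (a p y : V), p ∈ P.E c (Sum.inl a) → y ∈ P.Y c →
    P.X.d a p + P.X.d p y ≤ P.X.d a y + cq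

/-- auxiliary exponential sequence -/
def bseq (K : ℕ) : ℕ → ℕ
  | 0 => 0
  | j + 1 => 2 * bseq K j + K

theorem bseq_mono (K : ℕ) {i j : ℕ} (h : i ≤ j) : bseq K i ≤ bseq K j := by
  induction j, h using Nat.le_induction with
  | base => exact le_rfl
  | succ j _ ih =>
    show _ ≤ 2 * bseq K j + K
    omega

variable {P}

theorem IsGeod_shift {W : Type} {M : GM W} {γ : ℕ → W} {L : ℕ} (h : IsGeod M γ L) {i : ℕ}
    (hi : i ≤ L) : IsGeod M (fun t => γ (i + t)) (L - i) := by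
  intro s t hst ht
  have := h (i + s) (i + t) (by omega) (by omega)
  simp only
  rw [this]
  omega

theorem IsGeod_rev {W : Type} {M : GM W} {γ : ℕ → W} {L : ℕ} (h : IsGeod M γ L) :
    IsGeod M (fun t => γ (L - t)) L := by
  intro s t hst ht
  simp only
  rw [M.comm, h (L - t) (L - s) (by omega) (by omega)]
  omega

/-- the vertex before a cone point on a geodesic -/
theorem entry {γ : ℕ → V ⊕ C} {L : ℕ} (hγ : IsGeod P.D γ L) {i : ℕ} {c : C} (hi : 1 ≤ i)
    (hiL : i ≤ L) (hc : γ i = Sum.inr c) :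
    ∃ p, γ (i - 1) = Sum.inl p ∧ p ∈ P.Y c ∧ p ∈ P.E c (γ 0) := by
  have h1 := hγ (i - 1) i (by omega) hiL
  have h2 := hγ 0 (i - 1) (by omega) (by omega)
  have h3 := hγ 0 i (by omega) hiL
  rw [hc] at h1 h3
  have e1 : i - (i - 1) = 1 := by omega
  rw [e1] at h1
  rcases hp : γ (i - 1) with p | c'
  · rw [hp] at h1 h2
    have hpY : p ∈ P.Y c := (P.adj p c).1 h1
    exact ⟨p, rfl, hpY, hpY, by omega⟩
  · rw [hp] at h1
    exact absurd h1 (P.nadj c' c)

/-- the vertex after a cone point on a geodesic -/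
theorem exit' {γ : ℕ → V ⊕ C} {L : ℕ} (hγ : IsGeod P.D γ L) {i : ℕ} {c : C}
    (hiL : i < L) (hc : γ i = Sum.inr c) :
    ∃ p, γ (i + 1) = Sum.inl p ∧ p ∈ P.Y c ∧ p ∈ P.E c (γ L) := by
  obtain ⟨p, h1, h2, h3⟩ := entry (IsGeod_rev hγ) (i := L - i) (c := c) (by omega) (by omega)
    (by rw [Nat.sub_sub_self hiL.le]; exact hc)
  have e : L - (L - i - 1) = i + 1 := by omega
  rw [e] at h1
  rw [Nat.sub_zero] at h3
  exact ⟨p, h1, h2, h3⟩

variable {B δ Dk ca cq : ℕ} (hR : P.RDH B δ Dk ca cq)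

/-- the constant of the relation lemma -/
def DR (B δ Dk cq : ℕ) : ℕ := bseq (7 * B + δ + 2 + cq + 1) Dk

include hR in
theorem rel {γ : ℕ → V ⊕ C} {L : ℕ} (hγ : IsGeod P.D γ L) {a b m : V} (h0 : γ 0 = Sum.inl a)
    (hL : γ L = Sum.inl b) (hm : P.X.d a m + P.X.d m b ≤ P.X.d a b + (δ + 1)) :
    ∃ i ≤ L, (∃ y, γ i = Sum.inl y ∧ P.X.d m y ≤ DR B δ Dk cq) ∨
      (∃ c y, γ i = Sum.inr c ∧ y ∈ P.Y c ∧ P.X.d m y ≤ DR B δ Dk cq) := by
  by_contra hcon
  set K := 7 * B + δ + 2 + cq + 1 with hK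
  obtain ⟨i₀, hi₀, hd⟩ := hR.close γ L hγ a b h0 hL m hm
  obtain ⟨η, e0, e1, hη⟩ := P.D.exists_geod (Sum.inl m) (γ i₀)
  set ℓ := P.D.d (Sum.inl m) (γ i₀) with hℓ
  have hbad1 : ∀ i ≤ L, ∀ y, γ i = Sum.inl y → ∀ j ≤ ℓ, bseq K j < P.X.d m y := by
    intro i hi y hy j hj
    by_contra h
    push Not at h
    exact hcon ⟨i, hi, Or.inl ⟨y, hy, h.trans (bseq_mono K (by omega))⟩⟩
  have hbad2 : ∀ i ≤ L, ∀ c, γ i = Sum.inr c → ∀ y ∈ P.Y c, ∀ j ≤ ℓ, bseq K j < P.X.d m y := by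
    intro i hi c hc y hy j hj
    by_contra h
    push Not at h
    exact hcon ⟨i, hi, Or.inr ⟨c, y, hc, hy, h.trans (bseq_mono K (by omega))⟩⟩
  have key : ∀ j ≤ ℓ, (∃ y, η j = Sum.inl y ∧ P.X.d m y ≤ bseq K j) ∨
      (∃ c p, 1 ≤ j ∧ η j = Sum.inr c ∧ p ∈ P.Y c ∧ P.X.d m p ≤ bseq K j) := by
    intro j
    induction j with
    | zero =>
      intro _
      exact Or.inl ⟨m, e0, by rw [P.X.self]; omega⟩
    | succ j ih =>
      intro hj
      have hstep := hη j (j + 1) (by omega) hj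
      have e : j + 1 - j = 1 := by omega
      rw [e] at hstep
      have hb : bseq K (j + 1) = 2 * bseq K j + K := rfl
      rcases ih (by omega) with ⟨y, hy, hy2⟩ | ⟨c, p, hj1, hc, hp, hp2⟩
      · rcases hnext : η (j + 1) with y' | c'
        · left
          rw [hy, hnext] at hstep
          have h1 := hR.X1 y y' hstep
          have h2 := P.X.tri m y y'
          exact ⟨y', rfl, by omega⟩
        · right
          rw [hy, hnext] at hstep
          exact ⟨c', y, by omega, rfl, (P.adj y c').1 hstep, by omega⟩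
      · -- through the cone point `c`
        left
        have hmiss : ∀ i ≤ L, γ i ≠ Sum.inr c := by
          intro i hi hic
          have := hbad2 i hi c hic p hp j (by omega)
          omega
        obtain ⟨q, hq1, hq2, hq3⟩ := exit' hη (i := j) (by omega) hc
        rw [e1] at hq3
        have hne0 := hmiss 0 (by omega)
        have hneL := hmiss L le_rfl
        have hnei := hmiss i₀ hi₀
        obtain ⟨u, hu⟩ := P.E_nemp hne0
        obtain ⟨u', hu'⟩ := P.E_nemp hneL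
        obtain ⟨w, hw⟩ := P.E_nemp hnei
        have b1 := P.path_bgi hR.bgi (hγ.mono hi₀) (fun t ht => hmiss t (by omega)) hu hw
        have b2 := P.path_bgi hR.bgi (IsGeod_shift hγ hi₀) (c := c) (fun t ht => hmiss _ (by omega))
          (p := w) (q := u') (by simpa using hw) (by
            rw [Nat.add_sub_cancel' hi₀]; exact hu')
        have b3 := P.E_dia hR.bgi hw hq3
        rw [h0] at hu
        rw [hL] at hu'
        have c1 := hR.qc c a u p hu hp
        have c2 := hR.qc c b u' p hu' hp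
        have t1 := P.X.tri a m p
        have t2 := P.X.tri b m p
        have t3 := P.X.tri a u b
        have t4 := P.X.tri u u' b
        have t5 := P.X.tri u w u'
        have t6 := P.X.tri u u' p
        have t7 := P.X.tri p u q
        have t8 := P.X.tri u w q
        have t9 := P.X.tri m p q
        rw [P.X.comm b m] at t2
        rw [P.X.comm u' b] at t4
        rw [P.X.comm p u] at t7
        exact ⟨q, hq1, by omega⟩
  rcases key ℓ le_rfl with ⟨y, hy, hy2⟩ | ⟨c, p, _, hc, hp, hp2⟩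
  · rw [e1] at hy
    have := hbad1 i₀ hi₀ y hy ℓ le_rfl
    omega
  · rw [e1] at hc
    have := hbad2 i₀ hi₀ c hc p hp ℓ le_rfl
    omega

end CD

end Pool.Agent.H33.RD
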